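import Pool.Agent.Lib.MP_d439b2_co.R3.SpecA
import Pool.Agent.Lib.MP_d439b2_co.X2.VicSt

/-!
# MP_d439b2_co, R3: BClass, the part with small stable sets is a union of few nested cliques
-/

set_option autoImplicit false

namespace Pool.Agent.MPd439b2.R3

open Pool.Agent.MPd439b2 Pool.Agent.MPd439b2.W Pool.Agent.MPd439b2.X2

namespace BClassP

open Pool.Agent.MPd439b2.X2.VicStP

/-- Antichains of the vicinal preorder in `B` are small. -/
theorem anti (hA : S_AntiC) (hR : W.S_RamC) (m k : ℕ) :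
    ∃ w : ℕ, ∀ (V : Type) (G : SimpleGraph V) (B : Finset V),
      ¬ MatP G m → ¬ ComP G m → F2 G m → (∀ T ⊆ B, Stb G T → T.card < k) →
      ∀ A ⊆ B, (∀ x ∈ A, ∀ y ∈ A, pre G x y → x = y) → A.card ≤ w := by
  classical
  obtain ⟨M, hM⟩ := hA m
  obtain ⟨N, hN⟩ := hR Bool (max M k + 1)
  refine ⟨N, fun V G B hmat hcom hF2 hB A hAB hanti => ?_⟩
  by_contra hlt
  rw [not_le] at hlt
  have hne : A.Nonempty := by
    rw [← Finset.card_pos]
    omega
  obtain ⟨v₀, hv₀⟩ := hne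
  obtain ⟨x, hxA, hxi⟩ : ∃ x : ℕ → V, (∀ i, x i ∈ A) ∧
      ∀ i < A.card, ∀ j < A.card, x i = x j → i = j := by
    refine ⟨fun i => if h : i < A.card then (A.equivFin.symm ⟨i, h⟩).val else v₀, ?_, ?_⟩
    · intro i
      by_cases h : i < A.card
      · simp only [dif_pos h]
        exact (A.equivFin.symm ⟨i, h⟩).2
      · simp only [dif_neg h]
        exact hv₀
    · intro i hi j hj hij
      simp only [dif_pos hi, dif_pos hj] at hij
      have h1 := A.equivFin.symm.injective (Subtype.ext hij)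
      exact congrArg Fin.val h1
  obtain ⟨s, c, hs1, hs2, hs3⟩ := hN fun i j => decide (G.Adj (x i) (x j))
  have hsne : ∀ i j, i < max M k + 1 → j < max M k + 1 → i ≠ j → x (s i) ≠ x (s j) := by
    intro i j hi hj hij h1
    have h2 := hxi (s i) ((hs2 i hi).trans hlt) (s j) ((hs2 j hj).trans hlt) h1
    rcases lt_or_gt_of_ne hij with h3 | h3
    · have := hs1 i j h3 hj
      omega
    · have := hs1 j i h3 hi
      omega
  cases c with
  | false =>
    have hnadj : ∀ i j, i < max M k + 1 → j < max M k + 1 → ¬ G.Adj (x (s i)) (x (s j)) := by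
      intro i j hi hj
      rcases lt_trichotomy i j with h3 | h3 | h3
      · exact of_decide_eq_false (hs3 i j h3 hj)
      · rw [h3]
        exact G.irrefl
      · intro h4
        exact of_decide_eq_false (hs3 j i h3 hi) h4.symm
    have h1 := hB ((Finset.range k).image fun i => x (s i)) (by
      intro y hy
      rw [Finset.mem_image] at hy
      obtain ⟨i, _, rfl⟩ := hy
      exact hAB (hxA _)) (by
      intro y hy z hz
      rw [Finset.mem_image] at hy hz
      obtain ⟨i, hi, rfl⟩ := hy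
      obtain ⟨j, hj, rfl⟩ := hz
      rw [Finset.mem_range] at hi hj
      exact hnadj i j (by omega) (by omega))
    rw [Finset.card_image_of_injOn, Finset.card_range] at h1
    · omega
    · intro i hi j hj hij
      rw [Finset.mem_coe, Finset.mem_range] at hi hj
      by_contra hne
      exact hsne i j (by omega) (by omega) hne hij
  | true =>
    have hadj : ∀ i j, i < max M k + 1 → j < max M k + 1 → i ≠ j →
        G.Adj (x (s i)) (x (s j)) := by
      intro i j hi hj hij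
      rcases lt_or_gt_of_ne hij with h3 | h3
      · exact of_decide_eq_true (hs3 i j h3 hj)
      · exact (of_decide_eq_true (hs3 j i h3 hi)).symm
    rcases hM V G (fun i => x (s i)) (by
      intro a ha b hb hab hsub
      exact hsne a b (by omega) (by omega) hab (hanti _ (hxA _) _ (hxA _) hsub)) with h1 | h1 | h1
    · exact hmat h1
    · exact hcom h1
    · obtain ⟨φ, u, w, hφ, h2⟩ := h1
      refine hF2 ⟨fun i => x (s (φ i)), u, w, fun i hi j hj => ?_⟩
      obtain ⟨e1, e2, e3, e4, e5, e6⟩ := h2 i hi j hj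
      refine ⟨e1, e2, e3, fun hij => ?_, e5, e6⟩
      obtain ⟨f1, f2, f3, f4⟩ := e4 hij
      have hi' := hφ i hi
      have hj' := hφ j hj
      exact ⟨hadj _ _ (by omega) (by omega) f1, f3, f4⟩

end BClassP

open Pool.Agent.MPd439b2.X2.VicStP in
theorem bClass (hA : S_AntiC) (hD : W.S_Dil) (hR : W.S_RamC) : S_BClass := by
  classical
  intro m k
  obtain ⟨w, hw⟩ := BClassP.anti hA hR m k
  refine ⟨w * (k + 1) + 1, fun V _ G B hmat hcom hF2 hB => ?_⟩
  have hanti := hw V G B hmat hcom hF2 hB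
  obtain ⟨N, ⟨f⟩⟩ := Finite.exists_equiv_fin V
  obtain ⟨ι, hι⟩ : ∃ ι : V → ℕ, Function.Injective ι :=
    ⟨fun x => (f x).val, fun x y hxy => f.injective (Fin.ext hxy)⟩
  let _inst : PartialOrder V := po G ι hι
  have hle : ∀ x y : V, x ≤ y ↔ pre G x y ∧ (¬ pre G y x ∨ ι x ≤ ι y) := fun x y => Iff.rfl
  have hwid : WidP {x // x ∈ B} w := by
    intro A hA'
    have h1 := hanti (A.map (Function.Embedding.subtype _)) (by
      intro x hx
      rw [Finset.mem_map] at hx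
      obtain ⟨y, _, rfl⟩ := hx
      exact y.2) (by
      intro x hx y hy hp
      rw [Finset.mem_map] at hx hy
      obtain ⟨x, hx, rfl⟩ := hx
      obtain ⟨y, hy, rfl⟩ := hy
      have hxy : x = y := by
        by_cases hq : pre G y.val x.val
        · rcases Nat.le_total (ι x.val) (ι y.val) with h1 | h1
          · exact hA' x hx y hy ((hle x.val y.val).2 ⟨hp, Or.inr h1⟩)
          · exact (hA' y hy x hx ((hle y.val x.val).2 ⟨hq, Or.inr h1⟩)).symm
        · exact hA' x hx y hy ((hle x.val y.val).2 ⟨hp, Or.inl hq⟩)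
      rw [hxy])
    rwa [Finset.card_map] at h1
  obtain ⟨c₀, hc₀⟩ := hD w {x // x ∈ B} hwid
  obtain ⟨K, hK⟩ : ∃ K : Set {x // x ∈ B}, ∀ x, x ∈ K ↔ ∃ y, c₀ y = c₀ x ∧ y < x ∧
      G.Adj x.val y.val :=
    ⟨{x | ∃ y, c₀ y = c₀ x ∧ y < x ∧ G.Adj x.val y.val}, fun x => Iff.rfl⟩
  have hcmp : ∀ x y, c₀ x = c₀ y → x ≠ y → x < y ∨ y < x := by
    intro x y hxy hne
    rcases hc₀ x y hxy with h1 | h1
    · exact Or.inl (lt_of_le_of_ne h1 hne)
    · exact Or.inr (lt_of_le_of_ne h1 hne.symm)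
  -- adjacency in the chains
  have hadjK : ∀ x y, c₀ x = c₀ y → x < y → x ∈ K → G.Adj x.val y.val := by
    intro x y hxy hlt hx
    obtain ⟨z, hz1, hz2, hz3⟩ := (hK x).1 hx
    have h0 : z.val ≤ y.val := (hz2.trans hlt).le
    have h1 : pre G z.val y.val := ((hle z.val y.val).1 h0).1
    rcases h1 (show x.val ∈ G.neighborSet z.val from hz3.symm) with h2 | h2
    · exact absurd (Subtype.ext h2) hlt.ne
    · have h3 : G.Adj y.val x.val := h2
      exact h3.symm
  have hnK : ∀ x y, c₀ x = c₀ y → x < y → y ∉ K → ¬ G.Adj x.val y.val := by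
    intro x y hxy hlt hy ha
    exact hy ((hK y).2 ⟨x, hxy, hlt, ha.symm⟩)
  -- the stable part of a chain is small
  have hst : ∀ i : Fin w, {z | c₀ z = i ∧ z ∉ K}.ncard < k := by
    intro i
    have hfin : ({z | c₀ z = i ∧ z ∉ K} : Set {x // x ∈ B}).Finite := Set.toFinite _
    have h1 := hB (hfin.toFinset.map (Function.Embedding.subtype _)) (by
      intro x hx
      rw [Finset.mem_map] at hx
      obtain ⟨y, _, rfl⟩ := hx
      exact y.2) (by
      intro x hx y hy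
      rw [Finset.mem_map] at hx hy
      obtain ⟨x, hx, rfl⟩ := hx
      obtain ⟨y, hy, rfl⟩ := hy
      rw [Set.Finite.mem_toFinset] at hx hy
      obtain ⟨hx1, hx2⟩ := hx
      obtain ⟨hy1, hy2⟩ := hy
      by_cases hxy : x = y
      · rw [hxy]
        exact G.irrefl
      · rcases hcmp x y (hx1.trans hy1.symm) hxy with h2 | h2
        · exact hnK x y (hx1.trans hy1.symm) h2 hy2
        · intro h3
          exact hnK y x (hy1.trans hx1.symm) h2 hx2 h3.symm)
    rw [Finset.card_map] at h1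
    rwa [Set.ncard_eq_toFinset_card _ hfin]
  obtain ⟨j, hj⟩ : ∃ j : {x // x ∈ B} → ℕ, ∀ x, j x = {z | c₀ z = c₀ x ∧ z ∉ K ∧ z < x}.ncard :=
    ⟨fun x => {z | c₀ z = c₀ x ∧ z ∉ K ∧ z < x}.ncard, fun x => rfl⟩
  have hjk : ∀ x, j x < k := by
    intro x
    rw [hj]
    refine lt_of_le_of_lt (Set.ncard_le_ncard ?_ (Set.toFinite _)) (hst (c₀ x))
    exact fun z hz => ⟨hz.1, hz.2.1⟩
  have hjm : ∀ x y, c₀ x = c₀ y → x < y → x ∉ K → j x < j y := by
    intro x y hxy hlt hx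
    rw [hj, hj]
    refine Set.ncard_lt_ncard ?_ (Set.toFinite _)
    refine ⟨fun z hz => ⟨hz.1.trans hxy, hz.2.1, hz.2.2.trans hlt⟩, fun hsub => ?_⟩
    have h1 : x ∈ {z | c₀ z = c₀ x ∧ z ∉ K ∧ z < x} := hsub ⟨hxy, hx, hlt⟩
    exact lt_irrefl _ h1.2.2
  -- the second coordinate
  obtain ⟨r, hr1, hr2⟩ : ∃ r : {x // x ∈ B} → Fin (k + 1), (∀ x ∈ K, (r x).val = 0) ∧
      ∀ x, x ∉ K → (r x).val = j x + 1 := by
    refine ⟨fun x => if h : x ∈ K then 0 else ⟨j x + 1, by have := hjk x; omega⟩, ?_, ?_⟩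
    · intro x hx
      simp only [dif_pos hx]
      rfl
    · intro x hx
      simp only [dif_neg hx]
  obtain ⟨ρ₀, hρ₀⟩ : ∃ ρ₀ : {x // x ∈ B} → ℕ, ∀ x, ρ₀ x = {z | z < x}.ncard :=
    ⟨fun x => {z | z < x}.ncard, fun x => rfl⟩
  have hρm : ∀ x y, x < y → ρ₀ x < ρ₀ y := by
    intro x y hlt
    rw [hρ₀, hρ₀]
    refine Set.ncard_lt_ncard ?_ (Set.toFinite _)
    refine ⟨fun z hz => lt_trans hz hlt, fun hsub => ?_⟩
    have h1 : x < x := hsub (show x ∈ {z | z < y} from hlt)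
    exact lt_irrefl _ h1
  refine ⟨fun x => if h : x ∈ B then Fin.succ (finProdFinEquiv (c₀ ⟨x, h⟩, r ⟨x, h⟩)) else 0,
    fun x => if h : x ∈ B then ρ₀ ⟨x, h⟩ else 0, fun i => ?_⟩
  -- two elements of one class
  have hcls : ∀ (x y : V) (hx : x ∈ B) (hy : y ∈ B),
      (if h : x ∈ B then Fin.succ (finProdFinEquiv (c₀ ⟨x, h⟩, r ⟨x, h⟩)) else 0) = i →
      (if h : y ∈ B then Fin.succ (finProdFinEquiv (c₀ ⟨y, h⟩, r ⟨y, h⟩)) else 0) = i →
      c₀ ⟨x, hx⟩ = c₀ ⟨y, hy⟩ ∧ (x ≠ y → (⟨x, hx⟩ : {x // x ∈ B}) ∈ K ∧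
        (⟨y, hy⟩ : {x // x ∈ B}) ∈ K) := by
    intro x y hx hy h1 h2
    rw [dif_pos hx] at h1
    rw [dif_pos hy] at h2
    have h3 := finProdFinEquiv.injective (Fin.succ_injective _ (h1.trans h2.symm))
    rw [Prod.mk.injEq] at h3
    obtain ⟨h3, h4⟩ := h3
    refine ⟨h3, fun hne => ?_⟩
    have h5 := congrArg Fin.val h4
    by_cases hxK : (⟨x, hx⟩ : {x // x ∈ B}) ∈ K
    · refine ⟨hxK, ?_⟩
      by_contra hyK
      rw [hr1 _ hxK, hr2 _ hyK] at h5
      omega
    · exfalso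
      by_cases hyK : (⟨y, hy⟩ : {x // x ∈ B}) ∈ K
      · rw [hr2 _ hxK, hr1 _ hyK] at h5
        omega
      · rw [hr2 _ hxK, hr2 _ hyK] at h5
        have hne' : (⟨x, hx⟩ : {x // x ∈ B}) ≠ ⟨y, hy⟩ := fun h => hne (congrArg Subtype.val h)
        rcases hcmp _ _ h3 hne' with h6 | h6
        · have := hjm _ _ h3 h6 hxK
          omega
        · have := hjm _ _ h3.symm h6 hyK
          omega
  refine ⟨?_, ?_, ?_⟩
  · rintro x ⟨hx, hxi⟩ y ⟨hy, hyi⟩ hne
    obtain ⟨h1, h2⟩ := hcls x y hx hy hxi hyi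
    obtain ⟨h3, h4⟩ := h2 hne
    have hne' : (⟨x, hx⟩ : {x // x ∈ B}) ≠ ⟨y, hy⟩ := fun h => hne (congrArg Subtype.val h)
    rcases hcmp _ _ h1 hne' with h6 | h6
    · exact hadjK _ _ h1 h6 h3
    · exact (hadjK _ _ h1.symm h6 h4).symm
  · rintro x ⟨hx, hxi⟩ y ⟨hy, hyi⟩ hρ
    obtain ⟨h1, _⟩ := hcls x y hx hy hxi hyi
    simp only [dif_pos hx, dif_pos hy] at hρ
    by_contra hne
    have hne' : (⟨x, hx⟩ : {x // x ∈ B}) ≠ ⟨y, hy⟩ := fun h => hne (congrArg Subtype.val h)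
    rcases hcmp _ _ h1 hne' with h6 | h6
    · have := hρm _ _ h6
      omega
    · have := hρm _ _ h6
      omega
  · rintro x ⟨hx, hxi⟩ y ⟨hy, hyi⟩ hρ z hz hzy
    obtain ⟨h1, _⟩ := hcls x y hx hy hxi hyi
    simp only [dif_pos hx, dif_pos hy] at hρ
    by_cases hne : x = y
    · rw [← hne]
      exact hz
    · have hne' : (⟨x, hx⟩ : {x // x ∈ B}) ≠ ⟨y, hy⟩ := fun h => hne (congrArg Subtype.val h)
      rcases hcmp _ _ h1 hne' with h6 | h6
      · have h7 : x ≤ y := h6.le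
        have h8 : pre G x y := ((hle x y).1 h7).1
        rcases h8 (show z ∈ G.neighborSet x from hz.symm) with h9 | h9
        · exact absurd h9 hzy
        · have h10 : G.Adj y z := h9
          exact h10.symm
      · have := hρm _ _ h6
        omega

end Pool.Agent.MPd439b2.R3
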