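import Pool.Agent.Lib.MP_d439b2_co.R3.SpecA

/-!
# MP_d439b2_co, R3, A9: balancing the signs
-/

set_option autoImplicit false

namespace Pool.Agent.MPd439b2.R3

open Pool.Agent.MPd439b2 Pool.Agent.MPd439b2.W Pool.Agent.MPd439b2.X2

namespace balAux

/-- the conclusion with classes indexed by `ι` -/
def Good {w : ℕ} (ι : Type) {V : Type} (Y : Set V) (f : Fin w → V → ℕ) : Prop :=
  ∃ (c : V → ι) (t : ι → Fin w → Bool) (ρ : V → ℕ), ∀ x ∈ Y, ∀ y ∈ Y, c x = c y → x ≠ y →
    ρ x ≠ ρ y ∧ (ρ x < ρ y → ∀ a, (t (c x) a = true → f a x ≤ f a y) ∧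
      (t (c x) a = false → f a y ≤ f a x))

theorem good_mono {w : ℕ} {ι κ V : Type} {Y : Set V} {f : Fin w → V → ℕ} (g : ι → κ)
    (hg : Function.Injective g) (h : Good ι Y f) : Good κ Y f := by
  obtain ⟨c, t, ρ, h⟩ := h
  refine ⟨fun x => g (c x), Function.extend g t (fun _ _ => true), ρ, ?_⟩
  intro x hx y hy hc hxy
  have e : Function.extend g t (fun _ _ => true) (g (c x)) = t (c x) := hg.extend_apply _ _ _
  rw [e]
  exact h x hx y hy (hg hc) hxy

theorem good_card {w : ℕ} {ι κ V : Type} [Fintype ι] [Fintype κ] {Y : Set V}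
    {f : Fin w → V → ℕ} (hc : Fintype.card ι ≤ Fintype.card κ) (h : Good ι Y f) :
    Good κ Y f := by
  obtain ⟨g⟩ := Function.Embedding.nonempty_of_card_le hc
  exact good_mono g g.injective h

theorem good_split {w : ℕ} {ι V : Type} {Y P : Set V} {f : Fin w → V → ℕ}
    (h1 : Good ι (Y ∩ P) f) (h2 : Good ι (Y \ P) f) : Good (Bool × ι) Y f := by
  classical
  obtain ⟨c1, t1, ρ1, h1⟩ := h1
  obtain ⟨c2, t2, ρ2, h2⟩ := h2
  refine ⟨fun x => if x ∈ P then (true, c1 x) else (false, c2 x),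
    fun i => if i.1 = true then t1 i.2 else t2 i.2, fun x => if x ∈ P then ρ1 x else ρ2 x, ?_⟩
  intro x hx y hy hc hxy
  by_cases px : x ∈ P <;> by_cases py : y ∈ P <;> simp only [px, py, if_true, if_false] at hc ⊢
  · exact h1 x ⟨hx, px⟩ y ⟨hy, py⟩ (congrArg Prod.snd hc) hxy
  · exact absurd (congrArg Prod.fst hc) (by simp)
  · exact absurd (congrArg Prod.fst hc) (by simp)
  · have := h2 x ⟨hx, px⟩ y ⟨hy, py⟩ (congrArg Prod.snd hc) hxy
    simpa using this

/-- `f a` is not constant on `Y` -/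
def NC {w : ℕ} {V : Type} (f : Fin w → V → ℕ) (Y : Set V) (a : Fin w) : Prop :=
  ∃ x ∈ Y, ∃ y ∈ Y, f a x ≠ f a y

/-- the comparison with sign -/
def lt' {w : ℕ} {V : Type} (f : Fin w → V → ℕ) (t : Fin w → Bool) (a : Fin w) (x y : V) : Prop :=
  (t a = true ∧ f a x < f a y) ∨ (t a = false ∧ f a y < f a x)

theorem order {w : ℕ} {V : Type} [Finite V] (Y : Set V) (f : Fin w → V → ℕ) (t : Fin w → Bool)
    (key : ∀ a b, ∀ x ∈ Y, ∀ y ∈ Y, lt' f t a x y → ¬ lt' f t b y x) :
    Good Unit Y f := by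
  obtain ⟨ι, hι⟩ : ∃ ι : V → ℕ, Function.Injective ι := by
    obtain ⟨n, ⟨e⟩⟩ := Finite.exists_equiv_fin V
    exact ⟨fun x => (e x : ℕ), fun x y h => e.injective (Fin.ext h)⟩
  let R : V → V → Prop := fun x y => (∃ a, lt' f t a x y) ∨ ((∀ a, f a x = f a y) ∧ ι x < ι y)
  have irr : ∀ x, ¬ R x x := by
    rintro x (⟨a, h | h⟩ | h)
    · exact absurd h.2 (lt_irrefl _)
    · exact absurd h.2 (lt_irrefl _)
    · exact absurd h.2 (lt_irrefl _)
  have tri : ∀ x y, x ≠ y → R x y ∨ R y x := by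
    intro x y hxy
    by_cases h : ∀ a, f a x = f a y
    · rcases lt_trichotomy (ι x) (ι y) with h1 | h1 | h1
      · exact Or.inl (Or.inr ⟨h, h1⟩)
      · exact absurd (hι h1) hxy
      · exact Or.inr (Or.inr ⟨fun a => (h a).symm, h1⟩)
    · push Not at h
      obtain ⟨a, ha⟩ := h
      rcases lt_or_gt_of_ne ha with h1 | h1
      · cases ht : t a with
        | true => exact Or.inl (Or.inl ⟨a, Or.inl ⟨ht, h1⟩⟩)
        | false => exact Or.inr (Or.inl ⟨a, Or.inr ⟨ht, h1⟩⟩)
      · cases ht : t a with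
        | true => exact Or.inr (Or.inl ⟨a, Or.inl ⟨ht, h1⟩⟩)
        | false => exact Or.inl (Or.inl ⟨a, Or.inr ⟨ht, h1⟩⟩)
  have tr : ∀ x ∈ Y, ∀ y ∈ Y, ∀ z ∈ Y, R x y → R y z → R x z := by
    intro x hx y hy z hz h1 h2
    rcases h1 with ⟨a, ha⟩ | ⟨ha, hi⟩
    · rcases h2 with ⟨b, hb⟩ | ⟨hb, hj⟩
      · left
        refine ⟨a, ?_⟩
        have h3 := key b a y hy z hz hb
        rcases ha with ⟨ht, h4⟩ | ⟨ht, h4⟩
        · left
          refine ⟨ht, ?_⟩
          by_contra h5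
          exact h3 (Or.inl ⟨ht, by omega⟩)
        · right
          refine ⟨ht, ?_⟩
          by_contra h5
          exact h3 (Or.inr ⟨ht, by omega⟩)
      · left
        refine ⟨a, ?_⟩
        rcases ha with ⟨ht, h4⟩ | ⟨ht, h4⟩
        · exact Or.inl ⟨ht, by rw [← hb a]; exact h4⟩
        · exact Or.inr ⟨ht, by rw [← hb a]; exact h4⟩
    · rcases h2 with ⟨b, hb⟩ | ⟨hb, hj⟩
      · left
        refine ⟨b, ?_⟩
        rcases hb with ⟨ht, h4⟩ | ⟨ht, h4⟩
        · exact Or.inl ⟨ht, by rw [ha b]; exact h4⟩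
        · exact Or.inr ⟨ht, by rw [ha b]; exact h4⟩
      · exact Or.inr ⟨fun a => (ha a).trans (hb a), hi.trans hj⟩
  let ρ : V → ℕ := fun x => {z | z ∈ Y ∧ R z x}.ncard
  have mono : ∀ x ∈ Y, ∀ y ∈ Y, R x y → ρ x < ρ y := by
    intro x hx y hy h
    refine Set.ncard_lt_ncard ?_ (Set.toFinite _)
    refine ⟨fun z hz => ⟨hz.1, tr z hz.1 x hx y hy hz.2 h⟩, fun h2 => ?_⟩
    exact irr x (h2 ⟨hx, h⟩).2
  refine ⟨fun _ => (), fun _ => t, ρ, ?_⟩
  intro x hx y hy _ hxy
  constructor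
  · rcases tri x y hxy with h | h
    · exact (mono x hx y hy h).ne
    · exact (mono y hy x hx h).ne'
  · intro hρ a
    have h : R x y := by
      rcases tri x y hxy with h | h
      · exact h
      · exact absurd (mono y hy x hx h) (by omega)
    rcases h with ⟨b, hb⟩ | ⟨hb, _⟩
    · have h3 := key b a x hx y hy hb
      constructor
      · intro ht
        by_contra h5
        exact h3 (Or.inl ⟨ht, by omega⟩)
      · intro ht
        by_contra h5
        exact h3 (Or.inr ⟨ht, by omega⟩)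
    · exact ⟨fun _ => (hb a).le, fun _ => (hb a).ge⟩

theorem case2 {w : ℕ} {V : Type} [Finite V] (Y : Set V) (f : Fin w → V → ℕ)
    (σ : Fin w → Fin w → Bool) (hs : ∀ a b, σ a b = σ b a)
    (h : ∀ a b, a ≠ b → ∀ x ∈ Y, ∀ y ∈ Y, f a x < f a y →
      (σ a b = true → f b x ≤ f b y) ∧ (σ a b = false → f b y ≤ f b x))
    (hev : ∀ a b d, a ≠ b → a ≠ d → b ≠ d → NC f Y a → NC f Y b → NC f Y d →
      ((σ a b = σ b d) ↔ σ a d = true)) : Good Unit Y f := by
  classical
  obtain ⟨t, ht⟩ : ∃ t : Fin w → Bool, ∀ a b, a ≠ b → NC f Y a → NC f Y b →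
      (σ a b = true ↔ t a = t b) := by
    by_cases h0 : ∃ a₀, NC f Y a₀
    · obtain ⟨a₀, h0⟩ := h0
      refine ⟨fun a => if a = a₀ then true else σ a₀ a, ?_⟩
      intro a b hab ha hb
      by_cases e1 : a = a₀
      · have e2 : b ≠ a₀ := fun e2 => hab (e1.trans e2.symm)
        simp only [e1, e2, if_true, if_false]
        exact ⟨fun h => h.symm, fun h => h.symm⟩
      · by_cases e2 : b = a₀
        · simp only [e1, e2, if_true, if_false]
          rw [hs a a₀]
        · simp only [e1, e2, if_false]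
          have h1 := hev a₀ a b (Ne.symm e1) (Ne.symm e2) hab h0 ha hb
          cases h2 : σ a b <;> cases h3 : σ a₀ a <;> cases h4 : σ a₀ b <;>
            simp [h2, h3, h4] at h1 ⊢
    · exact ⟨fun _ => true, fun a b _ ha => absurd ⟨a, ha⟩ h0⟩
  refine order Y f t ?_
  intro a b x hx y hy h1 h2
  by_cases hab : a = b
  · subst hab
    rcases h1 with ⟨h1, h3⟩ | ⟨h1, h3⟩ <;> rcases h2 with ⟨h2, h4⟩ | ⟨h2, h4⟩
    · omega
    · rw [h1] at h2; exact absurd h2 (by simp)
    · rw [h1] at h2; exact absurd h2 (by simp)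
    · omega
  · have na : NC f Y a := by
      rcases h1 with ⟨_, h3⟩ | ⟨_, h3⟩
      · exact ⟨x, hx, y, hy, by omega⟩
      · exact ⟨x, hx, y, hy, by omega⟩
    have nb : NC f Y b := by
      rcases h2 with ⟨_, h3⟩ | ⟨_, h3⟩
      · exact ⟨x, hx, y, hy, by omega⟩
      · exact ⟨x, hx, y, hy, by omega⟩
    have h5 := ht a b hab na nb
    rcases h1 with ⟨h1, h3⟩ | ⟨h1, h3⟩ <;> rcases h2 with ⟨h2, h4⟩ | ⟨h2, h4⟩
    · have h6 := (h a b hab x hx y hy h3).1 (h5.2 (h1.trans h2.symm))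
      omega
    · have h7 : σ a b = false := by
        cases h8 : σ a b with
        | true => rw [h1, h2] at h5; exact absurd (h5.1 h8) (by simp)
        | false => rfl
      have h6 := (h a b hab x hx y hy h3).2 h7
      omega
    · have h7 : σ a b = false := by
        cases h8 : σ a b with
        | true => rw [h1, h2] at h5; exact absurd (h5.1 h8) (by simp)
        | false => rfl
      have h6 := (h a b hab y hy x hx h3).2 h7
      omega
    · have h6 := (h a b hab y hy x hx h3).1 (h5.2 (h1.trans h2.symm))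
      omega

theorem odd3 {w : ℕ} {V : Type} (Y : Set V) (f : Fin w → V → ℕ)
    (σ : Fin w → Fin w → Bool)
    (h : ∀ a b, a ≠ b → ∀ x ∈ Y, ∀ y ∈ Y, f a x < f a y →
      (σ a b = true → f b x ≤ f b y) ∧ (σ a b = false → f b y ≤ f b x))
    (a b d : Fin w) (hab : a ≠ b) (had : a ≠ d) (hbd : b ≠ d)
    (hodd : ¬ ((σ a b = σ b d) ↔ σ a d = true)) (x : V) (hx : x ∈ Y) (y : V) (hy : y ∈ Y)
    (hlt : f a x < f a y) (h2 : f b x ≠ f b y) (h3 : f d x ≠ f d y) : False := by
  have k1 := h a b hab x hx y hy hlt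
  have k2 := h a d had x hx y hy hlt
  rcases lt_or_gt_of_ne h2 with h4 | h4
  · have k3 := h b d hbd x hx y hy h4
    cases e1 : σ a b <;> cases e2 : σ a d <;> cases e3 : σ b d <;>
      simp only [e1, e2, e3, forall_true_left, Bool.true_eq_false, Bool.false_eq_true, reduceCtorEq,
        IsEmpty.forall_iff, iff_true, iff_false, not_true, not_false_iff, true_and, and_true,
        iff_self] at k1 k2 k3 hodd <;> first | omega | skip
  · have k3 := h b d hbd y hy x hx h4
    cases e1 : σ a b <;> cases e2 : σ a d <;> cases e3 : σ b d <;>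
      simp only [e1, e2, e3, forall_true_left, Bool.true_eq_false, Bool.false_eq_true, reduceCtorEq,
        IsEmpty.forall_iff, iff_true, iff_false, not_true, not_false_iff, true_and, and_true,
        iff_self] at k1 k2 k3 hodd <;> first | omega | skip

theorem main (h8 : S_Three) (w : ℕ) : ∀ r : ℕ, ∀ (V : Type) [Finite V] (Y : Set V)
    (f : Fin w → V → ℕ) (σ : Fin w → Fin w → Bool), (∀ a b, σ a b = σ b a) →
    (∀ a b, a ≠ b → ∀ x ∈ Y, ∀ y ∈ Y, f a x < f a y →
      (σ a b = true → f b x ≤ f b y) ∧ (σ a b = false → f b y ≤ f b x)) →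
    {a | NC f Y a}.ncard ≤ r → Good (Fin (2 ^ r)) Y f := by
  intro r
  induction r with
  | zero =>
    intro V _ Y f σ hs h hr
    have h0 : {a | NC f Y a} = ∅ := by
      rw [← Set.ncard_eq_zero (Set.toFinite _)]; omega
    refine good_card (by simp) (case2 Y f σ hs h ?_)
    intro a b d _ _ _ ha
    have : a ∈ ({a | NC f Y a} : Set (Fin w)) := ha
    rw [h0] at this
    exact absurd this (Set.notMem_empty _)
  | succ r ih =>
    intro V _ Y f σ hs h hr
    by_cases hT : ∀ a b d, a ≠ b → a ≠ d → b ≠ d → NC f Y a → NC f Y b → NC f Y d →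
      ((σ a b = σ b d) ↔ σ a d = true)
    · refine good_card ?_ (case2 Y f σ hs h hT)
      simp [Nat.one_le_two_pow]
    · simp only [not_forall] at hT
      obtain ⟨a, b, d, hab, had, hbd, na, nb, nd, hodd⟩ := hT
      have hcl : ∀ x ∈ Y, ∀ y ∈ Y, f a x = f a y ∨ f b x = f b y ∨ f d x = f d y := by
        intro x hx y hy
        by_contra hcon
        push Not at hcon
        obtain ⟨h1, h2, h3⟩ := hcon
        rcases lt_or_gt_of_ne h1 with h4 | h4
        · exact odd3 Y f σ h a b d hab had hbd hodd x hx y hy h4 h2 h3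
        · exact odd3 Y f σ h a b d hab had hbd hodd y hy x hx h4 h2.symm h3.symm
      obtain ⟨P, hP1, hP2⟩ := h8 V Y (f a) (f b) (f d) hcl
      have sub : ∀ Y' : Set V, Y' ⊆ Y →
          ((∀ x ∈ Y', ∀ y ∈ Y', f a x = f a y) ∨ (∀ x ∈ Y', ∀ y ∈ Y', f b x = f b y) ∨
            ∀ x ∈ Y', ∀ y ∈ Y', f d x = f d y) → Good (Fin (2 ^ r)) Y' f := by
        intro Y' hY' hc
        refine ih V Y' f σ hs (fun a b hab x hx y hy => h a b hab x (hY' hx) y (hY' hy)) ?_
        have hss : {a | NC f Y' a} ⊆ {a | NC f Y a} := by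
          rintro e ⟨x, hx, y, hy, hne⟩
          exact ⟨x, hY' hx, y, hY' hy, hne⟩
        have hlt : {a | NC f Y' a}.ncard < {a | NC f Y a}.ncard := by
          refine Set.ncard_lt_ncard ⟨hss, fun hss' => ?_⟩ (Set.toFinite _)
          rcases hc with hc | hc | hc
          · obtain ⟨x, hx, y, hy, hne⟩ := hss' na
            exact hne (hc x hx y hy)
          · obtain ⟨x, hx, y, hy, hne⟩ := hss' nb
            exact hne (hc x hx y hy)
          · obtain ⟨x, hx, y, hy, hne⟩ := hss' nd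
            exact hne (hc x hx y hy)
        omega
      refine good_card ?_ (good_split (P := P) (sub (Y ∩ P) Set.inter_subset_left hP1)
        (sub (Y \ P) Set.diff_subset hP2))
      rw [Fintype.card_prod, Fintype.card_fin, Fintype.card_bool, Fintype.card_fin, pow_succ]
      omega

end balAux

open balAux in
theorem bal (h1 : S_Three) : S_Bal := by
  intro w
  refine ⟨2 ^ w, ?_⟩
  intro V _ Y f σ hs h
  refine main h1 w w V Y f σ hs h ?_
  have := Set.ncard_le_ncard (Set.subset_univ {a | NC f Y a}) (Set.toFinite _)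
  rwa [Set.ncard_univ, Nat.card_eq_fintype_card, Fintype.card_fin] at this

end Pool.Agent.MPd439b2.R3
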