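import Pool.Agent.Lib.MP_d439b2_co.R3.SpecA

/-!
# MP_d439b2_co, R3, Pairs: greedy choice of disjoint stable sets
-/

set_option autoImplicit false

namespace Pool.Agent.MPd439b2.R3

open Pool.Agent.MPd439b2 Pool.Agent.MPd439b2.W Pool.Agent.MPd439b2.X2

private theorem stb_mono {V : Type} {G : SimpleGraph V} {T T' : Finset V} (h : Stb G T)
    (hs : T' ⊆ T) : Stb G T' := fun x hx y hy => h x (hs hx) y (hs hy)

private theorem pairs_enum {V : Type} {G : SimpleGraph V} {k : ℕ} {B K T : Finset V}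
    (hk : 1 ≤ k) (hcl : Clq G K) (hT : ∀ w ∈ T, w ∈ B ∨ w ∈ K) (hc : T.card = k) (hst : Stb G T)
    (hne : ∃ v ∈ T, v ∈ K) :
    ∃ y : ℕ → V, y 0 ∈ K ∧ (∀ a < k, 1 ≤ a → y a ∈ B) ∧ (∀ a < k, y a ∈ T) ∧
      ∀ a < k, ∀ b < k, a ≠ b → y a ≠ y b := by
  classical
  obtain ⟨v, hvT, hvK⟩ := hne
  have hB : ∀ w ∈ T.erase v, w ∈ B := by
    intro w hw
    rw [Finset.mem_erase] at hw
    rcases hT w hw.2 with h | h
    · exact h
    · exact absurd (hcl w h v hvK hw.1) (hst w hw.2 v hvT)
  have hcard : (T.erase v).card = k - 1 := by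
    rw [Finset.card_erase_of_mem hvT, hc]
  let e := Finset.equivFinOfCardEq hcard
  let y : ℕ → V := fun a => if h : 1 ≤ a ∧ a - 1 < k - 1 then (e.symm ⟨a - 1, h.2⟩).1 else v
  have hy0 : y 0 = v := by
    have h : ¬ (1 ≤ 0 ∧ 0 - 1 < k - 1) := by omega
    exact dif_neg h
  have hy1 : ∀ a, ∀ h : 1 ≤ a ∧ a - 1 < k - 1, y a = (e.symm ⟨a - 1, h.2⟩).1 := fun a h => dif_pos h
  have hyT : ∀ a, ∀ _ : 1 ≤ a ∧ a - 1 < k - 1, y a ∈ T.erase v := by
    intro a h
    rw [hy1 a h]
    exact (e.symm ⟨a - 1, h.2⟩).2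
  refine ⟨y, by rw [hy0]; exact hvK, fun a ha h1 => hB _ (hyT a ⟨h1, by omega⟩), ?_, ?_⟩
  · intro a ha
    rcases Nat.eq_zero_or_pos a with rfl | h1
    · rw [hy0]
      exact hvT
    · exact Finset.mem_of_mem_erase (hyT a ⟨h1, by omega⟩)
  · intro a ha b hb hab heq
    rcases Nat.eq_zero_or_pos a with rfl | h1
    · have h2 : 1 ≤ b ∧ b - 1 < k - 1 := ⟨by omega, by omega⟩
      have h3 := hyT b h2
      rw [← heq, hy0] at h3
      exact (Finset.notMem_erase v T) h3
    · rcases Nat.eq_zero_or_pos b with rfl | h2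
      · have h4 : 1 ≤ a ∧ a - 1 < k - 1 := ⟨by omega, by omega⟩
        have h3 := hyT a h4
        rw [heq, hy0] at h3
        exact (Finset.notMem_erase v T) h3
      · have h3 : 1 ≤ a ∧ a - 1 < k - 1 := ⟨by omega, by omega⟩
        have h4 : 1 ≤ b ∧ b - 1 < k - 1 := ⟨by omega, by omega⟩
        rw [hy1 a h3, hy1 b h4] at heq
        have h5 := e.symm.injective (Subtype.ext heq)
        have h6 : a - 1 = b - 1 := by
          have := congrArg Fin.val h5
          exact this
        omega

private theorem pairs_greedy {V : Type} {G : SimpleGraph V} {k s : ℕ} {B K : Finset V}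
    (hB : ∀ T ⊆ B, Stb G T → T.card < k)
    (hmax : ∀ B' : Finset V, (∀ T ⊆ B', Stb G T → T.card < k) → B'.card ≤ B.card)
    (hdis : Disjoint K B) (hs : s * k < K.card) (t : ℕ) (ht : t ≤ s) :
    ∃ F : ℕ → Finset V, (∀ i < t, (∀ v ∈ F i, v ∈ B ∨ v ∈ K) ∧ (F i).card = k ∧ Stb G (F i) ∧
      ∃ v ∈ F i, v ∈ K) ∧ ∀ i < t, ∀ j < t, i ≠ j → Disjoint (F i) (F j) := by
  classical
  induction t with
  | zero => exact ⟨fun _ => ∅, fun i hi => absurd hi (Nat.not_lt_zero i),
      fun i hi => absurd hi (Nat.not_lt_zero i)⟩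
  | succ t ih =>
    obtain ⟨F, hF, hFd⟩ := ih (by omega)
    let U : Finset V := (Finset.range t).biUnion F
    have hU : U.card ≤ t * k := by
      refine (Finset.card_biUnion_le).trans ?_
      rw [← smul_eq_mul, ← Finset.card_range t, ← Finset.sum_const]
      rw [Finset.card_range]
      exact Finset.sum_le_sum (fun i hi => ((hF i (Finset.mem_range.mp hi)).2.1).le)
    have h1 : B.card < ((B ∪ K) \ U).card := by
      have h2 := Finset.card_le_card_sdiff_add_card (s := B ∪ K) (t := U)
      rw [Finset.card_union_of_disjoint hdis.symm] at h2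
      have h3 : t * k ≤ s * k := Nat.mul_le_mul_right k (by omega)
      omega
    have h2 : ¬ ∀ T ⊆ (B ∪ K) \ U, Stb G T → T.card < k := fun h =>
      absurd (hmax _ h) (not_le.mpr h1)
    push Not at h2
    obtain ⟨T, hTs, hTst, hTk⟩ := h2
    obtain ⟨T', hT'T, hT'c⟩ := Finset.exists_subset_card_eq hTk
    have hT'st : Stb G T' := stb_mono hTst hT'T
    have hT'm : ∀ v ∈ T', (v ∈ B ∨ v ∈ K) ∧ v ∉ U := by
      intro v hv
      have h3 := Finset.mem_sdiff.mp (hTs (hT'T hv))
      exact ⟨Finset.mem_union.mp h3.1, h3.2⟩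
    refine ⟨Function.update F t T', ?_, ?_⟩
    · intro i hi
      by_cases hit : i = t
      · subst hit
        rw [Function.update_self]
        refine ⟨fun v hv => (hT'm v hv).1, hT'c, hT'st, ?_⟩
        by_contra hcon
        push Not at hcon
        have h3 : T' ⊆ B := by
          intro v hv
          rcases (hT'm v hv).1 with h4 | h4
          · exact h4
          · exact absurd h4 (hcon v hv)
        have h4 := hB T' h3 hT'st
        omega
      · rw [Function.update_of_ne hit]
        exact hF i (by omega)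
    · have key : ∀ i < t, Disjoint (F i) T' := by
        intro i hi
        rw [Finset.disjoint_left]
        intro v hv hv'
        exact (hT'm v hv').2 (Finset.mem_biUnion.mpr ⟨i, Finset.mem_range.mpr hi, hv⟩)
      intro i hi j hj hij
      by_cases hit : i = t
      · subst hit
        rw [Function.update_self, Function.update_of_ne (Ne.symm hij)]
        exact (key j (by omega)).symm
      · by_cases hjt : j = t
        · subst hjt
          rw [Function.update_self, Function.update_of_ne hit]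
          exact key i (by omega)
        · rw [Function.update_of_ne hit, Function.update_of_ne hjt]
          exact hFd i (by omega) j (by omega) hij

theorem pairs : S_Pairs := by
  intro V _ G k s B K hk hB hmax hdis hcl hs
  obtain ⟨F, hF, hFd⟩ := pairs_greedy hB hmax hdis hs s le_rfl
  have h1 : ∀ i, ∃ y : ℕ → V, i < s → (y 0 ∈ K ∧ (∀ a < k, 1 ≤ a → y a ∈ B) ∧
      (∀ a < k, y a ∈ F i) ∧ ∀ a < k, ∀ b < k, a ≠ b → y a ≠ y b) := by
    intro i
    by_cases hi : i < s
    · obtain ⟨h2, h3, h4, h5⟩ := hF i hi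
      obtain ⟨y, hy⟩ := pairs_enum hk hcl h2 h3 h4 h5
      exact ⟨y, fun _ => hy⟩
    · have hne : K.Nonempty := Finset.card_pos.mp (by omega)
      obtain ⟨v, hv⟩ := hne
      exact ⟨fun _ => v, fun h => absurd h hi⟩
  choose y hy using h1
  refine ⟨fun a i => y i a, fun i hi => (hy i hi).1, fun a ha h1a i hi => (hy i hi).2.1 a ha h1a,
    ?_, ?_⟩
  · intro a ha b hb i hi j hj hab heq
    by_cases hij : i = j
    · subst hij
      rcases hab with hab | hab
      · exact (hy i hi).2.2.2 a ha b hb hab heq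
      · exact hab rfl
    · have h2 := (hy i hi).2.2.1 a ha
      have h3 := (hy j hj).2.2.1 b hb
      have h4 : y i a = y j b := heq
      rw [← h4] at h3
      exact Finset.disjoint_left.mp (hFd i hi j hj hij) h2 h3
  · intro a ha b hb i hi
    exact (hF i hi).2.2.1 _ ((hy i hi).2.2.1 a ha) _ ((hy i hi).2.2.1 b hb)

end Pool.Agent.MPd439b2.R3
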