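import Pool.Agent.Lib.MP_d439b2_co.R3.SpecA

/-!
# MP_d439b2_co, R3, A11: the staircase partition
-/

set_option autoImplicit false

namespace Pool.Agent.MPd439b2.R3

open Pool.Agent.MPd439b2 Pool.Agent.MPd439b2.W Pool.Agent.MPd439b2.X2

namespace partAux

theorem nn_le {V : Type} [Finite V] {G : SimpleGraph V} {C : Set V} {ρ : V → ℕ} (hR : Rk G C ρ)
    {v w : V} (hv : v ∉ C) (hw : w ∉ C) (h : nn G C v ≤ nn G C w) {y : V} (hy : y ∈ C)
    (ha : G.Adj w y) : G.Adj v y := by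
  by_contra hn
  have hsub : {x | x ∈ C ∧ ¬ G.Adj w x} ⊆ {x | x ∈ C ∧ ¬ G.Adj v x} := by
    rintro x ⟨hx, hwx⟩
    refine ⟨hx, fun hvx => ?_⟩
    rcases le_total (ρ x) (ρ y) with h1 | h1
    · exact hn (hR.mono x hx y hy h1 v hvx (fun e => hv (e ▸ hy)))
    · exact hwx (hR.mono y hy x hx h1 w ha (fun e => hw (e ▸ hx)))
  have hlt : nn G C w < nn G C v := by
    refine Set.ncard_lt_ncard ⟨hsub, fun h2 => ?_⟩ (Set.toFinite _)
    exact (h2 (show y ∈ {x | x ∈ C ∧ ¬ G.Adj v x} from ⟨hy, hn⟩)).2 ha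
  omega

/-- the classes -/
noncomputable def cl {V : Type} {w p q : ℕ} (B : Finset V) (cB : V → Fin w) (cA : V → Fin p)
    (cz : Fin p → V → Fin q) (x : V) : Fin w ⊕ (Fin p × Fin q) :=
  open Classical in if x ∈ B then Sum.inl (cB x) else Sum.inr (cA x, cz (cA x) x)

theorem cl_B {V : Type} {w p q : ℕ} {B : Finset V} {cB : V → Fin w} {cA : V → Fin p}
    {cz : Fin p → V → Fin q} {x : V} (h : x ∈ B) : cl B cB cA cz x = Sum.inl (cB x) := by
  simp [cl, h]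

theorem cl_A {V : Type} {w p q : ℕ} {B : Finset V} {cB : V → Fin w} {cA : V → Fin p}
    {cz : Fin p → V → Fin q} {x : V} (h : x ∉ B) :
    cl B cB cA cz x = Sum.inr (cA x, cz (cA x) x) := by
  simp [cl, h]

theorem cl_eq {V : Type} {w p q : ℕ} {B : Finset V} {cB : V → Fin w} {cA : V → Fin p}
    {cz : Fin p → V → Fin q} {x y : V} (h : cl B cB cA cz x = cl B cB cA cz y) :
    (x ∈ B ∧ y ∈ B ∧ cB x = cB y) ∨
      (x ∉ B ∧ y ∉ B ∧ cA x = cA y ∧ cz (cA x) x = cz (cA x) y) := by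
  by_cases hx : x ∈ B <;> by_cases hy : y ∈ B
  · rw [cl_B hx, cl_B hy] at h
    exact Or.inl ⟨hx, hy, Sum.inl.inj h⟩
  · rw [cl_B hx, cl_A hy] at h
    exact absurd h (by simp)
  · rw [cl_A hx, cl_B hy] at h
    exact absurd h (by simp)
  · rw [cl_A hx, cl_A hy] at h
    have h1 := Sum.inr.inj h
    have h2 : cA x = cA y := congrArg Prod.fst h1
    have h3 : cz (cA x) x = cz (cA y) y := congrArg Prod.snd h1
    rw [← h2] at h3
    exact Or.inr ⟨hx, hy, h2, h3⟩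

/-- the signs -/
def sg {w p q : ℕ} (tz : Fin p → Fin q → Fin w → Bool) :
    Fin w ⊕ (Fin p × Fin q) → Fin w ⊕ (Fin p × Fin q) → Bool
  | Sum.inr z, Sum.inl a => tz z.1 z.2 a
  | _, _ => true

theorem key {V : Type} [Finite V] (G : SimpleGraph V) (w p q : ℕ) (B : Finset V)
    (cA : V → Fin p)
    (hA : ∀ x ∉ B, ∀ y ∉ B, cA x = cA y → ∀ z ∉ B, (G.Adj x z ↔ G.Adj y z))
    (cB : V → Fin w) (ρB : V → ℕ) (hB : ∀ i, Rk G {x | x ∈ B ∧ cB x = i} ρB)
    (cz : Fin p → V → Fin q) (tz : Fin p → Fin q → Fin w → Bool) (ρz : Fin p → V → ℕ)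
    (hz : ∀ z, ∀ x ∈ {x | x ∉ B ∧ cA x = z}, ∀ y ∈ {x | x ∉ B ∧ cA x = z},
      cz z x = cz z y → x ≠ y → ρz z x ≠ ρz z y ∧ (ρz z x < ρz z y → ∀ a : Fin w,
        (tz z (cz z x) a = true →
          nn G {x | x ∈ B ∧ cB x = a} x ≤ nn G {x | x ∈ B ∧ cB x = a} y) ∧
        (tz z (cz z x) a = false →
          nn G {x | x ∈ B ∧ cB x = a} y ≤ nn G {x | x ∈ B ∧ cB x = a} x)))
    (n : ℕ) (e : Fin w ⊕ (Fin p × Fin q) ≃ Fin n) :
    ∃ S : St V n, S.G = G ∧ ∀ i, S.t i = true → ∀ j, S.s i j = true := by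
  classical
  obtain ⟨N0, hN0⟩ : ∃ N, ∀ x, ρB x ≤ N := by
    obtain ⟨N, hN⟩ := (Set.finite_range ρB).bddAbove
    exact ⟨N, fun x => hN ⟨x, rfl⟩⟩
  let ρ : V → ℕ := fun x => if x ∈ B then N0 - ρB x else ρz (cA x) x
  have rB : ∀ x, x ∈ B → ρ x = N0 - ρB x := fun x hx => by simp [ρ, hx]
  have rA : ∀ x, x ∉ B → ρ x = ρz (cA x) x := fun x hx => by simp [ρ, hx]
  refine ⟨{ G := G, c := fun x => e (cl B cB cA cz x), ρ := ρ,
            s := fun i j => sg tz (e.symm i) (e.symm j), t := fun i => (e.symm i).isLeft,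
            inj := ?_, typ := ?_, dn := ?_, up := ?_ }, rfl, ?_⟩
  · intro x y hc hρ
    rcases cl_eq (e.injective hc) with ⟨hx, hy, h1⟩ | ⟨hx, hy, h1, h2⟩
    · rw [rB x hx, rB y hy] at hρ
      refine (hB (cB x)).inj x ⟨hx, rfl⟩ y ⟨hy, h1.symm⟩ ?_
      have := hN0 x
      have := hN0 y
      omega
    · rw [rA x hx, rA y hy, ← h1] at hρ
      by_contra hxy
      exact (hz (cA x) x ⟨hx, rfl⟩ y ⟨hy, h1.symm⟩ h2 hxy).1 hρ
  · intro x y hxy hc
    rcases cl_eq (e.injective hc) with ⟨hx, hy, h1⟩ | ⟨hx, hy, h1, h2⟩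
    · have h3 : G.Adj x y := (hB (cB x)).cl x ⟨hx, rfl⟩ y ⟨hy, h1.symm⟩ hxy
      simp only [Equiv.symm_apply_apply, cl_B hx, Sum.isLeft_inl]
      exact ⟨fun _ => trivial, fun _ => h3⟩
    · simp only [Equiv.symm_apply_apply, cl_A hx, Sum.isLeft_inr]
      refine ⟨fun h => ?_, fun h => absurd h (by simp)⟩
      exact absurd ((hA x hx y hy h1 y hy).1 h) (G.loopless.irrefl y)
  · intro x x' y hc hρ hcy hs ha
    simp only [Equiv.symm_apply_apply] at hs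
    rcases cl_eq (e.injective hc) with ⟨hx, hx', h1⟩ | ⟨hx, hx', h1, h2⟩
    · rw [rB x hx, rB x' hx'] at hρ
      have hyx : y ≠ x := fun h => hcy (by rw [h])
      refine ((hB (cB x)).mono x' ⟨hx', h1.symm⟩ x ⟨hx, rfl⟩ ?_ y ha.symm hyx).symm
      omega
    · by_cases hy : y ∈ B
      · rw [rA x hx, rA x' hx', ← h1] at hρ
        rw [cl_A hx, cl_B hy] at hs
        have hxx : x ≠ x' := by
          intro h; rw [h] at hρ; exact absurd hρ (lt_irrefl _)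
        have h3 := ((hz (cA x) x ⟨hx, rfl⟩ x' ⟨hx', h1.symm⟩ h2 hxx).2 hρ (cB y)).1 hs
        exact nn_le (hB (cB y)) (fun h => hx h.1) (fun h => hx' h.1) h3 ⟨hy, rfl⟩ ha
      · exact (hA x hx x' hx' h1 y hy).2 ha
  · intro x x' y hc hρ hcy hs ha
    simp only [Equiv.symm_apply_apply] at hs
    rcases cl_eq (e.injective hc) with ⟨hx, hx', h1⟩ | ⟨hx, hx', h1, h2⟩
    · rw [cl_B hx] at hs
      exact absurd hs (by simp [sg])
    · by_cases hy : y ∈ B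
      · rw [rA x hx, rA x' hx', ← h1] at hρ
        rw [cl_A hx, cl_B hy] at hs
        have hxx : x ≠ x' := by
          intro h; rw [h] at hρ; exact absurd hρ (lt_irrefl _)
        have h3 := ((hz (cA x) x ⟨hx, rfl⟩ x' ⟨hx', h1.symm⟩ h2 hxx).2 hρ (cB y)).2 hs
        exact nn_le (hB (cB y)) (fun h => hx' h.1) (fun h => hx h.1) h3 ⟨hy, rfl⟩ ha
      · exact (hA x hx x' hx' h1 y hy).1 ha
  · intro i hi j
    show sg tz (e.symm i) (e.symm j) = true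
    have hi' : (e.symm i).isLeft = true := hi
    cases h : e.symm i with
    | inl a => rfl
    | inr b => rw [h] at hi'; exact absurd hi' (by simp)

end partAux

open partAux in
theorem part (h1 : S_Split) (h2 : S_AClass) (h3 : S_BClass) (h4 : S_ZClass) : S_Part := by
  intro m
  obtain ⟨k, R, h1⟩ := h1 m
  obtain ⟨p, h2⟩ := h2 m R
  obtain ⟨w, h3⟩ := h3 m k
  obtain ⟨q, h4⟩ := h4 m w
  let e : Fin w ⊕ (Fin p × Fin q) ≃ Fin (w + p * q) :=
    (Equiv.sumCongr (Equiv.refl _) finProdFinEquiv).trans finSumFinEquiv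
  refine ⟨w + p * q, ?_⟩
  intro V _ G hM hC f1 f2 f3 f4
  obtain ⟨B, hB1, hB2⟩ := h1 V G hM hC
  obtain ⟨cA, hA⟩ := h2 V G ((B : Set V)ᶜ) hM hC f1 (by
    intro K hK hcl
    refine hB2 K ?_ hcl
    rw [Finset.disjoint_left]
    intro a ha hb
    exact hK ha hb)
  obtain ⟨cB, ρB, hB⟩ := h3 V G B hM hC f2 hB1
  have hZ : ∀ z : Fin p, _ := fun z => h4 V G {x | x ∉ B ∧ cA x = z}
    (fun a => {x | x ∈ B ∧ cB x = a}) ρB f3 f4
    (by
      rintro x ⟨hx, hx2⟩ y ⟨hy, hy2⟩ ha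
      exact G.loopless.irrefl y ((hA x hx y hy (hx2.trans hy2.symm) y hy).1 ha))
    (by
      intro a
      rw [Set.disjoint_left]
      rintro x ⟨hx, _⟩ ⟨hx2, _⟩
      exact hx hx2)
    (by
      intro a b hab
      rw [Set.disjoint_left]
      rintro x ⟨_, hx⟩ ⟨_, hx2⟩
      exact hab (hx.symm.trans hx2))
    hB
  choose cz tz ρz hz using hZ
  exact key G w p q B cA (fun x hx y hy h z hz => hA x hx y hy h z hz) cB ρB hB cz tz ρz hz _ e

end Pool.Agent.MPd439b2.R3
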