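import Pool.Agent.Lib.MP_d439b2_co.R3.SpecA

/-!
# MP_d439b2_co, R3, A4: many different rows
-/

set_option autoImplicit false

namespace Pool.Agent.MPd439b2.R3

open Pool.Agent.MPd439b2 Pool.Agent.MPd439b2.W Pool.Agent.MPd439b2.X2

namespace rowsAux

theorem half (m N : ℕ) (hN : 2 * m + 2 ≤ N) (P : ℕ → ℕ → ℕ → Prop) (c1 c2 c3 : Prop)
    (hs : ∀ i j, i < j → j < N → P i j i) (hm : ∀ i j, i < j → j < N → ¬ P i j j)
    (h1 : ∀ i j k, i < j → j < k → k < N → (P j k i ↔ c1))
    (h2 : ∀ i j k, i < j → j < k → k < N → (P i k j ↔ c2))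
    (h3 : ∀ i j k, i < j → j < k → k < N → (P i j k ↔ c3)) :
    ∃ φ a b : ℕ → ℕ, (∀ k l, k < l → l < m → φ k < φ l) ∧ (∀ k < m, φ k < N) ∧
      (∀ k < m, a k < b k ∧ b k < N) ∧
      ((∀ k < m, ∀ l < m, (P (a k) (b k) (φ l) ↔ k = l)) ∨
       (∀ k < m, ∀ l < m, (P (a k) (b k) (φ l) ↔ k ≠ l)) ∨
       (∀ k < m, ∀ l < m, (P (a k) (b k) (φ l) ↔ l ≤ k))) := by
  by_cases q3 : c3
  · by_cases q2 : c2
    · refine ⟨fun k => k + 1, fun _ => 0, fun k => k + 1, fun k l hkl hl => by show k + 1 < l + 1; omega,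
        fun k hk => by show k + 1 < N; omega, fun k hk => ⟨by show 0 < k + 1; omega, by show k + 1 < N; omega⟩,
        Or.inr (Or.inl ?_)⟩
      intro k hk l hl
      show P 0 (k + 1) (l + 1) ↔ k ≠ l
      rcases lt_trichotomy k l with h | h | h
      · rw [h3 0 (k + 1) (l + 1) (by omega) (by omega) (by omega)]
        exact ⟨fun _ => by omega, fun _ => q3⟩
      · subst h
        exact ⟨fun h => absurd h (hm 0 (k + 1) (by omega) (by omega)), fun h => absurd rfl h⟩
      · rw [h2 0 (l + 1) (k + 1) (by omega) (by omega) (by omega)]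
        exact ⟨fun _ => by omega, fun _ => q2⟩
    · by_cases q1 : c1
      · refine ⟨fun k => 2 * k + 1, fun k => 2 * k, fun k => 2 * k + 1,
          fun k l hkl hl => by show 2 * k + 1 < 2 * l + 1; omega,
          fun k hk => by show 2 * k + 1 < N; omega,
          fun k hk => ⟨by show 2 * k < 2 * k + 1; omega, by show 2 * k + 1 < N; omega⟩,
          Or.inr (Or.inl ?_)⟩
        intro k hk l hl
        show P (2 * k) (2 * k + 1) (2 * l + 1) ↔ k ≠ l
        rcases lt_trichotomy k l with h | h | h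
        · rw [h3 (2 * k) (2 * k + 1) (2 * l + 1) (by omega) (by omega) (by omega)]
          exact ⟨fun _ => by omega, fun _ => q3⟩
        · subst h
          exact ⟨fun h => absurd h (hm (2 * k) (2 * k + 1) (by omega) (by omega)),
            fun h => absurd rfl h⟩
        · rw [h1 (2 * l + 1) (2 * k) (2 * k + 1) (by omega) (by omega) (by omega)]
          exact ⟨fun _ => by omega, fun _ => q1⟩
      · refine ⟨fun k => k, fun k => k, fun _ => N - 1, fun k l hkl hl => hkl,
          fun k hk => by show k < N; omega, fun k hk => ⟨by show k < N - 1; omega, by show N - 1 < N; omega⟩,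
          Or.inl ?_⟩
        intro k hk l hl
        show P k (N - 1) l ↔ k = l
        rcases lt_trichotomy k l with h | h | h
        · rw [h2 k l (N - 1) (by omega) (by omega) (by omega)]
          exact ⟨fun h => absurd h q2, fun h => by omega⟩
        · subst h
          exact ⟨fun _ => rfl, fun _ => hs k (N - 1) (by omega) (by omega)⟩
        · rw [h1 l k (N - 1) (by omega) (by omega) (by omega)]
          exact ⟨fun h => absurd h q1, fun h => by omega⟩
  · refine ⟨fun k => 2 * k, fun k => 2 * k, fun k => 2 * k + 1,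
      fun k l hkl hl => by show 2 * k < 2 * l; omega,
      fun k hk => by show 2 * k < N; omega,
      fun k hk => ⟨by show 2 * k < 2 * k + 1; omega, by show 2 * k + 1 < N; omega⟩, ?_⟩
    by_cases q1 : c1
    · right
      right
      intro k hk l hl
      show P (2 * k) (2 * k + 1) (2 * l) ↔ l ≤ k
      rcases lt_trichotomy k l with h | h | h
      · rw [h3 (2 * k) (2 * k + 1) (2 * l) (by omega) (by omega) (by omega)]
        exact ⟨fun h => absurd h q3, fun h => by omega⟩
      · subst h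
        exact ⟨fun _ => le_rfl, fun _ => hs (2 * k) (2 * k + 1) (by omega) (by omega)⟩
      · rw [h1 (2 * l) (2 * k) (2 * k + 1) (by omega) (by omega) (by omega)]
        exact ⟨fun _ => by omega, fun _ => q1⟩
    · left
      intro k hk l hl
      show P (2 * k) (2 * k + 1) (2 * l) ↔ k = l
      rcases lt_trichotomy k l with h | h | h
      · rw [h3 (2 * k) (2 * k + 1) (2 * l) (by omega) (by omega) (by omega)]
        exact ⟨fun h => absurd h q3, fun h => by omega⟩
      · subst h
        exact ⟨fun _ => rfl, fun _ => hs (2 * k) (2 * k + 1) (by omega) (by omega)⟩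
      · rw [h1 (2 * l) (2 * k) (2 * k + 1) (by omega) (by omega) (by omega)]
        exact ⟨fun h => absurd h q1, fun h => by omega⟩

theorem full (m N : ℕ) (hN : 2 * m + 2 ≤ N) (P : ℕ → ℕ → ℕ → Prop) (c0 c1 c2 c3 : Prop)
    (h0 : ∀ i j, i < j → j < N → (P i j i ↔ c0)) (hx : ∀ i j, i < j → j < N → (P i j i ↔ ¬ P i j j))
    (h1 : ∀ i j k, i < j → j < k → k < N → (P j k i ↔ c1))
    (h2 : ∀ i j k, i < j → j < k → k < N → (P i k j ↔ c2))
    (h3 : ∀ i j k, i < j → j < k → k < N → (P i j k ↔ c3)) :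
    ∃ φ a b : ℕ → ℕ, (∀ k l, k < l → l < m → φ k < φ l) ∧ (∀ k < m, φ k < N) ∧
      (∀ k < m, a k < b k ∧ b k < N) ∧
      ((∀ k < m, ∀ l < m, (P (a k) (b k) (φ l) ↔ k = l)) ∨
       (∀ k < m, ∀ l < m, (P (a k) (b k) (φ l) ↔ k ≠ l)) ∨
       (∀ k < m, ∀ l < m, (P (a k) (b k) (φ l) ↔ l ≤ k)) ∨
       (∀ k < m, ∀ l < m, (P (a k) (b k) (φ l) ↔ k ≤ l))) := by
  by_cases q0 : c0
  · obtain ⟨φ, a, b, e1, e2, e3, e4⟩ := half m N hN P c1 c2 c3
      (fun i j hij hj => (h0 i j hij hj).2 q0)
      (fun i j hij hj => (hx i j hij hj).1 ((h0 i j hij hj).2 q0)) h1 h2 h3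
    refine ⟨φ, a, b, e1, e2, e3, ?_⟩
    rcases e4 with e4 | e4 | e4
    · exact Or.inl e4
    · exact Or.inr (Or.inl e4)
    · exact Or.inr (Or.inr (Or.inl e4))
  · obtain ⟨φ, a, b, e1, e2, e3, e4⟩ := half m N hN
      (fun i j k => P (N - 1 - j) (N - 1 - i) (N - 1 - k)) c3 c2 c1
      (fun i j hij hj => by
        by_contra h
        have h5 := (hx (N - 1 - j) (N - 1 - i) (by omega) (by omega)).2 h
        exact q0 ((h0 (N - 1 - j) (N - 1 - i) (by omega) (by omega)).1 h5))
      (fun i j hij hj h => q0 ((h0 (N - 1 - j) (N - 1 - i) (by omega) (by omega)).1 h))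
      (fun i j k hij hjk hk => h3 (N - 1 - k) (N - 1 - j) (N - 1 - i) (by omega) (by omega)
        (by omega))
      (fun i j k hij hjk hk => h2 (N - 1 - k) (N - 1 - j) (N - 1 - i) (by omega) (by omega)
        (by omega))
      (fun i j k hij hjk hk => h1 (N - 1 - k) (N - 1 - j) (N - 1 - i) (by omega) (by omega)
        (by omega))
    refine ⟨fun k => N - 1 - φ (m - 1 - k), fun k => N - 1 - b (m - 1 - k),
      fun k => N - 1 - a (m - 1 - k), ?_, ?_, ?_, ?_⟩
    · intro k l hkl hl
      have f1 := e1 (m - 1 - l) (m - 1 - k) (by omega) (by omega)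
      have f2 := e2 (m - 1 - k) (by omega)
      show N - 1 - φ (m - 1 - k) < N - 1 - φ (m - 1 - l)
      omega
    · intro k hk
      show N - 1 - φ (m - 1 - k) < N
      omega
    · intro k hk
      have f1 := e3 (m - 1 - k) (by omega)
      show N - 1 - b (m - 1 - k) < N - 1 - a (m - 1 - k) ∧ N - 1 - a (m - 1 - k) < N
      omega
    · rcases e4 with e4 | e4 | e4
      · left
        intro k hk l hl
        refine (e4 (m - 1 - k) (by omega) (m - 1 - l) (by omega)).trans ?_
        omega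
      · right; left
        intro k hk l hl
        refine (e4 (m - 1 - k) (by omega) (m - 1 - l) (by omega)).trans ?_
        omega
      · right; right; right
        intro k hk l hl
        refine (e4 (m - 1 - k) (by omega) (m - 1 - l) (by omega)).trans ?_
        omega

end rowsAux

open rowsAux in
theorem rows (h1 : X2.S_Ram3) : S_Rows := by
  intro m
  obtain ⟨M, hM⟩ := h1 (Fin 4 → Prop) (2 * m + 4)
  refine ⟨M, fun V G x y hxy => ?_⟩
  obtain ⟨s, c, hs1, hs2, hc⟩ := hM (fun i j k =>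
    ![G.Adj (y i j) (x i), G.Adj (y j k) (x i), G.Adj (y i k) (x j), G.Adj (y i j) (x k)])
  have hcol : ∀ i j k, i < j → j < k → k < 2 * m + 4 →
      ((G.Adj (y (s i) (s j)) (x (s i)) ↔ c 0) ∧ (G.Adj (y (s j) (s k)) (x (s i)) ↔ c 1) ∧
      (G.Adj (y (s i) (s k)) (x (s j)) ↔ c 2) ∧ (G.Adj (y (s i) (s j)) (x (s k)) ↔ c 3)) := by
    intro i j k hij hjk hk
    have h := hc i j k hij hjk hk
    rw [← h]
    exact ⟨Iff.rfl, Iff.rfl, Iff.rfl, Iff.rfl⟩
  obtain ⟨φ, a, b, e1, e2, e3, e4⟩ := full m (2 * m + 3) (by omega)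
    (fun i j k => G.Adj (y (s i) (s j)) (x (s k))) (c 0) (c 1) (c 2) (c 3)
    (fun i j hij hj => (hcol i j (j + 1) hij (by omega) (by omega)).1)
    (fun i j hij hj => hxy (s i) (s j) (hs1 i j hij (by omega)) (hs2 j (by omega)))
    (fun i j k hij hjk hk => (hcol i j k hij hjk (by omega)).2.1)
    (fun i j k hij hjk hk => (hcol i j k hij hjk (by omega)).2.2.1)
    (fun i j k hij hjk hk => (hcol i j k hij hjk (by omega)).2.2.2)
  refine ⟨fun k => s (φ k), fun k => y (s (a k)) (s (b k)), ?_, ?_, ?_, e4⟩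
  · intro k l hkl hl
    have := e2 l hl
    exact hs1 _ _ (e1 k l hkl hl) (by omega)
  · intro k hk
    have := e2 k hk
    exact hs2 _ (by omega)
  · intro k hk
    have h5 := e3 k hk
    exact ⟨s (a k), s (b k), hs1 _ _ h5.1 (by omega), hs2 _ (by omega), rfl⟩

end Pool.Agent.MPd439b2.R3
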