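import Pool.Agent.Lib.MP_d439b2_co.R3.SpecA

/-!
# MP_d439b2_co, R3, Sgn: the signs of two nested cliques at a stable set
-/

set_option autoImplicit false

namespace Pool.Agent.MPd439b2.R3

open Pool.Agent.MPd439b2 Pool.Agent.MPd439b2.W Pool.Agent.MPd439b2.X2

namespace SgnAux

variable {V : Type}

/-- the non-neighbours of `v` in `C` -/
def Nn (G : SimpleGraph V) (C : Set V) (v : V) : Set V := {x | x ∈ C ∧ ¬ G.Adj v x}

theorem down {G : SimpleGraph V} {C : Set V} {ρ : V → ℕ} (h : Rk G C ρ) {v : V} (hv : v ∉ C)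
    {x y : V} (hx : x ∈ C) (hy : y ∈ Nn G C v) (hxy : ρ x ≤ ρ y) : x ∈ Nn G C v := by
  refine ⟨hx, fun hadj => hy.2 (h.mono x hx y hy.1 hxy v hadj ?_)⟩
  rintro rfl
  exact hv hy.1

theorem nested [Finite V] {G : SimpleGraph V} {C : Set V} {ρ : V → ℕ} (h : Rk G C ρ) {v w : V}
    (hv : v ∉ C) (hw : w ∉ C) (hle : nn G C v ≤ nn G C w) : Nn G C v ⊆ Nn G C w := by
  intro x hx
  by_contra hxw
  have h1 : Nn G C w ⊆ Nn G C v := by
    intro y hy
    by_cases h2 : ρ x ≤ ρ y
    · exact absurd (down h hw hx.1 hy h2) hxw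
    · exact down h hv hy.1 hx (by omega)
  have h2 : Nn G C w ⊂ Nn G C v := ⟨h1, fun h3 => hxw (h3 hx)⟩
  have h3 : (Nn G C w).ncard < (Nn G C v).ncard := Set.ncard_lt_ncard h2 (Set.toFinite _)
  exact absurd hle (not_le.mpr h3)

theorem exists_l [Finite V] (G : SimpleGraph V) (C : Set V) (ρ : V → ℕ) :
    ∃ l : V → V, ∀ v, 0 < nn G C v → l v ∈ Nn G C v ∧ ∀ x ∈ Nn G C v, ρ x ≤ ρ (l v) := by
  have h : ∀ v, ∃ x, 0 < nn G C v → x ∈ Nn G C v ∧ ∀ y ∈ Nn G C v, ρ y ≤ ρ x := by
    intro v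
    by_cases hv : 0 < nn G C v
    · have hne : (Nn G C v).Nonempty := (Set.ncard_pos (Set.toFinite _)).mp hv
      obtain ⟨x, hx, hxm⟩ := Set.exists_max_image (Nn G C v) ρ (Set.toFinite _) hne
      exact ⟨x, fun _ => ⟨hx, hxm⟩⟩
    · exact ⟨v, fun h => absurd h hv⟩
  choose l hl using h
  exact ⟨l, hl⟩

theorem adj_l [Finite V] {G : SimpleGraph V} {C : Set V} {ρ : V → ℕ} (h : Rk G C ρ) {l : V → V}
    (hl : ∀ v, 0 < nn G C v → l v ∈ Nn G C v ∧ ∀ x ∈ Nn G C v, ρ x ≤ ρ (l v)) {v w : V}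
    (hv : v ∉ C) (hw : w ∉ C) (hpos : 0 < nn G C v) : G.Adj w (l v) ↔ nn G C w < nn G C v := by
  obtain ⟨h1, h2⟩ := hl v hpos
  constructor
  · intro hadj
    by_contra hle
    rw [not_lt] at hle
    exact (nested h hv hw hle h1).2 hadj
  · intro hlt
    by_contra hadj
    have h3 : l v ∈ Nn G C w := ⟨h1.1, hadj⟩
    have h4 : Nn G C v ⊆ Nn G C w := fun x hx => down h hw hx.1 h3 (h2 x hx)
    have h5 : (Nn G C v).ncard ≤ (Nn G C w).ncard := Set.ncard_le_ncard h4 (Set.toFinite _)
    exact absurd hlt (not_lt.mpr h5)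

/-- vertices of the type `s` -/
def Pp (G : SimpleGraph V) (Z A B : Set V) (la lb : V → V) (s : Bool) (v : V) : Prop :=
  v ∈ Z ∧ 0 < nn G A v ∧ 0 < nn G B v ∧ (G.Adj (la v) (lb v) ↔ s = true)

/-- the relation on the vertices of type `s` -/
def Rr (G : SimpleGraph V) (Z A B : Set V) (la lb : V → V) (s : Bool) (v w : V) : Prop :=
  Pp G Z A B la lb s v ∧ Pp G Z A B la lb s w ∧ nn G A v < nn G A w ∧
    (s = true → nn G B w < nn G B v) ∧ (s = false → nn G B v < nn G B w)

/-- `v` is the last vertex of a chain of `t + 1` vertices -/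
def Ch (G : SimpleGraph V) (Z A B : Set V) (la lb : V → V) (s : Bool) : ℕ → V → Prop
  | 0, v => Pp G Z A B la lb s v
  | t + 1, v => ∃ w, Rr G Z A B la lb s w v ∧ Ch G Z A B la lb s t w

theorem Rr.trans {G : SimpleGraph V} {Z A B : Set V} {la lb : V → V} {s : Bool} {u v w : V}
    (h1 : Rr G Z A B la lb s u v) (h2 : Rr G Z A B la lb s v w) : Rr G Z A B la lb s u w := by
  refine ⟨h1.1, h2.2.1, h1.2.2.1.trans h2.2.2.1, fun hs => ?_, fun hs => ?_⟩
  · exact (h2.2.2.2.1 hs).trans (h1.2.2.2.1 hs)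
  · exact (h1.2.2.2.2 hs).trans (h2.2.2.2.2 hs)

theorem Ch.seq {G : SimpleGraph V} {Z A B : Set V} {la lb : V → V} {s : Bool} :
    ∀ (t : ℕ) (v : V), Ch G Z A B la lb s t v →
      ∃ u : ℕ → V, (∀ i ≤ t, Pp G Z A B la lb s (u i)) ∧
        (∀ i j, i < j → j ≤ t → Rr G Z A B la lb s (u i) (u j)) ∧ u t = v := by
  intro t
  induction t with
  | zero =>
    intro v hv
    exact ⟨fun _ => v, fun i _ => hv, fun i j hij hj => absurd hij (by omega), rfl⟩
  | succ t ih =>
    intro v hv
    obtain ⟨w, hw, hc⟩ := hv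
    obtain ⟨u, h1, h2, h3⟩ := ih w hc
    refine ⟨fun i => if i ≤ t then u i else v, ?_, ?_, ?_⟩
    · intro i hi
      by_cases hit : i ≤ t
      · simp only [hit, if_true]
        exact h1 i hit
      · simp only [hit, if_false]
        exact hw.2.1
    · intro i j hij hj
      by_cases hjt : j ≤ t
      · have hit : i ≤ t := by omega
        simp only [hit, hjt, if_true]
        exact h2 i j hij hjt
      · have hit : i ≤ t := by omega
        simp only [hit, hjt, if_true, if_false]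
        rcases Nat.eq_or_lt_of_le hit with h4 | h4
        · rw [h4, h3]
          exact hw
        · have h5 := h2 i t h4 le_rfl
          rw [h3] at h5
          exact h5.trans hw
    · have : ¬ t + 1 ≤ t := by omega
      simp only [this, if_false]

/-- there are no long chains -/
theorem no_chain [Finite V] {m : ℕ} {G : SimpleGraph V} {Z A B : Set V} {ρ : V → ℕ} {la lb : V → V}
    (hF3 : F3 G m) (hF4 : F4 G m) (hZ : ∀ x ∈ Z, ∀ y ∈ Z, ¬ G.Adj x y) (hZA : Disjoint Z A)
    (hZB : Disjoint Z B) (hAB : Disjoint A B) (hA : Rk G A ρ) (hB : Rk G B ρ)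
    (hla : ∀ v, 0 < nn G A v → la v ∈ Nn G A v ∧ ∀ x ∈ Nn G A v, ρ x ≤ ρ (la v))
    (hlb : ∀ v, 0 < nn G B v → lb v ∈ Nn G B v ∧ ∀ x ∈ Nn G B v, ρ x ≤ ρ (lb v))
    (s : Bool) (u : ℕ → V) (hP : ∀ i < m, Pp G Z A B la lb s (u i))
    (hR : ∀ i j, i < j → j < m → Rr G Z A B la lb s (u i) (u j)) : False := by
  have hnA : ∀ v ∈ Z, v ∉ A := fun v hv => Set.disjoint_left.mp hZA hv
  have hnB : ∀ v ∈ Z, v ∉ B := fun v hv => Set.disjoint_left.mp hZB hv
  have hltA : ∀ i < m, ∀ j < m, (nn G A (u i) < nn G A (u j) ↔ i < j) := by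
    intro i hi j hj
    constructor
    · intro h
      by_contra hij
      rcases Nat.eq_or_lt_of_le (not_lt.mp hij) with h1 | h1
      · rw [h1] at h
        exact lt_irrefl _ h
      · have := (hR j i h1 hi).2.2.1
        omega
    · intro h
      exact (hR i j h hj).2.2.1
  have adjA : ∀ i < m, ∀ j < m, (G.Adj (u i) (la (u j)) ↔ i < j) := by
    intro i hi j hj
    rw [adj_l hA hla (hnA _ (hP j hj).1) (hnA _ (hP i hi).1) (hP j hj).2.1]
    exact hltA i hi j hj
  have memA : ∀ i < m, la (u i) ∈ A := fun i hi => (hla _ (hP i hi).2.1).1.1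
  have memB : ∀ i < m, lb (u i) ∈ B := fun i hi => (hlb _ (hP i hi).2.2.1).1.1
  have neA : ∀ i < m, ∀ j < m, i < j → la (u i) ≠ la (u j) := by
    intro i hi j hj hij heq
    have h1 := (adjA i hi j hj).mpr hij
    rw [← heq, adjA i hi i hi] at h1
    exact lt_irrefl _ h1
  have clA : ∀ i < m, ∀ j < m, i ≠ j → G.Adj (la (u i)) (la (u j)) := by
    intro i hi j hj hij
    apply hA.cl _ (memA i hi) _ (memA j hj)
    rcases lt_or_gt_of_ne hij with h1 | h1
    · exact neA i hi j hj h1
    · exact (neA j hj i hi h1).symm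
  have neu : ∀ i < m, ∀ j < m, i ≠ j → u i ≠ u j := by
    intro i hi j hj hij heq
    rcases lt_or_gt_of_ne hij with h1 | h1
    · have := (hltA i hi j hj).mpr h1
      rw [heq] at this
      exact lt_irrefl _ this
    · have := (hltA j hj i hi).mpr h1
      rw [heq] at this
      exact lt_irrefl _ this
  have common : ∀ i < m, ∀ j < m, u i ≠ la (u j) ∧ u i ≠ lb (u j) ∧ la (u i) ≠ lb (u j) := by
    intro i hi j hj
    refine ⟨?_, ?_, ?_⟩
    · intro h
      exact hnA _ (hP i hi).1 (h ▸ memA j hj)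
    · intro h
      exact hnB _ (hP i hi).1 (h ▸ memB j hj)
    · intro h
      exact Set.disjoint_left.mp hAB (memA i hi) (h ▸ memB j hj)
  cases s with
  | true =>
    have hltB : ∀ i < m, ∀ j < m, (nn G B (u i) < nn G B (u j) ↔ j < i) := by
      intro i hi j hj
      constructor
      · intro h
        by_contra hij
        rcases Nat.eq_or_lt_of_le (not_lt.mp hij) with h1 | h1
        · rw [h1] at h
          exact lt_irrefl _ h
        · have := (hR i j h1 hj).2.2.2.1 rfl
          omega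
      · intro h
        exact (hR j i h hi).2.2.2.1 rfl
    have adjB : ∀ i < m, ∀ j < m, (G.Adj (u i) (lb (u j)) ↔ j < i) := by
      intro i hi j hj
      rw [adj_l hB hlb (hnB _ (hP j hj).1) (hnB _ (hP i hi).1) (hP j hj).2.2.1]
      exact hltB i hi j hj
    have neB : ∀ i < m, ∀ j < m, i < j → lb (u i) ≠ lb (u j) := by
      intro i hi j hj hij heq
      have h1 := (adjB j hj i hi).mpr hij
      rw [heq, adjB j hj j hj] at h1
      exact lt_irrefl _ h1
    have clB : ∀ i < m, ∀ j < m, i ≠ j → G.Adj (lb (u i)) (lb (u j)) := by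
      intro i hi j hj hij
      apply hB.cl _ (memB i hi) _ (memB j hj)
      rcases lt_or_gt_of_ne hij with h1 | h1
      · exact neB i hi j hj h1
      · exact (neB j hj i hi h1).symm
    apply hF3
    refine ⟨u, fun i => la (u i), fun i => lb (u i), fun i hi j hj => ?_⟩
    obtain ⟨h1, h2, h3⟩ := common i hi j hj
    exact ⟨h1, h2, h3, fun hij => ⟨neu i hi j hj hij, hZ _ (hP i hi).1 _ (hP j hj).1,
      clA i hi j hj hij, clB i hi j hj hij⟩, adjA i hi j hj, adjB i hi j hj,
      (hP i hi).2.2.2.mpr rfl⟩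
  | false =>
    have hltB : ∀ i < m, ∀ j < m, (nn G B (u i) < nn G B (u j) ↔ i < j) := by
      intro i hi j hj
      constructor
      · intro h
        by_contra hij
        rcases Nat.eq_or_lt_of_le (not_lt.mp hij) with h1 | h1
        · rw [h1] at h
          exact lt_irrefl _ h
        · have := (hR j i h1 hi).2.2.2.2 rfl
          omega
      · intro h
        exact (hR i j h hj).2.2.2.2 rfl
    have adjB : ∀ i < m, ∀ j < m, (G.Adj (u i) (lb (u j)) ↔ i < j) := by
      intro i hi j hj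
      rw [adj_l hB hlb (hnB _ (hP j hj).1) (hnB _ (hP i hi).1) (hP j hj).2.2.1]
      exact hltB i hi j hj
    have neB : ∀ i < m, ∀ j < m, i < j → lb (u i) ≠ lb (u j) := by
      intro i hi j hj hij heq
      have h1 := (adjB i hi j hj).mpr hij
      rw [← heq, adjB i hi i hi] at h1
      exact lt_irrefl _ h1
    have clB : ∀ i < m, ∀ j < m, i ≠ j → G.Adj (lb (u i)) (lb (u j)) := by
      intro i hi j hj hij
      apply hB.cl _ (memB i hi) _ (memB j hj)
      rcases lt_or_gt_of_ne hij with h1 | h1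
      · exact neB i hi j hj h1
      · exact (neB j hj i hi h1).symm
    apply hF4
    refine ⟨u, fun i => la (u i), fun i => lb (u i), fun i hi j hj => ?_⟩
    obtain ⟨h1, h2, h3⟩ := common i hi j hj
    exact ⟨h1, h2, h3, fun hij => ⟨neu i hi j hj hij, hZ _ (hP i hi).1 _ (hP j hj).1,
      clA i hi j hj hij, clB i hi j hj hij⟩, adjA i hi j hj, adjB i hi j hj,
      fun h => absurd ((hP i hi).2.2.2.mp h) (by simp)⟩

end SgnAux

open SgnAux

theorem sgn : S_Sgn := by
  classical
  intro m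
  refine ⟨Fintype.card (Bool × Bool × Bool × Fin (m + 1)), ?_⟩
  intro V _ G Z A B ρ hF3 hF4 hZ hZA hZB hAB hA hB
  obtain ⟨la, hla⟩ := exists_l G A ρ
  obtain ⟨lb, hlb⟩ := exists_l G B ρ
  let sg : V → Bool := fun v => decide (G.Adj (la v) (lb v))
  let h : V → ℕ := fun v => Nat.findGreatest (fun t => Ch G Z A B la lb (sg v) t v) m
  have hle : ∀ v, h v < m + 1 := fun v => Nat.lt_succ_of_le (Nat.findGreatest_le m)
  let d : V → Bool × Bool × Bool × Fin (m + 1) := fun v =>
    (decide (nn G A v = 0), decide (nn G B v = 0), sg v, ⟨h v, hle v⟩)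
  let e := Fintype.equivFin (Bool × Bool × Bool × Fin (m + 1))
  refine ⟨fun v => e (d v), fun i => (e.symm i).2.2.1, ?_⟩
  intro v hv w hw hc hlt
  have hd : d v = d w := e.injective hc
  have hσ : (fun i => (e.symm i).2.2.1) ((fun v => e (d v)) v) = sg v := by
    show (e.symm (e (d v))).2.2.1 = sg v
    rw [e.symm_apply_apply]
  rw [hσ]
  have hd1 : decide (nn G A v = 0) = decide (nn G A w = 0) := congrArg (fun p => p.1) hd
  have hd2 : decide (nn G B v = 0) = decide (nn G B w = 0) := congrArg (fun p => p.2.1) hd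
  have hd3 : sg v = sg w := congrArg (fun p => p.2.2.1) hd
  have hd4 : h v = h w := by
    have := congrArg (fun p => (p.2.2.2 : Fin (m + 1)).val) hd
    exact this
  rw [decide_eq_decide] at hd1 hd2
  have hAw : nn G A w ≠ 0 := by omega
  have hAv : nn G A v ≠ 0 := fun h => hAw (hd1.mp h)
  by_cases hBv : nn G B v = 0
  · have hBw := hd2.mp hBv
    exact ⟨fun _ => by omega, fun _ => by omega⟩
  have hBw : nn G B w ≠ 0 := fun h => hBv (hd2.mpr h)
  have hPv : Pp G Z A B la lb (sg v) v :=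
    ⟨hv, by omega, by omega, by rw [show sg v = decide (G.Adj (la v) (lb v)) from rfl,
      decide_eq_true_iff]⟩
  have hPw : Pp G Z A B la lb (sg v) w :=
    ⟨hw, by omega, by omega, by rw [hd3, show sg w = decide (G.Adj (la w) (lb w)) from rfl,
      decide_eq_true_iff]⟩
  have hnR : ¬ Rr G Z A B la lb (sg v) v w := by
    intro hR
    have h1 : Ch G Z A B la lb (sg v) (h v) v :=
      Nat.findGreatest_spec (P := fun t => Ch G Z A B la lb (sg v) t v) (Nat.zero_le m) hPv
    have h2 : Ch G Z A B la lb (sg v) (h v + 1) w := ⟨v, hR, h1⟩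
    have h3 : h v + 1 ≤ m := by
      by_contra hcon
      obtain ⟨u, hu1, hu2, _⟩ := Ch.seq (h v + 1) w h2
      exact no_chain hF3 hF4 hZ hZA hZB hAB hA hB hla hlb (sg v) u
        (fun i hi => hu1 i (by omega)) (fun i j hij hj => hu2 i j hij (by omega))
    have h4 : h v + 1 ≤ h w := by
      apply Nat.le_findGreatest h3
      rw [← hd3]
      exact h2
    omega
  constructor
  · intro hs
    by_contra hcon
    apply hnR
    refine ⟨hPv, hPw, hlt, fun _ => by omega, fun hs' => ?_⟩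
    rw [hs] at hs'
    exact absurd hs' (by simp)
  · intro hs
    by_contra hcon
    apply hnR
    refine ⟨hPv, hPw, hlt, fun hs' => ?_, fun _ => by omega⟩
    rw [hs] at hs'
    exact absurd hs' (by simp)

end Pool.Agent.MPd439b2.R3
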