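import Pool.Agent.Lib.MP_d439b2_co.R3.SpecA

/-!
# MP_d439b2_co, R3/Split: the split lemma
-/

set_option autoImplicit false

namespace Pool.Agent.MPd439b2.R3

open Pool.Agent.MPd439b2 Pool.Agent.MPd439b2.W Pool.Agent.MPd439b2.X2

namespace splitAux

/-- The structure obtained after the first application of Ramsey's theorem. -/
structure Grd {V : Type} (G : SimpleGraph V) (k q : ℕ) (y : ℕ → ℕ → V) : Prop where
  dif : ∀ a < k, ∀ b < k, ∀ i < q, ∀ j < q, (a ≠ b ∨ i ≠ j) → y a i ≠ y b j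
  row : ∀ a < k, ∀ b < k, ∀ i < q, ¬ G.Adj (y a i) (y b i)
  hom : ∀ a < k, ∀ b < k, ∀ i j, i < j → j < q →
    (G.Adj (y a i) (y b j) ↔ G.Adj (y a 0) (y b 1))

/-- Not both `E a b` and `E b a`. -/
theorem noCo {V : Type} {G : SimpleGraph V} {k q m : ℕ} {y : ℕ → ℕ → V} (g : Grd G k q y)
    (hmq : m ≤ q) (hC : ¬ ComP G m) {a b : ℕ} (ha : a < k) (hb : b < k) (hab : a ≠ b)
    (h1 : G.Adj (y a 0) (y b 1)) (h2 : G.Adj (y b 0) (y a 1)) : False := by
  apply hC
  refine ⟨y a, y b, ?_⟩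
  intro i hi j hj
  have hi' : i < q := lt_of_lt_of_le hi hmq
  have hj' : j < q := lt_of_lt_of_le hj hmq
  refine ⟨g.dif a ha b hb i hi' j hj' (Or.inl hab), fun hij =>
    ⟨g.dif a ha a ha i hi' j hj' (Or.inr hij), g.dif b hb b hb i hi' j hj' (Or.inr hij)⟩, ?_⟩
  rcases lt_trichotomy i j with h | h | h
  · exact iff_of_true ((g.hom a ha b hb i j h hj').2 h1) (ne_of_lt h)
  · subst h
    exact iff_of_false (g.row a ha b hb i hi') (fun h => h rfl)
  · exact iff_of_true ((g.hom b hb a ha j i h hi').2 h2).symm (ne_of_gt h)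

/-- The first matching. -/
theorem mat1 {V : Type} {G : SimpleGraph V} {k q m : ℕ} {y : ℕ → ℕ → V} (g : Grd G k q y)
    (hmq : 2 * m + 2 ≤ q) (τ : ℕ → ℕ) (hτ : ∀ c < m, τ c < k)
    (h1 : ∀ a < k, G.Adj (y a 0) (y a 1))
    (h2 : ∀ c d, c < d → d < m → ¬ G.Adj (y (τ c) 0) (y (τ d) 1)) : MatP G m := by
  refine ⟨fun c => y (τ c) (2 * c), fun c => y (τ c) (2 * c + 1), ?_⟩
  intro c hc d hd
  have hc' := hτ c hc
  have hd' := hτ d hd
  refine ⟨g.dif _ hc' _ hd' _ (by omega) _ (by omega) (Or.inr (by omega)), fun hcd =>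
    ⟨g.dif _ hc' _ hd' _ (by omega) _ (by omega) (Or.inr (by omega)),
      g.dif _ hc' _ hd' _ (by omega) _ (by omega) (Or.inr (by omega))⟩, ?_⟩
  show G.Adj (y (τ c) (2 * c)) (y (τ d) (2 * d + 1)) ↔ c = d
  rcases lt_trichotomy c d with h | h | h
  · refine iff_of_false ?_ (ne_of_lt h)
    rw [g.hom _ hc' _ hd' (2 * c) (2 * d + 1) (by omega) (by omega)]
    exact h2 c d h hd
  · subst h
    refine iff_of_true ?_ rfl
    rw [g.hom _ hc' _ hc' (2 * c) (2 * c + 1) (by omega) (by omega)]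
    exact h1 _ hc'
  · refine iff_of_false ?_ (ne_of_gt h)
    intro h3
    have h4 := h3.symm
    rw [g.hom _ hd' _ hc' (2 * d + 1) (2 * c) (by omega) (by omega)] at h4
    exact h2 d c h hc h4

/-- The second matching. -/
theorem mat2 {V : Type} {G : SimpleGraph V} {k q m : ℕ} {y : ℕ → ℕ → V} (g : Grd G k q y)
    (hmq : 2 * m + 2 ≤ q) (τ : ℕ → ℕ) (hτ : ∀ c < m, τ c < k)
    (h1 : ∀ a < k, G.Adj (y a 0) (y a 1))
    (h2 : ∀ c d, c < d → d < m → ¬ G.Adj (y (τ d) 0) (y (τ c) 1)) : MatP G m := by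
  refine ⟨fun c => y (τ c) (2 * (m - c)), fun c => y (τ c) (2 * (m - c) + 1), ?_⟩
  intro c hc d hd
  have hc' := hτ c hc
  have hd' := hτ d hd
  refine ⟨g.dif _ hc' _ hd' _ (by omega) _ (by omega) (Or.inr (by omega)), fun hcd =>
    ⟨g.dif _ hc' _ hd' _ (by omega) _ (by omega) (Or.inr (by omega)),
      g.dif _ hc' _ hd' _ (by omega) _ (by omega) (Or.inr (by omega))⟩, ?_⟩
  show G.Adj (y (τ c) (2 * (m - c))) (y (τ d) (2 * (m - d) + 1)) ↔ c = d
  rcases lt_trichotomy c d with h | h | h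
  · refine iff_of_false ?_ (ne_of_lt h)
    intro h3
    have h4 := h3.symm
    rw [g.hom _ hd' _ hc' (2 * (m - d) + 1) (2 * (m - c)) (by omega) (by omega)] at h4
    exact h2 c d h hd h4
  · subst h
    refine iff_of_true ?_ rfl
    rw [g.hom _ hc' _ hc' (2 * (m - c)) (2 * (m - c) + 1) (by omega) (by omega)]
    exact h1 _ hc'
  · refine iff_of_false ?_ (ne_of_gt h)
    rw [g.hom _ hc' _ hd' (2 * (m - c)) (2 * (m - d) + 1) (by omega) (by omega)]
    exact h2 d c h hc

end splitAux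

open splitAux in
theorem split (h1 : S_Pairs) (h2 : W.S_RamC) : S_Split := by
  intro m
  obtain ⟨K₀, hK₀⟩ := h2 (Prop × Prop) m
  obtain ⟨k, hk⟩ : ∃ k, k = K₀ + m + 2 := ⟨_, rfl⟩
  obtain ⟨q, hq⟩ : ∃ q, q = 2 * k + m + 2 := ⟨_, rfl⟩
  obtain ⟨s, hs⟩ := h2 (Fin k → Fin k → Prop) q
  refine ⟨k, s * k + 1, ?_⟩
  intro V _ G hM hC
  classical
  have hfin : {B : Finset V | ∀ T ⊆ B, Stb G T → T.card < k}.Finite := Set.toFinite _
  have hne : {B : Finset V | ∀ T ⊆ B, Stb G T → T.card < k}.Nonempty := by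
    refine ⟨∅, ?_⟩
    intro T hT _
    have : T = ∅ := Finset.subset_empty.1 hT
    rw [this, Finset.card_empty]
    omega
  obtain ⟨B, hB, hBmax⟩ := Set.exists_max_image _ (fun B : Finset V => B.card) hfin hne
  refine ⟨B, hB, ?_⟩
  intro K hKB hKc
  by_contra hlt
  rw [not_lt] at hlt
  obtain ⟨x, hx0, hx1, hx2, hx3⟩ := h1 V G k s B K (by omega) hB
    (fun B' hB' => hBmax B' hB') hKB hKc (by omega)
  obtain ⟨σ, E, hσ, hσs, hE⟩ := hs
    (fun i j => fun a b : Fin k => G.Adj (x a i) (x b j))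
  -- the grid
  have hσ' : ∀ i < q, ∀ j < q, i ≠ j → σ i ≠ σ j := by
    intro i hi j hj hij
    rcases lt_or_gt_of_ne hij with h | h
    · exact ne_of_lt (hσ i j h hj)
    · exact ne_of_gt (hσ j i h hi)
  have hom : ∀ a < k, ∀ b < k, ∀ i j, i < j → j < q →
      (G.Adj (x a (σ i)) (x b (σ j)) ↔ G.Adj (x a (σ 0)) (x b (σ 1))) := by
    intro a ha b hb i j hij hj
    have e1 := congrFun (congrFun (hE i j hij hj) ⟨a, ha⟩) ⟨b, hb⟩
    have e2 := congrFun (congrFun (hE 0 1 (by omega) (by omega)) ⟨a, ha⟩) ⟨b, hb⟩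
    exact Iff.of_eq (e1.trans e2.symm)
  have g : Grd G k q (fun a i => x a (σ i)) := by
    refine ⟨?_, ?_, hom⟩
    · intro a ha b hb i hi j hj h
      refine hx2 a ha b hb (σ i) (hσs i hi) (σ j) (hσs j hj) ?_
      rcases h with h | h
      · exact Or.inl h
      · exact Or.inr (hσ' i hi j hj h)
    · intro a ha b hb i hi
      exact hx3 a ha b hb (σ i) (hσs i hi)
  have hdiag : ∀ a < k, G.Adj (x a (σ 0)) (x a (σ 1)) := by
    intro a ha
    rcases Nat.eq_zero_or_pos a with h0 | h0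
    · subst h0
      refine hKc _ (hx0 _ (hσs 0 (by omega))) _ (hx0 _ (hσs 1 (by omega))) ?_
      exact g.dif 0 ha 0 ha 0 (by omega) 1 (by omega) (Or.inr (by omega))
    · by_contra hna
      have hT := hB ((Finset.range k).image (fun i => x a (σ i))) ?_ ?_
      · rw [Finset.card_image_of_injOn, Finset.card_range] at hT
        · exact absurd hT (lt_irrefl _)
        · intro i hi j hj hij
          have hi' : i < k := Finset.mem_range.1 hi
          have hj' : j < k := Finset.mem_range.1 hj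
          by_contra hne
          exact g.dif a ha a ha i (by omega) j (by omega) (Or.inr hne) hij
      · intro v hv
        obtain ⟨i, hi, rfl⟩ := Finset.mem_image.1 hv
        have hi' : i < k := Finset.mem_range.1 hi
        exact hx1 a ha h0 _ (hσs i (by omega))
      · intro u hu v hv hadj
        obtain ⟨i, hi, rfl⟩ := Finset.mem_image.1 hu
        obtain ⟨j, hj, rfl⟩ := Finset.mem_image.1 hv
        have hi' : i < k := Finset.mem_range.1 hi
        have hj' : j < k := Finset.mem_range.1 hj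
        rcases lt_trichotomy i j with h | h | h
        · exact hna ((hom a ha a ha i j h (by omega)).1 hadj)
        · subst h
          exact G.loopless.irrefl _ hadj
        · exact hna ((hom a ha a ha j i h (by omega)).1 hadj.symm)
  obtain ⟨τ, c, hτ, hτk, hc⟩ := hK₀
    (fun a b => (G.Adj (x a (σ 0)) (x b (σ 1)), G.Adj (x b (σ 0)) (x a (σ 1))))
  have hτk' : ∀ c < m, τ c < k := fun c hc => lt_of_lt_of_le (hτk c hc) (by omega)
  by_cases hc1 : c.1
  · apply hM
    refine mat2 g (by omega) τ hτk' hdiag ?_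
    intro i j hij hj hadj
    have e := congrArg Prod.fst (hc i j hij hj)
    have e' : G.Adj (x (τ i) (σ 0)) (x (τ j) (σ 1)) := by
      have e2 : G.Adj (x (τ i) (σ 0)) (x (τ j) (σ 1)) = c.1 := e
      rw [e2]
      exact hc1
    exact noCo g (by omega) hC (hτk' i (by omega)) (hτk' j hj) (ne_of_lt (hτ i j hij hj)) e' hadj
  · apply hM
    refine mat1 g (by omega) τ hτk' hdiag ?_
    intro i j hij hj hadj
    have e : G.Adj (x (τ i) (σ 0)) (x (τ j) (σ 1)) = c.1 :=
      congrArg Prod.fst (hc i j hij hj)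
    apply hc1
    rw [← e]
    exact hadj

end Pool.Agent.MPd439b2.R3
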