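import Pool.Agent.Lib.MP_d439b2_co.R3.SpecB

/-!
# MP_d439b2_co, R3: the finite facts imply `F1` to `F4` (helper84)
-/

set_option autoImplicit false

namespace Pool.Agent.MPd439b2.R3

open Pool.Agent.MPd439b2 Pool.Agent.MPd439b2.W Pool.Agent.MPd439b2.X2

namespace FFaux

variable {V : Type}

private theorem eT {G : SimpleGraph V} {L M : ℕ} {x : ℕ → ℕ → V} {E : ℕ → ℕ → Bool}
    (h : Hom G L M x E) (hM : 2 ≤ M) {i j : ℕ} (hi : i < L) (hj : j < L)
    (ha : G.Adj (x i 0) (x j 1)) : E i j = true :=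
  (h.rel i hi j hj 0 1 (by omega) (by omega)).1 ha

private theorem eF {G : SimpleGraph V} {L M : ℕ} {x : ℕ → ℕ → V} {E : ℕ → ℕ → Bool}
    (h : Hom G L M x E) (hM : 2 ≤ M) {i j : ℕ} (hi : i < L) (hj : j < L)
    (ha : ¬ G.Adj (x i 0) (x j 1)) : E i j = false := by
  rw [← Bool.not_eq_true]
  exact fun h' => ha ((h.rel i hi j hj 0 1 (by omega) (by omega)).2 h')

/-- three rails -/
private def r3 (p q r : ℕ → V) : ℕ → ℕ → V := fun i => if i = 0 then p else if i = 1 then q else r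

/-- homogeneous subsequences -/
private theorem hom3 (hR : W.S_RamC) (m : ℕ) : ∃ N : ℕ, ∀ (V : Type) (G : SimpleGraph V)
    (p q r : ℕ → V), (∀ k < N, ∀ l < N, k ≠ l → p k ≠ p l ∧ q k ≠ q l ∧ r k ≠ r l ∧ p k ≠ q l ∧
      p k ≠ r l ∧ q k ≠ r l) →
    ∃ (s : ℕ → ℕ) (E : ℕ → ℕ → Bool), (∀ k l, k < l → l < m → s k < s l) ∧ (∀ k < m, s k < N) ∧
      Hom G 3 m (r3 (fun k => p (s k)) (fun k => q (s k)) (fun k => r (s k))) E := by
  classical
  obtain ⟨N, hN⟩ := hR (Fin 3 → Fin 3 → Bool) m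
  refine ⟨N, ?_⟩
  intro V G p q r hd
  obtain ⟨s, c, hs, hsN, hc⟩ := hN fun a b i j => decide (G.Adj (r3 p q r i a) (r3 p q r j b))
  have hx : ∀ i k, r3 (fun k => p (s k)) (fun k => q (s k)) (fun k => r (s k)) i k =
      r3 p q r i (s k) := by
    intro i k
    unfold r3
    split
    · rfl
    · split <;> rfl
  have hne : ∀ k < m, ∀ l < m, k ≠ l → s k ≠ s l := by
    intro k hk l hl hkl
    rcases lt_or_gt_of_ne hkl with h1 | h1
    · exact (hs k l h1 hl).ne
    · exact (hs l k h1 hk).ne'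
  refine ⟨s, fun i j => if h : i < 3 then if h' : j < 3 then c ⟨i, h⟩ ⟨j, h'⟩ else false else false,
    hs, hsN, ?_, ?_⟩
  · intro i hi j hj k hk l hl hkl
    rw [hx, hx]
    obtain ⟨d1, d2, d3, d4, d5, d6⟩ := hd _ (hsN k hk) _ (hsN l hl) (hne k hk l hl hkl)
    obtain ⟨-, -, -, e4, e5, e6⟩ := hd _ (hsN l hl) _ (hsN k hk) (hne l hl k hk (Ne.symm hkl))
    interval_cases i <;> interval_cases j
    · exact d1
    · exact d4
    · exact d5
    · exact e4.symm
    · exact d2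
    · exact d6
    · exact e5.symm
    · exact e6.symm
    · exact d3
  · intro i hi j hj k l hkl hl
    rw [hx, hx, dif_pos hi, dif_pos hj]
    have h1 := congrFun (congrFun (hc k l hkl hl) ⟨i, hi⟩) ⟨j, hj⟩
    rw [← h1]
    exact (decide_eq_true_iff).symm

private theorem f1 {m : ℕ} (hm : M0 ≤ m) {G : SimpleGraph V} (hG : Facts G) : F1 G m := by
  rintro ⟨a, b, hab⟩
  have hM : M0 = 128 := rfl
  have hh : Hom G 2 M0 (r3 a b b) (fun i j => decide (i = 0 ∧ j = 1)) := by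
    refine ⟨?_, ?_⟩
    · intro i hi j hj k hk l hl hkl
      obtain ⟨d1, d2, -⟩ := hab k (by omega) l (by omega)
      obtain ⟨e1, -, -⟩ := hab l (by omega) k (by omega)
      interval_cases i <;> interval_cases j
      · exact (d2 hkl).1
      · exact d1
      · exact e1.symm
      · exact (d2 hkl).2.1
    · intro i hi j hj k l hkl hl
      obtain ⟨-, d2, d3⟩ := hab k (by omega) l (by omega)
      obtain ⟨-, -, e3⟩ := hab l (by omega) k (by omega)
      interval_cases i <;> interval_cases j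
      · show G.Adj (a k) (a l) ↔ _
        simp [(d2 hkl.ne).2.2.1]
      · show G.Adj (a k) (b l) ↔ _
        rw [d3]
        simp [hkl.le]
      · show G.Adj (b k) (a l) ↔ _
        rw [G.adj_comm, e3]
        simp
        omega
      · show G.Adj (b k) (b l) ↔ _
        simp [(d2 hkl.ne).2.2.2]
  exact hG.st _ _ hh (by simp) (by simp) (by simp) (by simp)

private theorem f2 {m' N m : ℕ} (hm' : M0 ≤ m')
    (hN : ∀ (V : Type) (G : SimpleGraph V)
    (p q r : ℕ → V), (∀ k < N, ∀ l < N, k ≠ l → p k ≠ p l ∧ q k ≠ q l ∧ r k ≠ r l ∧ p k ≠ q l ∧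
      p k ≠ r l ∧ q k ≠ r l) →
    ∃ (s : ℕ → ℕ) (E : ℕ → ℕ → Bool), (∀ k l, k < l → l < m' → s k < s l) ∧ (∀ k < m', s k < N) ∧
      Hom G 3 m' (r3 (fun k => p (s k)) (fun k => q (s k)) (fun k => r (s k))) E)
    (hm : N ≤ m) {G : SimpleGraph V} (hG : Facts G) : F2 G m := by
  rintro ⟨x, u, w, hx⟩
  have hM : M0 = 128 := rfl
  obtain ⟨s, E, hs, hsN, hh⟩ := hN V G w x u (by
    intro k hk l hl hkl
    obtain ⟨d1, d2, d3, d4, -, -⟩ := hx k (by omega) l (by omega)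
    obtain ⟨e1, e2, e3, -, -, -⟩ := hx l (by omega) k (by omega)
    obtain ⟨g1, g2, g3⟩ := d4 hkl
    exact ⟨g3, g1.ne, g2, e2.symm, e3.symm, d1⟩)
  have h01 : s 0 < s 1 := hs 0 1 (by omega) (by omega)
  have hs1 : s 1 < m := lt_of_lt_of_le (hsN 1 (by omega)) hm
  have hs0 : s 0 < m := by omega
  obtain ⟨-, -, -, d4, d5, d6⟩ := hx _ hs0 _ hs1
  obtain ⟨-, -, -, -, e5, e6⟩ := hx _ hs1 _ hs0
  refine hG.opK _ E (hh.mono le_rfl hm') (eT hh (by omega) (by omega) (by omega) ?_)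
    (eT hh (by omega) (by omega) (by omega) ?_) (eF hh (by omega) (by omega) (by omega) ?_)
    (eT hh (by omega) (by omega) (by omega) ?_) (eF hh (by omega) (by omega) (by omega) ?_)
  · exact (d4 h01.ne).1
  · show G.Adj (w (s 0)) (x (s 1))
    exact d6.2 h01.le
  · show ¬ G.Adj (x (s 0)) (w (s 1))
    rw [G.adj_comm, e6]
    omega
  · show G.Adj (x (s 0)) (u (s 1))
    rw [G.adj_comm, e5]
    omega
  · show ¬ G.Adj (u (s 0)) (x (s 1))
    rw [d5]
    omega

private theorem f3 {m' N m : ℕ} (hm' : M0 ≤ m')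
    (hN : ∀ (V : Type) (G : SimpleGraph V)
    (p q r : ℕ → V), (∀ k < N, ∀ l < N, k ≠ l → p k ≠ p l ∧ q k ≠ q l ∧ r k ≠ r l ∧ p k ≠ q l ∧
      p k ≠ r l ∧ q k ≠ r l) →
    ∃ (s : ℕ → ℕ) (E : ℕ → ℕ → Bool), (∀ k l, k < l → l < m' → s k < s l) ∧ (∀ k < m', s k < N) ∧
      Hom G 3 m' (r3 (fun k => p (s k)) (fun k => q (s k)) (fun k => r (s k))) E)
    (hm : N ≤ m) {G : SimpleGraph V} (hG : Facts G) : F3 G m := by
  rintro ⟨v, b, b', hx⟩
  have hM : M0 = 128 := rfl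
  obtain ⟨s, E, hs, hsN, hh⟩ := hN V G b' v b (by
    intro k hk l hl hkl
    obtain ⟨d1, d2, d3, d4, -, -, -⟩ := hx k (by omega) l (by omega)
    obtain ⟨e1, e2, e3, -, -, -, -⟩ := hx l (by omega) k (by omega)
    obtain ⟨g1, g2, g3, g4⟩ := d4 hkl
    exact ⟨g4.ne, g1, g3.ne, e2.symm, e3.symm, d1⟩)
  have hsm : ∀ k < m', s k < m := fun k hk => lt_of_lt_of_le (hsN k hk) hm
  have h01 : s 0 < s 1 := hs 0 1 (by omega) (by omega)
  have hs1 : s 1 < m := hsm 1 (by omega)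
  have hs0 : s 0 < m := by omega
  obtain ⟨-, -, -, d4, d5, d6, -⟩ := hx _ hs0 _ hs1
  obtain ⟨-, -, -, -, e5, e6, -⟩ := hx _ hs1 _ hs0
  obtain ⟨-, -, k3, k4⟩ := hG.opI _ E (hh.mono le_rfl hm')
    (eF hh (by omega) (by omega) (by omega) (by
      show ¬ G.Adj (v (s 0)) (v (s 1))
      exact (d4 h01.ne).2.1))
    (eT hh (by omega) (by omega) (by omega) (by
      show G.Adj (b' (s 0)) (v (s 1))
      rw [G.adj_comm, e6]
      omega))
    (eF hh (by omega) (by omega) (by omega) (by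
      show ¬ G.Adj (v (s 0)) (b' (s 1))
      rw [d6]
      omega))
    (eT hh (by omega) (by omega) (by omega) (by
      show G.Adj (v (s 0)) (b (s 1))
      rw [d5]
      omega))
    (eF hh (by omega) (by omega) (by omega) (by
      show ¬ G.Adj (b (s 0)) (v (s 1))
      rw [G.adj_comm, e5]
      omega))
  refine hG.dg (fun i => v (s i)) (fun i => b (s i)) (fun i => b' (s i)) ?_
  intro i hi j hj
  have hi' : i < m' := by omega
  have hj' : j < m' := by omega
  obtain ⟨a1, a2, a3, a4, a5, a6, -⟩ := hx _ (hsm i hi') _ (hsm j hj')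
  have hlt : s i < s j ↔ i < j := by
    rcases lt_trichotomy i j with h1 | h1 | h1
    · have := hs i j h1 hj'
      omega
    · subst h1
      omega
    · have := hs j i h1 hi'
      omega
  have hlt' : s j < s i ↔ j < i := by
    rcases lt_trichotomy i j with h1 | h1 | h1
    · have := hs i j h1 hj'
      omega
    · subst h1
      omega
    · have := hs j i h1 hi'
      omega
  refine ⟨a1, a2, a3, ?_, by rw [a5, hlt], by rw [a6, hlt'], ?_⟩
  · intro hij
    have hne : s i ≠ s j := by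
      rcases lt_or_gt_of_ne hij with h1 | h1
      · exact (hs i j h1 hj').ne
      · exact (hs j i h1 hi').ne'
    obtain ⟨g1, g2, g3, g4⟩ := a4 hne
    exact ⟨g1, g3.ne, g4.ne, g2, g3, g4⟩
  · rcases lt_trichotomy i j with h1 | h1 | h1
    · have h2 := hh.rel 2 (by omega) 0 (by omega) i j h1 hj'
      rw [k4] at h2
      have h3 : ¬ G.Adj (b (s i)) (b' (s j)) := fun h => Bool.false_ne_true (h2.1 h)
      exact ⟨fun h => absurd h h3, fun h => absurd h (by omega)⟩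
    · subst h1
      exact ⟨fun _ => le_rfl, fun _ => (hx _ (hsm i hi') _ (hsm i hi')).2.2.2.2.2.2⟩
    · have h2 := hh.rel 0 (by omega) 2 (by omega) j i h1 hi'
      have h3 : G.Adj (b' (s j)) (b (s i)) := h2.2 k3
      exact ⟨fun _ => h1.le, fun _ => h3.symm⟩

private theorem f4 {m₀ m' N m : ℕ} (hm' : M0 ≤ m') (hm₀ : m₀ ≤ m')
    (hN : ∀ (V : Type) (G : SimpleGraph V)
    (p q r : ℕ → V), (∀ k < N, ∀ l < N, k ≠ l → p k ≠ p l ∧ q k ≠ q l ∧ r k ≠ r l ∧ p k ≠ q l ∧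
      p k ≠ r l ∧ q k ≠ r l) →
    ∃ (s : ℕ → ℕ) (E : ℕ → ℕ → Bool), (∀ k l, k < l → l < m' → s k < s l) ∧ (∀ k < m', s k < N) ∧
      Hom G 3 m' (r3 (fun k => p (s k)) (fun k => q (s k)) (fun k => r (s k))) E)
    (hm : N ≤ m) {G : SimpleGraph V} (hG : Facts G) (hC : ¬ ComP G m₀) : F4 G m := by
  rintro ⟨v, b, b', hx⟩
  have hM : M0 = 128 := rfl
  obtain ⟨s, E, hs, hsN, hh⟩ := hN V G b v b' (by
    intro k hk l hl hkl
    obtain ⟨d1, d2, d3, d4, -, -, -⟩ := hx k (by omega) l (by omega)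
    obtain ⟨e1, e2, e3, -, -, -, -⟩ := hx l (by omega) k (by omega)
    obtain ⟨g1, g2, g3, g4⟩ := d4 hkl
    exact ⟨g3.ne, g1, g4.ne, e1.symm, d3, d2⟩)
  have hsm : ∀ k < m', s k < m := fun k hk => lt_of_lt_of_le (hsN k hk) hm
  have h01 : s 0 < s 1 := hs 0 1 (by omega) (by omega)
  have hs1 : s 1 < m := hsm 1 (by omega)
  have hs0 : s 0 < m := by omega
  obtain ⟨-, -, -, d4, d5, d6, -⟩ := hx _ hs0 _ hs1
  obtain ⟨-, -, -, -, e5, e6, -⟩ := hx _ hs1 _ hs0
  have hrev := (hh.rev).mono (le_refl 3) hm'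
  obtain ⟨k1, k2⟩ := hG.sm _ _ hrev
    (eF hh (by omega) (by omega) (by omega) (by
      show ¬ G.Adj (v (s 0)) (v (s 1))
      exact (d4 h01.ne).2.1))
    (eT hh (by omega) (by omega) (by omega) (by
      show G.Adj (v (s 0)) (b (s 1))
      rw [d5]
      omega))
    (eF hh (by omega) (by omega) (by omega) (by
      show ¬ G.Adj (b (s 0)) (v (s 1))
      rw [G.adj_comm, e5]
      omega))
    (eT hh (by omega) (by omega) (by omega) (by
      show G.Adj (v (s 0)) (b' (s 1))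
      rw [d6]
      omega))
    (eF hh (by omega) (by omega) (by omega) (by
      show ¬ G.Adj (b' (s 0)) (v (s 1))
      rw [G.adj_comm, e6]
      omega))
  refine hC ⟨fun i => b (s i), fun i => b' (s i), ?_⟩
  intro i hi j hj
  have hi' : i < m' := by omega
  have hj' : j < m' := by omega
  obtain ⟨-, -, a3, a4, -, -, -⟩ := hx _ (hsm i hi') _ (hsm j hj')
  refine ⟨a3, ?_, ?_⟩
  · intro hij
    have hne : s i ≠ s j := by
      rcases lt_or_gt_of_ne hij with h1 | h1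
      · exact (hs i j h1 hj').ne
      · exact (hs j i h1 hi').ne'
    obtain ⟨-, -, g3, g4⟩ := a4 hne
    exact ⟨g3.ne, g4.ne⟩
  · constructor
    · intro h1 h2
      subst h2
      exact (hx _ (hsm i hi') _ (hsm i hi')).2.2.2.2.2.2 h1
    · intro hij
      rcases lt_or_gt_of_ne hij with h1 | h1
      · exact (hh.rel 0 (by omega) 2 (by omega) i j h1 hj').2 k2
      · have h2 : G.Adj (b' (s j)) (b (s i)) :=
          (hh.rel 2 (by omega) 0 (by omega) j i h1 hi').2 k1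
        exact h2.symm

end FFaux

theorem fF (h1 : W.S_RamC) : S_FF := by
  intro m
  obtain ⟨N, hN⟩ := FFaux.hom3 h1 (M0 + m + 1)
  refine ⟨N + M0, ?_⟩
  intro V G hG hC
  exact ⟨FFaux.f1 (by omega) hG, FFaux.f2 (by omega) hN (by omega) hG,
    FFaux.f3 (by omega) hN (by omega) hG, FFaux.f4 (by omega) (by omega) hN (by omega) hG hC⟩

end Pool.Agent.MPd439b2.R3
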