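import Pool.Agent.Lib.MP_d439b2_co.R3.Defs

/-!
# MP_d439b2_co, R3: homogeneous closed bundles contain `H` or `J` (helper29; note 2767, sections 5 and 6)
-/

set_option autoImplicit false

namespace Pool.Agent.MPd439b2.R3

open Pool.Agent.MPd439b2

/-- **NoHB.** There are no homogeneous closed bundles without shortcuts in a staircase structure whose clique
classes have the signs `true`, if the finite facts hold (uses `X2.S_Non`, `X2.S_Clo`) -/
def S_NoHB : Prop := ∀ (V : Type) (n : ℕ) (S : X2.St V n) (r : ℕ) (x : ℕ → ℕ → V) (κ : ℕ → Fin n)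
  (e : ℕ → Bool) (E : ℕ → ℕ → Prop), Facts S.G → (∀ i j, S.t i = true → S.s i j = true) →
  X2.HB S (M0 + 2) r x κ e E → 2 ≤ r →
  (∀ i j, i + 2 ≤ j → j ≤ r → ¬ X2.Stp S (M0 + 2) x κ e i j) → False

namespace NoHBAux

variable {V : Type} {G : SimpleGraph V}

/-- the distances `3`, `5` and the length of a track -/
theorem trk_dist (hF : Facts G) {r : ℕ} {x : ℕ → ℕ → V} {F : ℕ → ℕ → Bool}
    (h : Trk G (r + 1) M0 x F) :
    (∀ i, i + 3 ≤ r → F i (i + 3) = true) ∧ (∀ i, i + 5 ≤ r → F i (i + 5) = true) ∧ r ≤ 6 := by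
  refine ⟨fun i hi => ?_, fun i hi => ?_, ?_⟩
  · rcases Nat.mod_two_eq_zero_or_one i with h0 | h0
    · exact (hF.t4 _ _ (h.even (L' := 4) h0 (by omega))).2.2
    · rw [h.non i (i + 3) (by omega) (by omega)]
      exact (hF.t4 _ _ (h.odd (L' := 4) h0 (by omega))).2.2
  · rcases Nat.mod_two_eq_zero_or_one i with h0 | h0
    · exact hF.t6 _ _ (h.even (L' := 6) h0 (by omega))
    · rw [h.non i (i + 5) (by omega) (by omega)]
      exact hF.t6 _ _ (h.odd (L' := 6) h0 (by omega))
  · by_contra hr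
    exact hF.t8 _ _ (h.even (L' := 8) (p := 0) rfl (by omega))

end NoHBAux

open NoHBAux in
/-- **NoHB.** -/
theorem noHB (hNon : X2.S_Non) (hClo : X2.S_Clo) : S_NoHB := by
  classical
  intro V n S r x κ e E hF hts h hr hns
  have hM : M0 = 128 := rfl
  obtain ⟨d, hd⟩ : ∃ d : ℕ → Prop, ∀ j, d j ↔ e j = S.s (κ j) (κ (j + 1)) := ⟨_, fun _ => Iff.rfl⟩
  obtain ⟨E', hE'⟩ : ∃ E' : ℕ → ℕ → Bool, ∀ i j, E' i j = true ↔ E i j :=
    ⟨fun i j => decide (E i j), fun i j => by simp⟩
  have hEf : ∀ i j, E' i j = false ↔ ¬ E i j := by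
    intro i j
    rw [← hE', Bool.not_eq_true]
  -- the steps
  have hs1 : ∀ j < r, (E j (j + 1) ↔ d j) := by
    intro j hj
    have h1 := (h.stp j hj).2.2 0 (by omega) 1 (by omega) (by omega)
    rw [h.rel j (by omega) (j + 1) (by omega) 0 1 (by omega) (by omega), ← hd j] at h1
    rw [h1]
    exact ⟨fun h2 => h2.1 (by omega), fun h2 => iff_of_true (by omega) h2⟩
  have hs2 : ∀ j < r, (E (j + 1) j ↔ ¬ d j) := by
    intro j hj
    have h1 := (h.stp j hj).2.2 1 (by omega) 0 (by omega) (by omega)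
    rw [SimpleGraph.adj_comm, h.rel (j + 1) (by omega) j (by omega) 0 1 (by omega) (by omega),
      ← hd j] at h1
    rw [h1]
    exact ⟨fun h2 h3 => absurd (h2.2 h3) (by omega), fun h2 => iff_of_false (by omega) h2⟩
  have hnon : ∀ i j, i + 2 ≤ j → j ≤ r → (E i j ↔ E j i) := fun i j hij hj =>
    hNon V n S _ r x κ e E i j (by omega) h (by omega) hj (by omega) (hns i j hij hj)
  have hnon' : ∀ i j, i + 2 ≤ j → j ≤ r → E' i j = E' j i := fun i j hij hj => by
    rw [Bool.eq_iff_iff, hE', hE']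
    exact hnon i j hij hj
  have hom : Hom S.G (r + 1) M0 x E' :=
    ⟨fun i hi j hj k hk l hl hkl => h.dis i (by omega) j (by omega) k (by omega) l (by omega) hkl,
      fun i hi j hj k l hkl hl => by
        rw [hE']
        exact h.rel i (by omega) j (by omega) k l hkl (by omega)⟩
  -- three consecutive rails
  have key3 : ∀ (y : ℕ → ℕ → V) (F : ℕ → ℕ → Bool), Hom S.G 3 M0 y F → F 0 1 = true → F 1 0 = false →
      F 1 2 = true → F 2 1 = false → F 0 2 = F 2 0 → False := by
    intro y F hy h01 h10 h12 h21 h02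
    cases h11 : F 1 1
    · obtain ⟨-, -, h3, h4⟩ := hF.opI y F hy h11 h01 h10 h12 h21
      rw [h3, h4] at h02
      exact absurd h02 (by decide)
    · exact hF.opK y F hy h11 h01 h10 h12 h21
  have halt : ∀ j, j + 1 < r → (d (j + 1) ↔ ¬ d j) := by
    intro j hj
    have hsub := hom.sub (L' := 3) (fun i => j + i) (fun i hi => by omega)
    by_cases h0 : d j
    · by_cases h1 : d (j + 1)
      · exfalso
        exact key3 _ _ hsub ((hE' _ _).2 ((hs1 j (by omega)).2 h0))
          ((hEf _ _).2 fun h' => (hs2 j (by omega)).1 h' h0)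
          ((hE' _ _).2 ((hs1 (j + 1) (by omega)).2 h1))
          ((hEf _ _).2 fun h' => (hs2 (j + 1) (by omega)).1 h' h1) (hnon' j (j + 2) (by omega) (by omega))
      · exact iff_of_false h1 (not_not_intro h0)
    · by_cases h1 : d (j + 1)
      · exact iff_of_true h1 h0
      · exfalso
        exact key3 _ _ hsub.rev ((hE' _ _).2 ((hs2 j (by omega)).2 h0))
          ((hEf _ _).2 fun h' => h0 ((hs1 j (by omega)).1 h'))
          ((hE' _ _).2 ((hs2 (j + 1) (by omega)).2 h1))
          ((hEf _ _).2 fun h' => h1 ((hs1 (j + 1) (by omega)).1 h'))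
          (hnon' j (j + 2) (by omega) (by omega)).symm
  have hpar : ∀ j < r, (d j ↔ (d 0 ↔ j % 2 = 0)) := by
    intro j
    induction j with
    | zero =>
      intro _
      constructor
      · intro h0
        exact iff_of_true h0 rfl
      · intro h0
        exact h0.2 rfl
    | succ j ih =>
      intro hj
      have h1 := ih (by omega)
      have h2 := halt j hj
      rw [h2, h1]
      by_cases h0 : d 0
      · rcases Nat.mod_two_eq_zero_or_one j with h3 | h3
        · exact iff_of_false (fun h => h (iff_of_true h0 h3))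
            (fun h => absurd (h.1 h0) (by omega))
        · exact iff_of_true (fun h => absurd (h.1 h0) (by omega)) (iff_of_true h0 (by omega))
      · rcases Nat.mod_two_eq_zero_or_one j with h3 | h3
        · exact iff_of_true (fun h => h0 (h.2 h3)) (iff_of_false h0 (by omega))
        · exact iff_of_false (fun h => h (iff_of_false h0 (by omega)))
            (fun h => h0 (h.2 (by omega)))
  -- the distances
  have hdist : (∀ i, i + 3 ≤ r → E i (i + 3)) ∧ (∀ i, i + 5 ≤ r → E i (i + 5)) ∧ r ≤ 6 := by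
    by_cases h0 : d 0
    · have hT : Trk S.G (r + 1) M0 x E' := by
        refine ⟨hom, fun i hi h2 => ?_, fun i hi h2 => ?_, fun i j hij hj => hnon' i j hij (by omega)⟩
        · have h3 : d i := (hpar i (by omega)).2 (iff_of_true h0 h2)
          exact ⟨(hE' _ _).2 ((hs1 i (by omega)).2 h3), (hEf _ _).2 fun h' => (hs2 i (by omega)).1 h' h3⟩
        · have h3 : ¬ d i := fun h' => absurd (((hpar i (by omega)).1 h').1 h0) (by omega)
          exact ⟨(hEf _ _).2 fun h' => h3 ((hs1 i (by omega)).1 h'), (hE' _ _).2 ((hs2 i (by omega)).2 h3)⟩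
      obtain ⟨h1, h2, h3⟩ := trk_dist hF hT
      exact ⟨fun i hi => (hE' _ _).1 (h1 i hi), fun i hi => (hE' _ _).1 (h2 i hi), h3⟩
    · have hT : Trk S.G (r + 1) M0 (fun i k => x i (M0 - 1 - k)) (fun i j => E' j i) := by
        refine ⟨hom.rev, fun i hi h2 => ?_, fun i hi h2 => ?_,
          fun i j hij hj => (hnon' i j hij (by omega)).symm⟩
        · have h3 : ¬ d i := fun h' => h0 (((hpar i (by omega)).1 h').2 h2)
          exact ⟨(hE' _ _).2 ((hs2 i (by omega)).2 h3), (hEf _ _).2 fun h' => h3 ((hs1 i (by omega)).1 h')⟩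
        · have h3 : d i := (hpar i (by omega)).2 (iff_of_false h0 (by omega))
          exact ⟨(hEf _ _).2 fun h' => (hs2 i (by omega)).1 h' h3, (hE' _ _).2 ((hs1 i (by omega)).2 h3)⟩
      obtain ⟨h1, h2, h3⟩ := trk_dist hF hT
      exact ⟨fun i hi => (hnon i _ (by omega) (by omega)).2 ((hE' _ _).1 (h1 i hi)),
        fun i hi => (hnon i _ (by omega) (by omega)).2 ((hE' _ _).1 (h2 i hi)), h3⟩
  obtain ⟨hD3, hD5, hr6⟩ := hdist
  -- the last step
  obtain ⟨q, rfl⟩ : ∃ q, r = q + 1 := ⟨r - 1, by omega⟩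
  have hκ0 : κ 0 = κ (q + 1) := h.cb.k0
  have he0 : e 0 = e (q + 1) := h.cb.e0
  have hlast : d q ↔ ¬ e 0 = S.s (κ 0) (κ q) := by
    rw [hd q, he0, hκ0]
    exact (h.stp q (by omega)).2.1
  have hq0 : κ q ≠ κ 0 := by
    rw [hκ0]
    exact (h.stp q (by omega)).1
  have h10 : κ 1 ≠ κ 0 := (h.stp 0 (by omega)).1.symm
  have hC1 := (hClo V n S _ _ x κ e E 1 (by omega) h (by omega)).2
  have hCq := (hClo V n S _ _ x κ e E q (by omega) h (by omega)).2
  have hCr := (hClo V n S _ _ x κ e E (q + 1) (by omega) h (by omega)).1 hκ0.symm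
  rcases Nat.mod_two_eq_zero_or_one q with hq | hq
  · -- `r` odd
    have hdq : d q ↔ d 0 := by
      rw [hpar q (by omega)]
      exact ⟨fun h' => h'.2 hq, fun h' => iff_of_true h' hq⟩
    have h0r : E 0 (q + 1) := by
      have : q = 2 ∨ q = 4 := by omega
      rcases this with rfl | rfl
      · exact hD3 0 (by omega)
      · exact hD5 0 (by omega)
    have ht : S.t (κ 0) = true := hCr.2.1.1 h0r
    have h1 : d 0 ↔ e 0 = true := by
      rw [hd 0, hts (κ 0) _ ht]
    have h2 : d q ↔ ¬ e 0 = true := by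
      rw [hlast, hts (κ 0) _ ht]
    rw [h1, h2] at hdq
    by_cases h3 : e 0 = true
    · exact hdq.2 h3 h3
    · exact h3 (hdq.1 h3)
  · -- `r` even
    by_cases h0 : d 0
    · have h1 : ¬ E 1 (q + 1) := fun h' => (hs2 0 (by omega)).1
        (hC1.1 h10 ((hd 0).1 h0) (Or.inl h')).1 h0
      have h1' : ¬ E (q + 1) 1 := fun h' => (hs2 0 (by omega)).1
        (hC1.1 h10 ((hd 0).1 h0) (Or.inr h')).1 h0
      have : q = 1 ∨ q = 3 ∨ q = 5 := by omega
      rcases this with rfl | rfl | rfl
      · by_cases h2 : d 1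
        · exact h1 ((hs1 1 (by omega)).2 h2)
        · exact h1' ((hs2 1 (by omega)).2 h2)
      · exact h1 (hD3 1 (by omega))
      · exact h1 (hD5 1 (by omega))
    · have hdq : d q := (hpar q (by omega)).2 (iff_of_false h0 (by omega))
      have hne : e 0 ≠ S.s (κ 0) (κ q) := hlast.1 hdq
      have h1 : ¬ E 0 q := fun h' => (hs2 q (by omega)).1 (hCq.2 hq0 hne (Or.inr h')).2 hdq
      have h1' : ¬ E q 0 := fun h' => (hs2 q (by omega)).1 (hCq.2 hq0 hne (Or.inl h')).2 hdq
      have : q = 1 ∨ q = 3 ∨ q = 5 := by omega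
      rcases this with rfl | rfl | rfl
      · exact h1' ((hs2 0 (by omega)).2 h0)
      · exact h1 (hD3 0 (by omega))
      · exact h1 (hD5 0 (by omega))

end Pool.Agent.MPd439b2.R3
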