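import Pool.Agent.Lib.MP_d439b2_co.R3.SpecA

/-!
# MP_d439b2_co, R3, PartB: layouts or minimal homogeneous closed bundles
-/

set_option autoImplicit false

namespace Pool.Agent.MPd439b2.R3

open Pool.Agent.MPd439b2 Pool.Agent.MPd439b2.W Pool.Agent.MPd439b2.X2

theorem partB (h1 : S_Part) (h2 : X2.S_Main) : S_PartB := by
  intro m M
  obtain ⟨n, hn⟩ := h1 m
  obtain ⟨N, hN⟩ := h2 n M
  refine ⟨N, n, ?_⟩
  intro V _ G hM hC f1 f2 f3 f4
  obtain ⟨S, hS, ht⟩ := hn V G hM hC f1 f2 f3 f4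
  rcases hN V S with h | ⟨r, x, κ, e, E, hb, h2r, hns⟩
  · left
    rw [← hS]
    exact h
  · right
    exact ⟨S, r, x, κ, e, E, hS, ht, hb, h2r, hns⟩

end Pool.Agent.MPd439b2.R3
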