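import Pool.Agent.Lib.MP_d439b2_co.R3.SpecB

/-!
# MP_d439b2_co, R3, B2: layouts or minimal closed bundles from the finite facts
-/

set_option autoImplicit false

namespace Pool.Agent.MPd439b2.R3

open Pool.Agent.MPd439b2 Pool.Agent.MPd439b2.W Pool.Agent.MPd439b2.X2

theorem partF (h1 : S_FF) (h2 : S_PartB) : S_PartF := by
  intro m M
  obtain ⟨m₁, hm₁⟩ := h1 m
  obtain ⟨N, n, hN⟩ := h2 (max m m₁) M
  refine ⟨N, n, fun V _ G hF hMat hCom => ?_⟩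
  obtain ⟨f1, f2, f3, f4⟩ := hm₁ V G hF hCom
  have hm : m ≤ max m m₁ := le_max_left _ _
  have hm1 : m₁ ≤ max m m₁ := le_max_right _ _
  refine hN V G ?_ ?_ ?_ ?_ ?_ ?_
  · rintro ⟨a, b, h⟩
    exact hMat ⟨a, b, fun i hi j hj => h i (lt_of_lt_of_le hi hm) j (lt_of_lt_of_le hj hm)⟩
  · rintro ⟨a, b, h⟩
    exact hCom ⟨a, b, fun i hi j hj => h i (lt_of_lt_of_le hi hm) j (lt_of_lt_of_le hj hm)⟩
  · rintro ⟨a, b, h⟩
    exact f1 ⟨a, b, fun i hi j hj => h i (lt_of_lt_of_le hi hm1) j (lt_of_lt_of_le hj hm1)⟩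
  · rintro ⟨x, u, w, h⟩
    exact f2 ⟨x, u, w, fun i hi j hj => h i (lt_of_lt_of_le hi hm1) j (lt_of_lt_of_le hj hm1)⟩
  · rintro ⟨x, u, w, h⟩
    exact f3 ⟨x, u, w, fun i hi j hj => h i (lt_of_lt_of_le hi hm1) j (lt_of_lt_of_le hj hm1)⟩
  · rintro ⟨x, u, w, h⟩
    exact f4 ⟨x, u, w, fun i hi j hj => h i (lt_of_lt_of_le hi hm1) j (lt_of_lt_of_le hj hm1)⟩

end Pool.Agent.MPd439b2.R3
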