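import Pool.Agent.Lib.MP_d439b2_co.R3.FactA
import Pool.Agent.Lib.MP_d439b2_co.R3.FactB
import Pool.Agent.Lib.MP_d439b2_co.R3.FactC
import Pool.Agent.Lib.MP_d439b2_co.R3.NoHB
import Pool.Agent.Lib.MP_d439b2_co.R3.PartF
import Pool.Agent.Lib.MP_d439b2_co.R3.PartB
import Pool.Agent.Lib.MP_d439b2_co.R3.FF
import Pool.Agent.Lib.MP_d439b2_co.X2.Final

/-!
# MP_d439b2_co, R3: Theorem C (note 2767), assembly (helper32)
-/

set_option autoImplicit false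

namespace Pool.Agent.MPd439b2.R3

open Pool.Agent.MPd439b2

/-- **Theorem C, general form**: the finite facts, no long matching and no long co-matching give layouts -/
def S_ThmC : Prop := ∀ m : ℕ, ∃ N : ℕ, ∀ (V : Type) [Finite V] (G : SimpleGraph V), Facts G →
  ¬ X2.MatP G m → ¬ X2.ComP G m → Lay G N Set.univ

theorem thmC (h1 : S_PartF) (h2 : S_NoHB) : S_ThmC := by
  intro m
  obtain ⟨N, n, hN⟩ := h1 m M0
  refine ⟨N, fun V _ G hF hM hC => ?_⟩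
  rcases hN V G hF hM hC with h | ⟨S, r, x, κ, e, E, rfl, hts, hHB, hr, hns⟩
  · exact h
  · exact (h2 V n S r x κ e E hF (fun i j hi => hts i hi j) hHB hr hns).elim

/-- **Theorem C** for `K4:0,1` -/
theorem thmC0 (h : S_ThmC) (m : ℕ) : ∃ N : ℕ, ∀ (V : Type) [Finite V] (G : SimpleGraph V),
    ¬ IMS (KA 4 2 ![{0}, {1}]) G Set.univ → ¬ IMS (F9.JS ![0, 1, 1] 4) G Set.univ →
    ¬ X2.MatP G m → ¬ X2.ComP G m → Lay G N Set.univ := by
  obtain ⟨N, hN⟩ := h m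
  exact ⟨N, fun V _ G hH hJ => hN V G (facts0 hH hJ)⟩

/-- **Theorem C** for `K3:0,01,12` -/
theorem thmC1 (h : S_ThmC) (m : ℕ) : ∃ N : ℕ, ∀ (V : Type) [Finite V] (G : SimpleGraph V),
    ¬ IMS (KA 3 3 ![{0}, {0, 1}, {1, 2}]) G Set.univ → ¬ IMS (F9.JS ![0, 1, 1] 4) G Set.univ →
    ¬ X2.MatP G m → ¬ X2.ComP G m → Lay G N Set.univ := by
  obtain ⟨N, hN⟩ := h m
  exact ⟨N, fun V _ G hH hJ => hN V G (facts1 hH hJ)⟩

/-- **Theorem C** for `K3:0,1,02` -/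
theorem thmC2 (h : S_ThmC) (m : ℕ) : ∃ N : ℕ, ∀ (V : Type) [Finite V] (G : SimpleGraph V),
    ¬ IMS (KA 3 3 ![{0}, {1}, {0, 2}]) G Set.univ → ¬ IMS (F9.JS ![0, 1, 1] 4) G Set.univ →
    ¬ X2.MatP G m → ¬ X2.ComP G m → Lay G N Set.univ := by
  obtain ⟨N, hN⟩ := h m
  exact ⟨N, fun V _ G hH hJ => hN V G (facts2 hH hJ)⟩

/-- Theorem C from the partition theorem A11 -/
theorem thmC_of_part (h : S_Part) : S_ThmC :=
  thmC (partF (fF W.ramC) (partB h X2.mainF)) (noHB X2.nonX X2.clo)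

end Pool.Agent.MPd439b2.R3
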