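import Pool.Agent.Lib.MP_d439b2_co.R3.SpecA

/-!
# MP_d439b2_co, R3, A10: the partition of one stable class
-/

set_option autoImplicit false

namespace Pool.Agent.MPd439b2.R3

open Pool.Agent.MPd439b2 Pool.Agent.MPd439b2.W Pool.Agent.MPd439b2.X2

namespace zClassAux

theorem rk_empty {V : Type} (G : SimpleGraph V) (ρ : V → ℕ) : Rk G (∅ : Set V) ρ :=
  ⟨fun x hx => absurd hx (Set.notMem_empty x), fun x hx => absurd hx (Set.notMem_empty x),
    fun x hx => absurd hx (Set.notMem_empty x)⟩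

/-- the signs for a value of the first function -/
def sg {w q : ℕ} (σ : Fin w → Fin w → Fin q → Bool) (δ : Fin w → Fin w → Fin q) (a b : Fin w) :
    Bool :=
  if a < b then σ a b (δ a b) else if b < a then σ b a (δ b a) else true

theorem sg_lt {w q : ℕ} (σ : Fin w → Fin w → Fin q → Bool) (δ : Fin w → Fin w → Fin q)
    {a b : Fin w} (h : a < b) : sg σ δ a b = σ a b (δ a b) := by
  unfold sg
  rw [if_pos h]

theorem sg_gt {w q : ℕ} (σ : Fin w → Fin w → Fin q → Bool) (δ : Fin w → Fin w → Fin q)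
    {a b : Fin w} (h : b < a) : sg σ δ a b = σ b a (δ b a) := by
  unfold sg
  rw [if_neg (lt_asymm h), if_pos h]

theorem sg_symm {w q : ℕ} (σ : Fin w → Fin w → Fin q → Bool) (δ : Fin w → Fin w → Fin q)
    (a b : Fin w) : sg σ δ a b = sg σ δ b a := by
  rcases lt_trichotomy a b with h | h | h
  · rw [sg_lt σ δ h, sg_gt σ δ h]
  · rw [h]
  · rw [sg_lt σ δ h, sg_gt σ δ h]

end zClassAux

open zClassAux in
/-- **A10.** The partition of one stable class. -/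
theorem zClass (h1 : S_Sgn) (h2 : S_Bal) : S_ZClass := by
  intro m w
  obtain ⟨q₁, hq₁⟩ := h1 m
  obtain ⟨q₂, hq₂⟩ := h2 w
  obtain ⟨e⟩ : Nonempty (((Fin w → Fin w → Fin q₁) × Fin q₂) ≃
      Fin (Fintype.card ((Fin w → Fin w → Fin q₁) × Fin q₂))) := ⟨Fintype.equivFin _⟩
  refine ⟨Fintype.card ((Fin w → Fin w → Fin q₁) × Fin q₂), ?_⟩
  intro V _ G Z C ρ hF3 hF4 hZ hZC hCC hR
  have A7 : ∀ a b : Fin w, ∃ (c : V → Fin q₁) (σ : Fin q₁ → Bool), a < b →
      ∀ v ∈ Z, ∀ u ∈ Z, c v = c u → nn G (C a) v < nn G (C a) u →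
        (σ (c v) = true → nn G (C b) v ≤ nn G (C b) u) ∧
        (σ (c v) = false → nn G (C b) u ≤ nn G (C b) v) := by
    intro a b
    by_cases hab : a < b
    · obtain ⟨c, σ, h⟩ := hq₁ V G Z (C a) (C b) ρ hF3 hF4 hZ (hZC a) (hZC b) (hCC a b hab.ne)
        (hR a) (hR b)
      exact ⟨c, σ, fun _ => h⟩
    · obtain ⟨c, σ, _⟩ := hq₁ V G Z ∅ ∅ ρ hF3 hF4 hZ (Set.disjoint_empty _)
        (Set.disjoint_empty _) (Set.disjoint_empty _) (rk_empty G ρ) (rk_empty G ρ)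
      exact ⟨c, σ, fun h => absurd h hab⟩
  choose c₁ σ₁ hc₁ using A7
  obtain ⟨d, hd⟩ : ∃ d : V → Fin w → Fin w → Fin q₁, d = fun x a b => c₁ a b x := ⟨_, rfl⟩
  have hdx : ∀ x a b, d x a b = c₁ a b x := fun x a b => by rw [hd]
  have A9 : ∀ δ : Fin w → Fin w → Fin q₁, ∃ (c : V → Fin q₂) (t : Fin q₂ → Fin w → Bool)
      (ρ' : V → ℕ), ∀ x ∈ {x | x ∈ Z ∧ d x = δ}, ∀ y ∈ {x | x ∈ Z ∧ d x = δ}, c x = c y → x ≠ y →
        ρ' x ≠ ρ' y ∧ (ρ' x < ρ' y → ∀ a, (t (c x) a = true → nn G (C a) x ≤ nn G (C a) y) ∧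
          (t (c x) a = false → nn G (C a) y ≤ nn G (C a) x)) := by
    intro δ
    refine hq₂ V {x | x ∈ Z ∧ d x = δ} (fun a => nn G (C a)) (sg σ₁ δ) (sg_symm σ₁ δ) ?_
    intro a b hab x hx y hy hxy
    have hxc : ∀ a b, c₁ a b x = δ a b := fun a b => by rw [← hdx, hx.2]
    have hyc : ∀ a b, c₁ a b y = δ a b := fun a b => by rw [← hdx, hy.2]
    rcases lt_or_gt_of_ne hab with h | h
    · have h3 := hc₁ a b h x hx.1 y hy.1 (by rw [hxc, hyc]) hxy
      rw [hxc] at h3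
      rw [sg_lt σ₁ δ h]
      exact h3
    · rw [sg_gt σ₁ δ h]
      constructor
      · intro hs
        by_contra hn
        have h3 := (hc₁ b a h y hy.1 x hx.1 (by rw [hxc, hyc]) (not_le.mp hn)).1
        rw [hyc] at h3
        exact absurd hxy (not_lt.mpr (h3 hs))
      · intro hs
        by_contra hn
        have h3 := (hc₁ b a h x hx.1 y hy.1 (by rw [hxc, hyc]) (not_le.mp hn)).2
        rw [hxc] at h3
        exact absurd hxy (not_lt.mpr (h3 hs))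
  choose c₂ t₂ ρ₂ hc₂ using A9
  refine ⟨fun x => e (d x, c₂ (d x) x), fun i a => t₂ (e.symm i).1 (e.symm i).2 a,
    fun x => ρ₂ (d x) x, ?_⟩
  intro x hx y hy hxy hne
  have h3 := Prod.mk.inj (e.injective hxy)
  have h4 : c₂ (d x) x = c₂ (d x) y := by
    rw [h3.2, h3.1]
  have h5 := hc₂ (d x) x ⟨hx, rfl⟩ y ⟨hy, h3.1.symm⟩ h4 hne
  beta_reduce
  rw [Equiv.symm_apply_apply, ← h3.1]
  exact h5

end Pool.Agent.MPd439b2.R3
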