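import Pool.Agent.Lib.MP_d439b2_co.R3.AClass
import Pool.Agent.Lib.MP_d439b2_co.R3.AntiC
import Pool.Agent.Lib.MP_d439b2_co.R3.BClass
import Pool.Agent.Lib.MP_d439b2_co.R3.Bal
import Pool.Agent.Lib.MP_d439b2_co.R3.Pairs
import Pool.Agent.Lib.MP_d439b2_co.R3.Part
import Pool.Agent.Lib.MP_d439b2_co.R3.Rows
import Pool.Agent.Lib.MP_d439b2_co.R3.Sgn
import Pool.Agent.Lib.MP_d439b2_co.R3.Split
import Pool.Agent.Lib.MP_d439b2_co.R3.ThmC
import Pool.Agent.Lib.MP_d439b2_co.R3.Three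
import Pool.Agent.Lib.MP_d439b2_co.R3.ZClass

/-!
# MP_d439b2_co, R3: Theorem C (note 2767), final form without hypotheses (helper32)
-/

set_option autoImplicit false

namespace Pool.Agent.MPd439b2.R3

open Pool.Agent.MPd439b2

theorem ram3F : X2.S_Ram3 := X2.ram3 W.ramC

/-- **A11**, the staircase partition -/
theorem partF' : S_Part :=
  part (split pairs W.ramC) (aClass (rows ram3F) W.ramC) (bClass (antiC ram3F) W.dil W.ramC)
    (zClass sgn (bal three))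

/-- **Theorem C**, general form -/
theorem thmCF : S_ThmC := thmC_of_part partF'

/-- **Theorem C** for `K4:0,1` -/
theorem thmC0F (m : ℕ) : ∃ N : ℕ, ∀ (V : Type) [Finite V] (G : SimpleGraph V),
    ¬ IMS (KA 4 2 ![{0}, {1}]) G Set.univ → ¬ IMS (F9.JS ![0, 1, 1] 4) G Set.univ →
    ¬ X2.MatP G m → ¬ X2.ComP G m → Lay G N Set.univ := thmC0 thmCF m

/-- **Theorem C** for `K3:0,01,12` -/
theorem thmC1F (m : ℕ) : ∃ N : ℕ, ∀ (V : Type) [Finite V] (G : SimpleGraph V),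
    ¬ IMS (KA 3 3 ![{0}, {0, 1}, {1, 2}]) G Set.univ → ¬ IMS (F9.JS ![0, 1, 1] 4) G Set.univ →
    ¬ X2.MatP G m → ¬ X2.ComP G m → Lay G N Set.univ := thmC1 thmCF m

/-- **Theorem C** for `K3:0,1,02` -/
theorem thmC2F (m : ℕ) : ∃ N : ℕ, ∀ (V : Type) [Finite V] (G : SimpleGraph V),
    ¬ IMS (KA 3 3 ![{0}, {1}, {0, 2}]) G Set.univ → ¬ IMS (F9.JS ![0, 1, 1] 4) G Set.univ →
    ¬ X2.MatP G m → ¬ X2.ComP G m → Lay G N Set.univ := thmC2 thmCF m

end Pool.Agent.MPd439b2.R3
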