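import Pool.Agent.Lib.MP_d439b2_co.X2.SpecA

/-!
# MP_d439b2_co, R3, Spec A: the staircase partition (helper32, helper85)

Sections 1 to 4 of Theorem C (note 2767): a graph without long matchings and co-matchings, without long half
graphs between two stable sets, without opposite half graphs at a clique, and without two patterns at a stable
centre, has a staircase structure (`X2.St`) with boundedly many classes.

Every `S_...` is a statement to be proved in its own file `R3/<Name>.lean`; the docstring contains the complete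
proof.
-/

set_option autoImplicit false

namespace Pool.Agent.MPd439b2.R3

open Pool.Agent.MPd439b2 Pool.Agent.MPd439b2.W Pool.Agent.MPd439b2.X2

section defs

variable {V : Type}

/-- no half graph of size `m` between two stable sets -/
def F1 (G : SimpleGraph V) (m : ℕ) : Prop := ¬ ∃ a b : ℕ → V, ∀ i < m, ∀ j < m, a i ≠ b j ∧
  (i ≠ j → a i ≠ a j ∧ b i ≠ b j ∧ ¬ G.Adj (a i) (a j) ∧ ¬ G.Adj (b i) (b j)) ∧
  (G.Adj (a i) (b j) ↔ i ≤ j)

/-- no two opposite half graphs of size `m` at a clique `x` -/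
def F2 (G : SimpleGraph V) (m : ℕ) : Prop := ¬ ∃ x u w : ℕ → V, ∀ i < m, ∀ j < m,
  x i ≠ u j ∧ x i ≠ w j ∧ u i ≠ w j ∧ (i ≠ j → G.Adj (x i) (x j) ∧ u i ≠ u j ∧ w i ≠ w j) ∧
  (G.Adj (u i) (x j) ↔ j ≤ i) ∧ (G.Adj (w i) (x j) ↔ i ≤ j)

/-- no stable set `v` of size `m` with two cliques `b`, `b'` and opposite half graphs, where `b i` is adjacent
to `b' i` -/
def F3 (G : SimpleGraph V) (m : ℕ) : Prop := ¬ ∃ v b b' : ℕ → V, ∀ i < m, ∀ j < m,
  v i ≠ b j ∧ v i ≠ b' j ∧ b i ≠ b' j ∧
  (i ≠ j → v i ≠ v j ∧ ¬ G.Adj (v i) (v j) ∧ G.Adj (b i) (b j) ∧ G.Adj (b' i) (b' j)) ∧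
  (G.Adj (v i) (b j) ↔ i < j) ∧ (G.Adj (v i) (b' j) ↔ j < i) ∧ G.Adj (b i) (b' i)

/-- no stable set `v` of size `m` with two cliques `b`, `b'` and half graphs of the same direction, where
`b i` is not adjacent to `b' i` -/
def F4 (G : SimpleGraph V) (m : ℕ) : Prop := ¬ ∃ v b b' : ℕ → V, ∀ i < m, ∀ j < m,
  v i ≠ b j ∧ v i ≠ b' j ∧ b i ≠ b' j ∧
  (i ≠ j → v i ≠ v j ∧ ¬ G.Adj (v i) (v j) ∧ G.Adj (b i) (b j) ∧ G.Adj (b' i) (b' j)) ∧
  (G.Adj (v i) (b j) ↔ i < j) ∧ (G.Adj (v i) (b' j) ↔ i < j) ∧ ¬ G.Adj (b i) (b' i)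

/-- `T` is stable -/
def Stb (G : SimpleGraph V) (T : Finset V) : Prop := ∀ x ∈ T, ∀ y ∈ T, ¬ G.Adj x y

/-- `K` is a clique -/
def Clq (G : SimpleGraph V) (K : Finset V) : Prop := ∀ x ∈ K, ∀ y ∈ K, x ≠ y → G.Adj x y

/-- `C` is a clique with nested neighbourhoods, ordered by `ρ`: vertices with larger `ρ` see more -/
structure Rk (G : SimpleGraph V) (C : Set V) (ρ : V → ℕ) : Prop where
  cl : ∀ x ∈ C, ∀ y ∈ C, x ≠ y → G.Adj x y
  inj : ∀ x ∈ C, ∀ y ∈ C, ρ x = ρ y → x = y
  mono : ∀ x ∈ C, ∀ y ∈ C, ρ x ≤ ρ y → ∀ z, G.Adj z x → z ≠ y → G.Adj z y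

/-- the number of non-neighbours of `v` in `C` -/
noncomputable def nn (G : SimpleGraph V) (C : Set V) (v : V) : ℕ := {x | x ∈ C ∧ ¬ G.Adj v x}.ncard

end defs

/-- **A1.** Greedy choice of disjoint stable sets.

Proof. By induction on `t ≤ s` we construct `x a i` (`a < k`, `i < t`).  Let it be constructed for `t < s`, let
`U` be the set of the `x a i` with `1 ≤ a < k`, `i < t` (it has `t * (k - 1)` elements, all in `B`), `L` the set of
the `x 0 i`, `i < t`.  `B' = (B \ U) ∪ (K \ L)` has `|B| - t * (k - 1) + |K| - t > |B|` elements (`K` and `B` are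
disjoint, `s * k < |K|`).  So by the maximality of `B` there is a stable `T ⊆ B'` with at least `k` elements; we may
take exactly `k`.  `T ∩ K` has at most one element (`K` is a clique), and it is not empty, as otherwise `T ⊆ B`,
contradicting the hypothesis on `B`.  So `T = {v} ∪ S` with `v ∈ K \ L`, `S ⊆ B \ U`, `|S| = k - 1`; put `x 0 t = v` and
enumerate `S` as `x 1 t, .., x (k - 1) t`. -/
def S_Pairs : Prop := ∀ (V : Type) [Finite V] (G : SimpleGraph V) (k s : ℕ) (B K : Finset V),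
  1 ≤ k → (∀ T ⊆ B, Stb G T → T.card < k) →
  (∀ B' : Finset V, (∀ T ⊆ B', Stb G T → T.card < k) → B'.card ≤ B.card) →
  Disjoint K B → Clq G K → s * k < K.card →
  ∃ x : ℕ → ℕ → V, (∀ i < s, x 0 i ∈ K) ∧ (∀ a < k, 1 ≤ a → ∀ i < s, x a i ∈ B) ∧
    (∀ a < k, ∀ b < k, ∀ i < s, ∀ j < s, (a ≠ b ∨ i ≠ j) → x a i ≠ x b j) ∧
    ∀ a < k, ∀ b < k, ∀ i < s, ¬ G.Adj (x a i) (x b i)

/-- **A2.** The split lemma (uses A1 and `W.S_RamC`).

Proof. `m ≥ 1` without loss of generality (for `m = 0` `MatP G 0` is true).  `k` = the number of `W.S_RamC` for `m`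
and four colours (`Bool × Bool`), plus `m + 2`; `q = 2 * k + m + 2`; `s` = the number of `W.S_RamC` for `q` and the
colours `Fin k → Fin k → Bool`; `R = s * k + 1`.  Let `B` be a set of maximum size without stable subsets of size
`k` (the empty set is one).  Suppose that there is a clique `K`, disjoint from `B`, with at least `R` elements.  A1
gives `x`.  `W.S_RamC`: after passing to `q` indices `i` (rename) `G.Adj (x a i) (x b j) ↔ E a b` for all `i < j < q`,
`a, b < k`.
(1) `E a a` is true: for `a = 0` as `K` is a clique; for `a ≥ 1` otherwise `{x a i | i < k}` would be a stable subset of `B`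
with `k` elements.
(2) For `a ≠ b` not both `E a b`, `E b a`: otherwise `x a i ~ x b j` iff `i ≠ j`: `ComP G m`.
(3) `W.S_RamC` for the colours `(E a b, E b a)`, `a < b`: there are `a 0 < .. < a (m - 1) < k` with the same colour.
Colour `(0, 0)` or `(0, 1)`: let `p c = x (a c) (2 c)`, `p' c = x (a c) (2 c + 1)`, `c < m`: adjacent by (1); for `c < d`:
`p c`, `p' d` have indices `2 c < 2 d + 1` and `E (a c) (a d) = 0`: not adjacent; `p' c`, `p d`: `2 c + 1 < 2 d`: not
adjacent.  So `p c ~ p' d` iff `c = d`: `MatP G m`.  Colour `(1, 0)`: the same with the indices `2 (m - c)` and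
`2 (m - c) + 1`: for `c < d` the index of `d` is smaller and `E (a d) (a c) = 0`. -/
def S_Split : Prop := ∀ m : ℕ, ∃ k R : ℕ, ∀ (V : Type) [Finite V] (G : SimpleGraph V),
  ¬ MatP G m → ¬ ComP G m → ∃ B : Finset V, (∀ T ⊆ B, Stb G T → T.card < k) ∧
    ∀ K : Finset V, Disjoint K B → Clq G K → K.card < R

/-- **A3.** Large antichains of the vicinal preorder: the centre of the opposite half graphs consists of given
vertices (uses `X2.S_Ram3`).

Proof. Copy of `X2/Anti.lean` with the additional information that the vertices `x' i` of the opposite half graphs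
are `x (φ i)`, `φ i = s (3 i + 4)`. -/
def S_AntiC : Prop := ∀ m : ℕ, ∃ M : ℕ, ∀ (V : Type) (G : SimpleGraph V) (x : ℕ → V),
  (∀ k < M, ∀ l < M, k ≠ l → ¬ G.neighborSet (x k) ⊆ insert (x l) (G.neighborSet (x l))) →
  MatP G m ∨ ComP G m ∨ ∃ (φ : ℕ → ℕ) (u w : ℕ → V), (∀ i < m, φ i < M) ∧
    ∀ i < m, ∀ j < m, x (φ i) ≠ u j ∧ x (φ i) ≠ w j ∧ u i ≠ w j ∧
    (i ≠ j → φ i ≠ φ j ∧ x (φ i) ≠ x (φ j) ∧ u i ≠ u j ∧ w i ≠ w j) ∧
    (G.Adj (u i) (x (φ j)) ↔ j ≤ i) ∧ (G.Adj (w i) (x (φ j)) ↔ i ≤ j)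

/-- **A4.** Many different rows (uses `X2.S_Ram3`).

Proof. As the first half of `X2/Anti.lean`.  `M` = the number of `X2.S_Ram3` for `n = 2 * m + 4` and the colours
(truth values): for `i < j < k`: `y i j ~ x i`, `y i j ~ x k`, `y i k ~ x j`, `y j k ~ x i` (four values).  After
`X2.S_Ram3` (rename `x (s i)` to `x i`, `y (s i) (s j)` to `y i j`) all these are constant: `c₀, c₃, c₂, c₁`.
Case `c₀ = 1`: `y i j` sees `x i` and misses `x j`, for `i < j < n - 1`.  The cases of `X2/Anti.lean` (`ant_half`): `c₃ = 1`,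
`c₂ = 1`: `z i = y 0 (i + 1)`, `φ i = i + 1` (co-matching); `c₃ = 1`, `c₂ = 0`, `c₁ = 1`: `z i = y (2 i) (2 i + 1)`,
`φ i = 2 i + 1` (co-matching); `c₃ = 1`, `c₂ = 0`, `c₁ = 0`: `z i = y i (n - 2)`, `φ i = i` (matching); `c₃ = 0`, `c₁ = 0`:
`z i = y (2 i) (2 i + 1)`, `φ i = 2 i` (matching); `c₃ = 0`, `c₁ = 1`: `z i = y (2 i) (2 i + 1)`, `φ i = 2 i`: `z k`
sees `x (φ l)` iff `l ≤ k`.
Case `c₀ = 0`: `y i j` misses `x i` and sees `x j` (`i < j < n - 1`): reverse the order, `x' i = x (n - 2 - i)`,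
`y' i j = y (n - 2 - j) (n - 2 - i)`, `c₁' = c₃`, `c₂' = c₂`, `c₃' = c₁`: the same cases, except that the last one has
`φ` decreasing; use `φ' k = φ (m - 1 - k)`, `z' k = z (m - 1 - k)`: `z' k` sees `x (φ' l)` iff `k ≤ l`; in the first four
cases the same reversal makes `φ'` increasing and keeps matchings and co-matchings.
(The vertices `z k` are different as they see different sets, except for `m ≤ 1` where nothing is to be shown.) -/
def S_Rows : Prop := ∀ m : ℕ, ∃ M : ℕ, ∀ (V : Type) (G : SimpleGraph V) (x : ℕ → V)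
  (y : ℕ → ℕ → V), (∀ i j, i < j → j < M → (G.Adj (y i j) (x i) ↔ ¬ G.Adj (y i j) (x j))) →
  ∃ (φ : ℕ → ℕ) (z : ℕ → V), (∀ k l, k < l → l < m → φ k < φ l) ∧ (∀ k < m, φ k < M) ∧
    (∀ k < m, ∃ i j, i < j ∧ j < M ∧ z k = y i j) ∧
    ((∀ k < m, ∀ l < m, (G.Adj (z k) (x (φ l)) ↔ k = l)) ∨
     (∀ k < m, ∀ l < m, (G.Adj (z k) (x (φ l)) ↔ k ≠ l)) ∨
     (∀ k < m, ∀ l < m, (G.Adj (z k) (x (φ l)) ↔ l ≤ k)) ∨
     (∀ k < m, ∀ l < m, (G.Adj (z k) (x (φ l)) ↔ k ≤ l)))

/-- **A5.** The part with small cliques has few different rows (uses A4 and `W.S_RamC`).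

Proof. Let `m₁` be the number of `W.S_RamC` for `max m R + 2` and two colours, `m₂ = m₁ + m`, `M` the number of A4 for
`m₂`, `M'` the number of `W.S_RamC` for `max M R + 1` and two colours; `p = M' + 1`.  If the sets
`N(v) ∩ A`, `v ∈ A`, are at most `M'` many, number them.  Otherwise there are `x 0, .., x (M' - 1) ∈ A` with
different sets.  By `W.S_RamC` (adjacent or not) there are `max M R + 1` of them which form a clique (impossible:
no clique of size `R` in `A`) or are pairwise not adjacent; rename: `x i` (`i < M`) stable.  For `i < j` let `y i j ∈ A`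
be in exactly one of `N(x i)`, `N(x j)`.  `y i j` is not one of the `x k` (these are not adjacent to `x i`, `x j`).
A4: `φ`, `z`, `m₂` indices.  The `z k` are pairwise different (for `k ≠ l`, as they see different sets of the
`x (φ l)`; `m₂ ≥ 2`), all in `A`.  Matching: `MatP G m`; co-matching: `ComP G m` (both with `a l = x (φ l)`,
`b k = z k`).  Half graphs: by `W.S_RamC` we get `max m R` indices `k` for which the `z k` are a clique (impossible)
or stable; then `F1 G m` fails: for `z k ~ x (φ l)` iff `l ≤ k` take `a l = x (φ l)`, `b k = z k`; for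
`k ≤ l` take `a k = z k`, `b l = x (φ l)` (renamed indices). -/
def S_AClass : Prop := ∀ m R : ℕ, ∃ p : ℕ, ∀ (V : Type) [Finite V] (G : SimpleGraph V) (A : Set V),
  ¬ MatP G m → ¬ ComP G m → F1 G m →
  (∀ K : Finset V, (K : Set V) ⊆ A → Clq G K → K.card < R) →
  ∃ c : V → Fin p, ∀ x ∈ A, ∀ y ∈ A, c x = c y → ∀ z ∈ A, (G.Adj x z ↔ G.Adj y z)

/-- **A6.** The part with small stable sets is a union of few nested cliques (uses A3, `W.S_Dil`, `W.S_RamC`).

Proof. Let `M` be the number of A3 for `m`, `w` the number of `W.S_RamC` for `max M k + 1` and two colours.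
(1) Every set of more than `w` elements of `B` contains `x ≠ y` with `N(x) ⊆ N[y]`: otherwise, by `W.S_RamC` it
contains `max M k + 1` vertices which are stable (impossible as `B` has no stable subset of size `k`) or form a clique
`x 0, x 1, ..`, an antichain of the vicinal preorder; A3 gives `MatP G m`, `ComP G m`, or a violation of `F2 G m`
(`x (φ i)`, `x (φ j)` are adjacent).
(2) As in `X2/VicSt.lean` (proof of `X2.S_VicSt`): let `x ≤' y` be the vicinal preorder with ties broken by an injection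
`ι : V → ℕ`, restricted to `B` (the subtype); its antichains have at most `w` elements, and `W.S_Dil` gives a
partition `c₀ : B → Fin w` into chains.  In a chain let `K = {x | ∃ y <' x in the chain, Adj x y}`: a clique; the
rest of the chain is stable, so it has less than `k` elements; number them injectively by `j : .. → Fin k` (`k ≥ 1`
if there is any element).
(3) `c x` = the pair of `c₀ x` and `none` if `x ∈ K`, `some (j x)` otherwise, in `Fin w × Option (Fin k)`, which has
`w * (k + 1)` elements; let `n = w * (k + 1) + 1` and use an injection to `Fin n`; `ρ x` = the number of the `z ∈ B` with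
`z <' x`.  Classes: `K`-parts are cliques; the other ones have one element.  `inj`: in a chain `x <' y` implies
`ρ x < ρ y`.  `mono`: `x, y` in one class, `ρ x ≤ ρ y`, so `x = y` or `x <' y`, and `N(x) ⊆ N[y]`. -/
def S_BClass : Prop := ∀ m k : ℕ, ∃ n : ℕ, ∀ (V : Type) [Finite V] (G : SimpleGraph V) (B : Finset V),
  ¬ MatP G m → ¬ ComP G m → F2 G m → (∀ T ⊆ B, Stb G T → T.card < k) →
  ∃ (c : V → Fin n) (ρ : V → ℕ), ∀ i, Rk G {x | x ∈ B ∧ c x = i} ρ

/-- **A7.** The signs of two nested cliques at a stable set.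

Proof. For `v ∉ C`, `Rk G C ρ`: the neighbours of `v` in `C` are closed upwards for `ρ` (`mono`; `v ≠ y`).  So for
`v, w ∉ C`: `nn G C v ≤ nn G C w` iff every neighbour of `w` in `C` is a neighbour of `v` (both sets of non-neighbours
are initial segments of `C`, which are nested), and if `nn G C v < nn G C w` then there is `x ∈ C` adjacent to `v`
and not to `w`.  If `nn G C v > 0` let `l_C(v)` be the non-neighbour of `v` in `C` with the largest `ρ`; for
`v, w` with positive values: `w` is adjacent to `l_C(v)` iff `nn G C w < nn G C v` (if `nn w < nn v` then `l_C(v)`, the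
element of `C` of rank `nn v`, is not among the `nn w` lowest ones).
Let `sgn v` be: `l_A(v)` and `l_B(v)` are adjacent.  The type of `v ∈ Z` is (`nn A v = 0`, `nn B v = 0`, `sgn v`).  For `v, w`
of the same type with positive values let `v ⊲ w` mean `nn A v < nn A w` and (`nn B w < nn B v` if `sgn`,
`nn B v < nn B w` if not `sgn`).  This is transitive.
CLAIM: there are no `v 0 ⊲ v 1 ⊲ .. ⊲ v (m - 1)` in `Z` of the same type.  Let `b i = l_A(v i)`, `b' i = l_B(v i)`.
`v i ~ b j` iff `nn A (v i) < nn A (v j)` iff `i < j`.  If `sgn`: `v i ~ b' j` iff `nn B (v i) < nn B (v j)` iff `j < i`, and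
`b i ~ b' i`: contradiction to `F3 G m`.  If not `sgn`: `v i ~ b' j` iff `i < j`, `b i` not `~ b' i`: contradiction to
`F4 G m`.  (The `b i` are different as they have different ranks, in a clique; the sets `Z, A, B` are disjoint.)
Let `h v` be the largest `t` such that there are `v 0 ⊲ .. ⊲ v t = v` of this type in `Z`; `h v < m`.  `c v` = (type, `h v`),
in `Bool × Bool × Bool × Fin (m + 1)` (for values `0` put `h v = 0`), `q = 8 * (m + 1)`; `σ` of the class = `sgn`.
Let `c v = c w`, `nn A v < nn A w`.  Then `nn A w > 0`, so `nn A v > 0` (same type).  If `nn B v = 0` then `nn B w = 0`: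
clear.  Otherwise not `v ⊲ w` (otherwise `h v < h w`): if `sgn` then `nn B v ≤ nn B w`; if not `sgn` then
`nn B w ≤ nn B v`. -/
def S_Sgn : Prop := ∀ m : ℕ, ∃ q : ℕ, ∀ (V : Type) [Finite V] (G : SimpleGraph V) (Z A B : Set V)
  (ρ : V → ℕ), F3 G m → F4 G m → (∀ x ∈ Z, ∀ y ∈ Z, ¬ G.Adj x y) → Disjoint Z A → Disjoint Z B →
  Disjoint A B → Rk G A ρ → Rk G B ρ →
  ∃ (c : V → Fin q) (σ : Fin q → Bool), ∀ v ∈ Z, ∀ w ∈ Z, c v = c w → nn G A v < nn G A w →
    (σ (c v) = true → nn G B v ≤ nn G B w) ∧ (σ (c v) = false → nn G B w ≤ nn G B v)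

/-- **A8.** Three equivalence relations.

Proof. (`f, g, h` define equivalence relations `E₁, E₂, E₃` whose union is everything.)  If `f` has at most two
values on `Y`, one value `u` (or none): `P = {x | f x = u}`; then `f` is constant on `Y ∩ P` and on `Y \ P`.  Otherwise
let `x₁, x₂, x₃ ∈ Y` have different values of `f`.  Each pair of them is in `E₂` or `E₃`; two of the three pairs are in
the same one, say `E₂` (the case `E₃` is symmetric: exchange `g` and `h`); so all three have the same value `u` of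
`g`.  `P = {x | g x = u}`.  `g` is constant on `P`.  Let `y, y' ∈ Y \ P`.  `f y` is different from two of the three
values `f x_i`; for these `i` the pair `y, x_i` is neither in `E₁` nor in `E₂`, so `h y = h x_i`.  The same for `y'`; two
subsets of `{1, 2, 3}` with two elements meet: `h y = h x_i = h y'`. -/
def S_Three : Prop := ∀ (V : Type) (Y : Set V) (f g h : V → ℕ),
  (∀ x ∈ Y, ∀ y ∈ Y, f x = f y ∨ g x = g y ∨ h x = h y) →
  ∃ P : Set V, ((∀ x ∈ Y ∩ P, ∀ y ∈ Y ∩ P, f x = f y) ∨ (∀ x ∈ Y ∩ P, ∀ y ∈ Y ∩ P, g x = g y) ∨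
      ∀ x ∈ Y ∩ P, ∀ y ∈ Y ∩ P, h x = h y) ∧
    ((∀ x ∈ Y \ P, ∀ y ∈ Y \ P, f x = f y) ∨ (∀ x ∈ Y \ P, ∀ y ∈ Y \ P, g x = g y) ∨
      ∀ x ∈ Y \ P, ∀ y ∈ Y \ P, h x = h y)

/-- **A9.** Balancing the signs (uses A8).

Proof. We show by induction on `r`: if at most `r` of the functions `f a` are not constant on `Y` then the conclusion
holds with `2 ^ r` classes (then take `r = w`, `q = 2 ^ w`).
CASE 1: there are different `a, b, d` with `f a`, `f b`, `f d` not constant on `Y` and an odd number of `false` among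
`σ a b`, `σ b d`, `σ a d`.  Then for all `x, y ∈ Y` one of `f a x = f a y`, `f b x = f b y`, `f d x = f d y` holds: otherwise
say `f a x < f a y` (exchange `x, y`); `f b x < f b y` iff `σ a b = true`, and `f d x < f d y` iff `σ a d = true`, and
(`f b x < f b y` iff `f d x < f d y`) iff `σ b d = true`; so the number of `false` is even.  A8 gives `P`; on `Y ∩ P` and on
`Y \ P` one of the functions `f a, f b, f d` has become constant (and constant functions stay constant), so `r ≥ 1` and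
both have partitions with `2 ^ (r - 1)` classes; combine them (`c x = c₁ x` in the first half of `Fin (2 ^ r)` if
`x ∈ P`, in the second half otherwise; for the comparison with `Fin (2 ^ r)` use e.g. `q`-element index types and an
equivalence).
CASE 2: no such triple.  One class.  If all functions are constant: `t = true`, `ρ` an injection `V → ℕ`.
Otherwise choose `a₀` with `f a₀` not constant; `t a₀ = true`, `t a = σ a₀ a` for the other `a` with `f a` not
constant, `t a = true` for the constant ones.  For different `a, b` with non-constant functions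
`σ a b = true` iff `t a = t b` (no odd triple `a₀, a, b`; clear if `a₀` is one of them, with the symmetry of `σ`).
Write `x <_a y` for `f a x < f a y` if `t a = true`, for `f a y < f a x` if `t a = false`.  So for all `a, b`: `x <_a y`
implies not `y <_b x` (`x, y ∈ Y`).  Let `x <' y` iff `x <_a y` for some `a`, or `f a x = f a y` for all `a` and
`ι x < ι y`, with an injection `ι : V → ℕ`: a strict total order on `Y` (transitive: `x <_a y`, `y <' z`: not
`z <_a y`, so `x <_a z`).  `ρ x` = the number of the `z ∈ Y` with `z <' x`. -/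
def S_Bal : Prop := ∀ w : ℕ, ∃ q : ℕ, ∀ (V : Type) [Finite V] (Y : Set V) (f : Fin w → V → ℕ)
  (σ : Fin w → Fin w → Bool), (∀ a b, σ a b = σ b a) →
  (∀ a b, a ≠ b → ∀ x ∈ Y, ∀ y ∈ Y, f a x < f a y →
    (σ a b = true → f b x ≤ f b y) ∧ (σ a b = false → f b y ≤ f b x)) →
  ∃ (c : V → Fin q) (t : Fin q → Fin w → Bool) (ρ : V → ℕ), ∀ x ∈ Y, ∀ y ∈ Y, c x = c y → x ≠ y →
    ρ x ≠ ρ y ∧ (ρ x < ρ y → ∀ a, (t (c x) a = true → f a x ≤ f a y) ∧
      (t (c x) a = false → f a y ≤ f a x))

/-- **A10.** The partition of one stable class (uses A7, A9).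

Proof. Let `q₁` be the number of A7 for `m`, `q₂` the number of A9 for `w`.  For every pair `(a, b)` with `a < b` A7 (for
`A = C a`, `B = C b`) gives `c_ab : V → Fin q₁`, `σ_ab`.  `d x = (a, b) ↦ c_ab x`, an element of the finite type
`Fin w → Fin w → Fin q₁`.  For every value `δ` of `d` let `Y_δ = {x ∈ Z | d x = δ}`, `σ a b = σ_ab (δ a b)` for `a < b`,
`σ b a = σ a b`, `σ a a = true`, `f a = nn G (C a)`.  The hypothesis of A9 for `a < b` is A7; for `b < a`: suppose
`f a x < f a y`; if `σ = true` and `f b y < f b x` then A7 for the pair `(b, a)` and `y, x` gives `f a y ≤ f a x`: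
contradiction, so `f b x ≤ f b y`; if `σ = false` and `f b x < f b y` then `f a y ≤ f a x`: contradiction.  A9 gives
`c_δ : V → Fin q₂`, `t_δ`, `ρ_δ`.  `c x = (d x, c_(d x) x)`, a finite type with a number of elements that depends
only on `m, w`; transport it to `Fin q`; `ρ x = ρ_(d x) x`, `t (δ, i) a = t_δ i a`. -/
def S_ZClass : Prop := ∀ m w : ℕ, ∃ q : ℕ, ∀ (V : Type) [Finite V] (G : SimpleGraph V) (Z : Set V)
  (C : Fin w → Set V) (ρ : V → ℕ), F3 G m → F4 G m → (∀ x ∈ Z, ∀ y ∈ Z, ¬ G.Adj x y) →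
  (∀ a, Disjoint Z (C a)) → (∀ a b, a ≠ b → Disjoint (C a) (C b)) → (∀ a, Rk G (C a) ρ) →
  ∃ (c : V → Fin q) (t : Fin q → Fin w → Bool) (ρ' : V → ℕ), ∀ x ∈ Z, ∀ y ∈ Z, c x = c y → x ≠ y →
    ρ' x ≠ ρ' y ∧ (ρ' x < ρ' y → ∀ a, (t (c x) a = true → nn G (C a) x ≤ nn G (C a) y) ∧
      (t (c x) a = false → nn G (C a) y ≤ nn G (C a) x))

/-- **A11. The staircase partition** (uses A2, A5, A6, A10).

Proof. `k, R` from A2 for `m`; `p` from A5 for `m, R`; `w` from A6 for `m, k`; `q` from A10 for `m, w`.  The index type is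
`I = Fin w ⊕ (Fin p × Fin q)`, `n = w + p * q`, with an equivalence `I ≃ Fin n` (`finSumFinEquiv`,
`finProdFinEquiv`).  Let `B` be the set of A2, `A = Bᶜ`; A5 (cliques contained in `A` are disjoint from `B`) gives
`c_A : V → Fin p`; A6 gives `c_B : V → Fin w` and `ρ_B`; `C a = {x ∈ B | c_B x = a}`.  For `z : Fin p` let
`Z z = {x ∈ A | c_A x = z}`: stable, as `Adj x y`, `x, y ∈ Z z` would give `Adj y y` (A5 for `x, y` and the vertex `y`).
A10 for `Z z`, `C`, `ρ_B`: `c_z, t_z, ρ'_z`.
The class of `x ∈ B` is `inl (c_B x)`, the class of `x ∈ A` is `inr (c_A x, c_(c_A x) x)`.  `t (inl _) = true`,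
`t (inr _) = false`.  `s (inl _) _ = true`; `s (inr (z, i)) (inl a) = t_z i a`; `s (inr _) (inr _) = true`.
`ρ x = N₀ - ρ_B x` for `x ∈ B`, where `N₀` is an upper bound of `ρ_B` (a finite set), `ρ x = ρ'_(c_A x) x` for `x ∈ A`.
`inj`: `Rk.inj` and A10.  `typ`: `Rk.cl`, `Z z` stable.  `dn`, `up` for `x, x' ∈ B` in one class, `ρ x < ρ x'`:
`ρ_B x' < ρ_B x`, and `Rk.mono` gives: `Adj x' y`, `y ≠ x` imply `Adj x y` (`s = true`, so only `dn`).  For `x, x' ∈ Z z` in
one class and `y ∈ A`: `Adj x y ↔ Adj x' y` by A5.  For `x, x' ∈ Z z` in one class, `y ∈ C a`, `ρ x < ρ x'`: if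
`t_z i a = true` then `nn (C a) x ≤ nn (C a) x'`, and the non-neighbours of `x` in `C a` are among those of `x'` (they
are initial segments of `C a` for `ρ_B`, see A7), so `Adj x' y` gives `Adj x y`: `dn`; if `t_z i a = false`:
`nn (C a) x' ≤ nn (C a) x`, and `Adj x y` gives `Adj x' y`: `up`. -/
def S_Part : Prop := ∀ m : ℕ, ∃ n : ℕ, ∀ (V : Type) [Finite V] (G : SimpleGraph V),
  ¬ MatP G m → ¬ ComP G m → F1 G m → F2 G m → F3 G m → F4 G m →
  ∃ S : St V n, S.G = G ∧ ∀ i, S.t i = true → ∀ j, S.s i j = true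

/-- **A12.** Layouts or minimal homogeneous closed bundles (uses A11 and `X2.S_Main`).

Proof. A11 for `m`, then `X2.S_Main` for `n, M`. -/
def S_PartB : Prop := ∀ m M : ℕ, ∃ N n : ℕ, ∀ (V : Type) [Finite V] (G : SimpleGraph V),
  ¬ MatP G m → ¬ ComP G m → F1 G m → F2 G m → F3 G m → F4 G m →
  Lay G N Set.univ ∨ ∃ (S : St V n) (r : ℕ) (x : ℕ → ℕ → V) (κ : ℕ → Fin n) (e : ℕ → Bool)
    (E : ℕ → ℕ → Prop), S.G = G ∧ (∀ i, S.t i = true → ∀ j, S.s i j = true) ∧
    HB S (M + 2) r x κ e E ∧ 2 ≤ r ∧ ∀ i j, i + 2 ≤ j → j ≤ r → ¬ Stp S (M + 2) x κ e i j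

end Pool.Agent.MPd439b2.R3
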