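import Pool.Agent.Lib.MP_d439b2_co.R3.Defs
import Pool.Agent.Lib.MP_d439b2_co.R3.SpecA

/-!
# MP_d439b2_co, R3, Spec B: from the finite facts (`R3.Facts`) to the hypotheses `F1`, `F2`, `F3`, `F4` of the
staircase partition (helper85)
-/

set_option autoImplicit false

namespace Pool.Agent.MPd439b2.R3

open Pool.Agent.MPd439b2 Pool.Agent.MPd439b2.W Pool.Agent.MPd439b2.X2

/-- **B1.** The finite facts imply `F1` to `F4` (uses `W.S_RamC`).

Proof. `m₁` = the number of `W.S_RamC` for `M0 + m + 1` and the colours `Fin 3 × Fin 3 → Bool`, and at least `M0`.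
`Bool`-valued `E` below: `E i j = decide (..)` of the common truth value.
`F1`: let `a, b` be given (size `m₁ ≥ M0`); `Facts.st` for the rails `a, b`, `E 0 0 = E 1 1 = false`, `E 0 1 = true`,
`E 1 0 = false` (`a i ~ b j` iff `i ≤ j`).
`F2`: let `x, u, w` be given.  By `W.S_RamC` (colour of `k < l`: the adjacencies between the vertices number `k` and `l`
of the three rails `w, x, u`) there are `M0` indices `s 0 < s 1 < ..` such that the rails `w ∘ s, x ∘ s, u ∘ s` are
`Hom G 3 M0 _ E`; `E 1 1 = true`, `E 0 1 = true` (`w k ~ x l` iff `k ≤ l`), `E 1 0 = false`, `E 1 2 = true` (`u l ~ x k` iff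
`k ≤ l`), `E 2 1 = false`: contradiction to `Facts.opK`.
`F3`: let `v, b, b'` be given; the same for the rails `b', v, b`: `E 1 1 = false`, `E 0 1 = true` (`v l ~ b' k` iff
`k < l`), `E 1 0 = false`, `E 1 2 = true` (`v k ~ b l` iff `k < l`), `E 2 1 = false`.  `Facts.opI`: `E 0 2 = true`,
`E 2 0 = false`: so `b i ~ b' j` iff `j ≤ i` (with `b i ~ b' i`), contradiction to `Facts.dg` (for `v ∘ s, b ∘ s,
b' ∘ s`).
`F4`: let `v, b, b'` be given; the rails `b, v, b'` with `M0 + m` indices and the reversed order of the indices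
(`Hom.rev`; `v i ~ b j` iff `i < j` becomes `v i ~ b j` iff `j < i`): `E 1 1 = false`, `E 0 1 = true`, `E 1 0 = false`,
`E 2 1 = true`, `E 1 2 = false`.  `Facts.sm` (restrict to `M0` indices with `Hom.mono`): `E 0 2 = E 2 0 = true`.  So
`b i ~ b' j` for `i ≠ j`, and not for `i = j`: `ComP G m`, contradiction. -/
def S_FF : Prop := ∀ m : ℕ, ∃ m₁ : ℕ, ∀ (V : Type) (G : SimpleGraph V), Facts G → ¬ ComP G m →
  F1 G m₁ ∧ F2 G m₁ ∧ F3 G m₁ ∧ F4 G m₁

/-- **B2.** Layouts or minimal homogeneous closed bundles, from the finite facts (uses B1, A12).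

Proof. `m₁` of B1, `m₂ = max m m₁`; `MatP`, `ComP` of size `m₂` give those of size `m`, and `F1 G m₁` implies
`F1 G m₂`, etc. (restriction to the first indices).  A12 for `m₂` and `M`. -/
def S_PartF : Prop := ∀ m M : ℕ, ∃ N n : ℕ, ∀ (V : Type) [Finite V] (G : SimpleGraph V),
  Facts G → ¬ MatP G m → ¬ ComP G m →
  Lay G N Set.univ ∨ ∃ (S : St V n) (r : ℕ) (x : ℕ → ℕ → V) (κ : ℕ → Fin n) (e : ℕ → Bool)
    (E : ℕ → ℕ → Prop), S.G = G ∧ (∀ i, S.t i = true → ∀ j, S.s i j = true) ∧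
    HB S (M + 2) r x κ e E ∧ 2 ≤ r ∧ ∀ i j, i + 2 ≤ j → j ≤ r → ¬ Stp S (M + 2) x κ e i j

end Pool.Agent.MPd439b2.R3
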