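import Pool.Agent.Lib.MP_d439b2_co.R3.Fam

/-!
# MP_d439b2_co, R3: the finite facts from the checks (helper32)
-/

set_option autoImplicit false

namespace Pool.Agent.MPd439b2.R3

open Pool.Agent.MPd439b2
open Pool.Agent.MPd439b2.BU
open Pool.Agent.MPd439b2.HC

variable {V : Type}

/-! ### the diagonal of the half graph of two clique rails -/

/-- the adjacencies of the rails `v, b, b'` for different indices -/
def eD (i j : ℕ) : Bool := Nat.beq i 2 || Nat.beq j 1

/-- the pattern of the vertices `v k, b k, b' k`, which have the numbers `3 k, 3 k + 1, 3 k + 2` -/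
def rD (p q : ℕ) : Bool :=
  bif Nat.blt (q / 3) (p / 3) then eD (q % 3) (p % 3) else Nat.beq (p % 3) 2 && Nat.beq (q % 3) 1

theorem sp_dg {G : SimpleGraph V} {v b b' : ℕ → V}
    (h : ∀ i < M0, ∀ j < M0, v i ≠ b j ∧ v i ≠ b' j ∧ b i ≠ b' j ∧
    (i ≠ j → v i ≠ v j ∧ b i ≠ b j ∧ b' i ≠ b' j ∧ ¬ G.Adj (v i) (v j) ∧ G.Adj (b i) (b j) ∧
      G.Adj (b' i) (b' j)) ∧
    (G.Adj (v i) (b j) ↔ i < j) ∧ (G.Adj (v i) (b' j) ↔ j < i) ∧ (G.Adj (b i) (b' j) ↔ j ≤ i)) :
    SP G Set.univ 48 (fun p => {if p % 3 = 0 then v (p / 3) else if p % 3 = 1 then b (p / 3)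
      else b' (p / 3)}) rD := by
  refine ⟨fun _ _ => Set.subset_univ _, fun _ _ => Conn.singleton G _, fun p hp q hq => ?_,
    fun p hp q hq => ?_⟩
  · rw [Set.disjoint_singleton]
    have hM : (48 : ℕ) ≤ M0 := by decide
    have h1 := h (p / 3) (by omega) (q / 3) (by omega)
    have h2 := h (q / 3) (by omega) (p / 3) (by omega)
    have e1 := Nat.div_add_mod p 3
    have e2 := Nat.div_add_mod q 3
    split_ifs with a1 a2 a3 a4 a5 a6 a7 a8
    · exact (h1.2.2.2.1 (by omega)).1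
    · exact h1.1
    · exact h1.2.1
    · exact h2.1.symm
    · exact (h1.2.2.2.1 (by omega)).2.1
    · exact h1.2.2.1
    · exact h2.2.1.symm
    · exact h2.2.2.1.symm
    · exact (h1.2.2.2.1 (by omega)).2.2.1
  · rw [tch_single]
    have hM : (48 : ℕ) ≤ M0 := by decide
    have h1 := h (p / 3) (by omega) (q / 3) (by omega)
    have h2 := h (q / 3) (by omega) (p / 3) (by omega)
    have e1 := Nat.div_add_mod p 3
    have e2 := Nat.div_add_mod q 3
    have m1 : p % 3 = 0 ∨ p % 3 = 1 ∨ p % 3 = 2 := by omega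
    have m2 : q % 3 = 0 ∨ q % 3 = 1 ∨ q % 3 = 2 := by omega
    rcases Nat.lt_or_ge (q / 3) (p / 3) with h3 | h3
    · have h4 : Nat.blt (q / 3) (p / 3) = true := by rw [Nat.blt_eq]; exact h3
      have h5 := h1.2.2.2.1 (by omega)
      simp only [rD, h4, cond_true]
      rcases m1 with m1 | m1 | m1 <;> rcases m2 with m2 | m2 | m2 <;> rw [m1, m2]
      · exact iff_of_false h5.2.2.2.1 (by decide)
      · exact iff_of_false (fun h6 => absurd (h1.2.2.2.2.1.1 h6) (by omega)) (by decide)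
      · exact iff_of_true (h1.2.2.2.2.2.1.2 (by omega)) (by decide)
      · exact iff_of_true (h2.2.2.2.2.1.2 (by omega)).symm (by decide)
      · exact iff_of_true h5.2.2.2.2.1 (by decide)
      · exact iff_of_true (h1.2.2.2.2.2.2.2 (by omega)) (by decide)
      · exact iff_of_false (fun h6 => absurd (h2.2.2.2.2.2.1.1 h6.symm) (by omega)) (by decide)
      · exact iff_of_false (fun h6 => absurd (h2.2.2.2.2.2.2.1 h6.symm) (by omega)) (by decide)
      · exact iff_of_true h5.2.2.2.2.2 (by decide)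
    · have h4 : Nat.blt (q / 3) (p / 3) = false := by
        rw [Bool.eq_false_iff]
        intro h5
        rw [Nat.blt_eq] at h5
        omega
      have h5 : p / 3 = q / 3 := by omega
      simp only [rD, h4, cond_false]
      rw [h5] at h1 ⊢
      rcases m1 with m1 | m1 | m1 <;> rcases m2 with m2 | m2 | m2 <;> rw [m1, m2]
      · exact absurd hq (by omega)
      · exact absurd hq (by omega)
      · exact absurd hq (by omega)
      · exact iff_of_false (fun h6 => absurd (h1.2.2.2.2.1.1 h6.symm) (by omega)) (by decide)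
      · exact absurd hq (by omega)
      · exact absurd hq (by omega)
      · exact iff_of_false (fun h6 => absurd (h1.2.2.2.2.2.1.1 h6.symm) (by omega)) (by decide)
      · exact iff_of_true (h1.2.2.2.2.2.2.2 (by omega)).symm (by decide)
      · exact absurd hq (by omega)

/-! ### the facts -/

/-- the checks for one of the graphs `H` with the pattern `q` -/
structure Chk (q : ℕ → ℕ → Bool) : Prop where
  dg : ∃ C, chkG 48 6 rD q C = true
  st : ∃ cs ix, fam 2 16 1 q cs ix 1 (fun _ => false) = true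
  opK : ∃ cs ix, fam 3 12969903122 10 q cs ix 16 (fun _ => false) = true
  opI : ∃ cs ix, fam 3 12969837586 10 q cs ix 16 (fun c =>
    c.testBit 0 && c.testBit 1 && c.testBit 2 && !c.testBit 3) = true
  sm : ∃ cs ix, fam 3 13237224466 129 q cs ix 16 (fun c => c.testBit 2 && c.testBit 3) = true
  t4 : ∃ cs ix, fam 4 5798406606843577874 836 q cs ix 128 (fun c =>
    two 4 c || (c.testBit 4 && c.testBit 5 && c.testBit 6)) = true
  t6 : ∃ cs ix, fam 6 9762552348003434981669898811452870835573010 90948 q cs ix 256 (two 6) = true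
  t7 : ∃ cs ix, fam 7 50636244752981687334866724453831405691610291835976180896018 1925956 q cs ix 1024 (two 7) = true
  t8a : ∃ cs ix, fam 7 50636149346154601666817437341677250942264492713542273274130 1925956 q cs ix 512 (two 7) = true
  t8b : ∃ cs ix, fam 7 50636149346154780072778978855990656414562019377767171232018 1925956 q cs ix 512 (two 7) = true

/-- long range constants of a track -/
theorem trk_23 {G : SimpleGraph V}
    (h4 : ∀ x E, Trk G 4 M0 x E → E 0 2 = true ∧ E 1 3 = true ∧ E 0 3 = true)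
    {L : ℕ} {x : ℕ → ℕ → V} {E : ℕ → ℕ → Bool} (h : Trk G L M0 x E) (i : ℕ) (hi : i + 3 < L) :
    E i (i + 2) = true ∧ E (i + 1) (i + 3) = true ∧ E i (i + 3) = true := by
  rcases Nat.mod_two_eq_zero_or_one i with h1 | h1
  · exact h4 _ _ (h.even (L' := 4) h1 (by omega))
  · have h2 := h4 _ _ (h.odd (L' := 4) h1 (by omega))
    rw [h.non i (i + 2) (by omega) (by omega), h.non (i + 1) (i + 3) (by omega) (by omega),
      h.non i (i + 3) (by omega) (by omega)]
    exact h2

/-- **The finite facts.** -/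
theorem facts_of {G : SimpleGraph V} {q : ℕ → ℕ → Bool} (hq : SPF G Set.univ 6 q)
    (hJ : SPF G Set.univ 11 qJ) (hC : Chk q) : Facts G := by
  obtain ⟨_, _, k1⟩ := hC.st
  obtain ⟨_, k2⟩ := hC.dg
  obtain ⟨_, _, k3⟩ := hC.opK
  obtain ⟨_, _, k4⟩ := hC.opI
  obtain ⟨_, _, k5⟩ := hC.sm
  obtain ⟨_, _, k6⟩ := hC.t4
  obtain ⟨_, _, k7⟩ := hC.t6
  obtain ⟨_, _, k8⟩ := hC.t7
  obtain ⟨_, _, k9⟩ := hC.t8a
  obtain ⟨_, _, k10⟩ := hC.t8b
  have hst := f_st hq hJ k1
  have h4 : ∀ x E, Trk G 4 M0 x E → E 0 2 = true ∧ E 1 3 = true ∧ E 0 3 = true :=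
    fun x E h => f_t4 hq hJ k6 hst x E h
  have h6 : ∀ x E, Trk G 6 M0 x E → E 0 5 = true := by
    intro x E h
    by_contra h0
    rw [Bool.not_eq_true] at h0
    have a0 := trk_23 h4 h 0 (by omega)
    have a1 := trk_23 h4 h 1 (by omega)
    have a2 := trk_23 h4 h 2 (by omega)
    exact f_t6 hq hJ k7 hst x E h a0.1 a0.2.2 h0 a0.2.1 a1.2.2 a1.2.1 a2.2.2 a2.2.1
  have h6' : ∀ L x E, Trk G L M0 x E → ∀ i, i + 5 < L → E i (i + 5) = true := by
    intro L x E h i hi
    rcases Nat.mod_two_eq_zero_or_one i with h1 | h1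
    · exact h6 _ _ (h.even (L' := 6) h1 (by omega))
    · rw [h.non i (i + 5) (by omega) (by omega)]
      exact h6 _ _ (h.odd (L' := 6) h1 (by omega))
  have h7 : ∀ x E, Trk G 7 M0 x E → E 0 6 = true := by
    intro x E h
    by_contra h0
    rw [Bool.not_eq_true] at h0
    have a0 := trk_23 h4 h 0 (by omega)
    have a1 := trk_23 h4 h 1 (by omega)
    have a2 := trk_23 h4 h 2 (by omega)
    have a3 := trk_23 h4 h 3 (by omega)
    have b0 := h6' _ _ _ h 0 (by omega)
    have b1 := h6' _ _ _ h 1 (by omega)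
    exact f_t7 hq hJ k8 hst x E h a0.1 a0.2.2 b0 h0 a0.2.1 a1.2.2 b1 a1.2.1 a2.2.2 a2.2.1 a3.2.2 a3.2.1
  have h8a : ∀ x E, Trk G 7 M0 x E → E 1 5 = false := by
    intro x E h
    by_contra h0
    rw [Bool.not_eq_false] at h0
    have a0 := trk_23 h4 h 0 (by omega)
    have a1 := trk_23 h4 h 1 (by omega)
    have a2 := trk_23 h4 h 2 (by omega)
    have a3 := trk_23 h4 h 3 (by omega)
    have b0 := h6' _ _ _ h 0 (by omega)
    have b1 := h6' _ _ _ h 1 (by omega)
    exact f_t8a hq hJ k9 hst x E h a0.1 a0.2.2 b0 (h7 x E h) a0.2.1 a1.2.2 h0 b1 a1.2.1 a2.2.2 a2.2.1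
      a3.2.2 a3.2.1
  have h8b : ∀ x E, Trk G 7 M0 x E → E 0 4 = true := by
    intro x E h
    by_contra h0
    rw [Bool.not_eq_true] at h0
    have a0 := trk_23 h4 h 0 (by omega)
    have a1 := trk_23 h4 h 1 (by omega)
    have a2 := trk_23 h4 h 2 (by omega)
    have a3 := trk_23 h4 h 3 (by omega)
    have b0 := h6' _ _ _ h 0 (by omega)
    have b1 := h6' _ _ _ h 1 (by omega)
    exact f_t8b hq hJ k10 hst x E h a0.1 a0.2.2 h0 b0 (h7 x E h) a0.2.1 a1.2.2 b1 a1.2.1 a2.2.2 a2.2.1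
      a3.2.2 a3.2.1
  refine ⟨hst, f_opK hq hJ k3, f_opI hq hJ k4, f_sm hq hJ k5, fun v b b' h => ?_, h4, h6, h7,
    fun x E h => ?_⟩
  · exact hq _ (chkG_sp (sp_dg h) k2)
  · have e0 := h8a _ _ (h.even (L' := 7) (p := 0) rfl (by omega))
    have e1 : E 1 5 = false := e0
    have e3 := h8b _ _ (h.odd (L' := 7) (p := 1) rfl (by omega))
    have e2 : E 5 1 = true := e3
    rw [← h.non 1 5 (by omega) (by omega), e1] at e2
    exact Bool.false_ne_true e2

end Pool.Agent.MPd439b2.R3
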