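import Pool.Agent.Lib.MP_d439b2_co.X2.SpecA

/-!
# MP_d439b2_co, R3: the structure theorem for the group (X), definitions (helper32; note 2767, Theorem C)

Homogeneous rails (diagonal free), zigzag tracks, and the finite facts (T1) to (T4), (T7) about one graph `G`
(they are proved from `no H` and `no co(P_3 + 4 P_2)` by certificates, for the three `H`).
-/

set_option autoImplicit false

namespace Pool.Agent.MPd439b2.R3

open Pool.Agent.MPd439b2

variable {V : Type}

/-- the number of indices of the patterns in `Facts` -/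
def M0 : ℕ := 128

/-- **Homogeneous rails** `x 0, .., x (L - 1)` with `M` indices: for `k < l` the adjacency of `x i k` and `x j l` is
`E i j` (so `E i i = true` says that the rail `i` is a clique, `E i i = false` that it is stable).  Nothing is said
about the adjacency of `x i k` and `x j k`, and these vertices may be equal. -/
structure Hom (G : SimpleGraph V) (L M : ℕ) (x : ℕ → ℕ → V) (E : ℕ → ℕ → Bool) : Prop where
  dis : ∀ i < L, ∀ j < L, ∀ k < M, ∀ l < M, k ≠ l → x i k ≠ x j l
  rel : ∀ i < L, ∀ j < L, ∀ k l, k < l → l < M → (G.Adj (x i k) (x j l) ↔ E i j = true)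

/-- **Zigzag tracks**: consecutive rails form half graphs, `x i k ~ x (i + 1) l` iff `k < l` for `i` even and iff
`l < k` for `i` odd; all other pairs of rails are complete or anticomplete to each other -/
structure Trk (G : SimpleGraph V) (L M : ℕ) (x : ℕ → ℕ → V) (E : ℕ → ℕ → Bool) : Prop where
  hom : Hom G L M x E
  su : ∀ i, i + 1 < L → i % 2 = 0 → E i (i + 1) = true ∧ E (i + 1) i = false
  sd : ∀ i, i + 1 < L → i % 2 = 1 → E i (i + 1) = false ∧ E (i + 1) i = true
  non : ∀ i j, i + 2 ≤ j → j < L → E i j = E j i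

/-- **The finite facts.**  `st`: no half graph between two stable rails.  `opK`: no clique rail (the rail `1`) with two
half graphs in opposite directions.  `opI`: a stable rail with two half graphs in opposite directions: the other two
rails are cliques and form the half graph `x 0 k ~ x 2 l` iff `k < l`.  `sm`: a stable rail with two half graphs in the
same direction: the other two rails are complete to each other.  `dg`: in the situation of `opI` the diagonal of
the half graph of the two clique rails is empty.  `t4`, `t6`, `t7`, `t8`: the track table. -/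
structure Facts (G : SimpleGraph V) : Prop where
  st : ∀ x E, Hom G 2 M0 x E → E 0 0 = false → E 1 1 = false → E 0 1 = true → E 1 0 = false → False
  opK : ∀ x E, Hom G 3 M0 x E → E 1 1 = true → E 0 1 = true → E 1 0 = false → E 1 2 = true →
    E 2 1 = false → False
  opI : ∀ x E, Hom G 3 M0 x E → E 1 1 = false → E 0 1 = true → E 1 0 = false → E 1 2 = true →
    E 2 1 = false → E 0 0 = true ∧ E 2 2 = true ∧ E 0 2 = true ∧ E 2 0 = false
  sm : ∀ x E, Hom G 3 M0 x E → E 1 1 = false → E 0 1 = true → E 1 0 = false → E 2 1 = true →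
    E 1 2 = false → E 0 2 = true ∧ E 2 0 = true
  dg : ∀ v b b' : ℕ → V, (∀ i < M0, ∀ j < M0, v i ≠ b j ∧ v i ≠ b' j ∧ b i ≠ b' j ∧
    (i ≠ j → v i ≠ v j ∧ b i ≠ b j ∧ b' i ≠ b' j ∧ ¬ G.Adj (v i) (v j) ∧ G.Adj (b i) (b j) ∧
      G.Adj (b' i) (b' j)) ∧
    (G.Adj (v i) (b j) ↔ i < j) ∧ (G.Adj (v i) (b' j) ↔ j < i) ∧ (G.Adj (b i) (b' j) ↔ j ≤ i)) → False
  t4 : ∀ x E, Trk G 4 M0 x E → E 0 2 = true ∧ E 1 3 = true ∧ E 0 3 = true
  t6 : ∀ x E, Trk G 6 M0 x E → E 0 5 = true
  t7 : ∀ x E, Trk G 7 M0 x E → E 0 6 = true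
  t8 : ∀ x E, ¬ Trk G 8 M0 x E

theorem Hom.mono {G : SimpleGraph V} {L M : ℕ} {x : ℕ → ℕ → V} {E : ℕ → ℕ → Bool} (h : Hom G L M x E)
    {L' M' : ℕ} (hL : L' ≤ L) (hM : M' ≤ M) : Hom G L' M' x E :=
  ⟨fun i hi j hj k hk l hl hkl => h.dis i (by omega) j (by omega) k (by omega) l (by omega) hkl,
    fun i hi j hj k l hkl hl => h.rel i (by omega) j (by omega) k l hkl (by omega)⟩

/-- some of the rails, renamed -/
theorem Hom.sub {G : SimpleGraph V} {L M : ℕ} {x : ℕ → ℕ → V} {E : ℕ → ℕ → Bool} (h : Hom G L M x E)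
    {L' : ℕ} (f : ℕ → ℕ) (hf : ∀ i < L', f i < L) :
    Hom G L' M (fun i => x (f i)) (fun i j => E (f i) (f j)) :=
  ⟨fun i hi j hj k hk l hl hkl => h.dis _ (hf i hi) _ (hf j hj) k hk l hl hkl,
    fun i hi j hj k l hkl hl => h.rel _ (hf i hi) _ (hf j hj) k l hkl hl⟩

/-- the reversed order of the indices -/
theorem Hom.rev {G : SimpleGraph V} {L M : ℕ} {x : ℕ → ℕ → V} {E : ℕ → ℕ → Bool} (h : Hom G L M x E) :
    Hom G L M (fun i k => x i (M - 1 - k)) (fun i j => E j i) :=
  ⟨fun i hi j hj k hk l hl hkl => h.dis _ hi _ hj _ (by omega) _ (by omega) (by omega),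
    fun i hi j hj k l hkl hl => by
      rw [← h.rel j hj i hi (M - 1 - l) (M - 1 - k) (by omega) (by omega)]
      exact ⟨fun h => h.symm, fun h => h.symm⟩⟩

/-- a subsequence of the indices -/
theorem Hom.comp {G : SimpleGraph V} {L M M' : ℕ} {x : ℕ → ℕ → V} {E : ℕ → ℕ → Bool}
    (h : Hom G L M x E) (s : ℕ → ℕ) (hs : ∀ k l, k < l → l < M' → s k < s l) (hM : ∀ k < M', s k < M) :
    Hom G L M' (fun i k => x i (s k)) E :=
  ⟨fun i hi j hj k hk l hl hkl => h.dis _ hi _ hj _ (hM k hk) _ (hM l hl) (by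
      rcases lt_or_gt_of_ne hkl with h1 | h1
      · exact (hs k l h1 hl).ne
      · exact (hs l k h1 hk).ne'),
    fun i hi j hj k l hkl hl => h.rel i hi j hj _ _ (hs k l hkl hl) (hM l hl)⟩

/-- a part of a track that starts with an even rail -/
theorem Trk.even {G : SimpleGraph V} {L M : ℕ} {x : ℕ → ℕ → V} {E : ℕ → ℕ → Bool} (h : Trk G L M x E)
    {L' p : ℕ} (hp : p % 2 = 0) (hL : p + L' ≤ L) :
    Trk G L' M (fun i => x (p + i)) (fun i j => E (p + i) (p + j)) :=
  ⟨h.hom.sub (fun i => p + i) (fun i hi => by omega),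
    fun i hi h0 => h.su (p + i) (by omega) (by omega),
    fun i hi h0 => h.sd (p + i) (by omega) (by omega),
    fun i j hi hj => h.non (p + i) (p + j) (by omega) (by omega)⟩

/-- a part of a track that starts with an odd rail, with the reversed order of the indices -/
theorem Trk.odd {G : SimpleGraph V} {L M : ℕ} {x : ℕ → ℕ → V} {E : ℕ → ℕ → Bool} (h : Trk G L M x E)
    {L' p : ℕ} (hp : p % 2 = 1) (hL : p + L' ≤ L) :
    Trk G L' M (fun i k => x (p + i) (M - 1 - k)) (fun i j => E (p + j) (p + i)) :=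
  ⟨(h.hom.sub (fun i => p + i) (fun i hi => by omega)).rev,
    fun i hi h0 => (h.sd (p + i) (by omega) (by omega)).symm,
    fun i hi h0 => (h.su (p + i) (by omega) (by omega)).symm,
    fun i j hi hj => (h.non (p + i) (p + j) (by omega) (by omega)).symm⟩

end Pool.Agent.MPd439b2.R3
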