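import Pool.Agent.Lib.MP_d439b2_co.R3.Defs
import Pool.Agent.Lib.MP_d439b2_co.HC.EngC
import Pool.Agent.Lib.MP_d439b2_co.A0.PB

/-!
# MP_d439b2_co, R3: certificates for homogeneous rails (helper32)
-/

set_option autoImplicit false

namespace Pool.Agent.MPd439b2.R3

open Pool.Agent.MPd439b2
open Pool.Agent.MPd439b2.BU
open Pool.Agent.MPd439b2.HC

variable {V : Type}

/-! ### the patterns of the four graphs -/

/-- a pattern with `n` singletons and the relation of `H` gives an induced minor `H` -/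
theorem ims_of_sp {W : Type} {H : SimpleGraph W} {G : SimpleGraph V} {X : Set V} {n : ℕ} {S : ℕ → Set V}
    {r : ℕ → ℕ → Bool} (h : SP G X n S r) (idx : W → ℕ) (hn : ∀ w, idx w < n)
    (hadj : ∀ w w', w ≠ w' → idx w ≠ idx w' ∧ (H.Adj w w' ↔ Eng.rs r (idx w) (idx w') = true)) :
    IMS H G X :=
  ⟨fun w => S (idx w), fun w => h.sub _ (hn w), fun w => h.conn _ (hn w),
    fun w w' hw => Eng.dis' h (hn w) (hn w') (hadj w w' hw).1,
    fun w w' hw => (hadj w w' hw).2.trans (Eng.rs_iff h (hn w) (hn w') (hadj w w' hw).1).symm⟩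

/-- the number of a vertex of `KA m r N` -/
def iK (m r : ℕ) : Fin m ⊕ Fin r → ℕ
  | Sum.inl i => i.val
  | Sum.inr q => m + q.val

/-- the pattern of `K4:0,1` -/
def q0 : ℕ → ℕ → Bool := rc [0, 1, 3, 7, 1, 2]

/-- the pattern of `K3:0,01,12` -/
def q1 : ℕ → ℕ → Bool := rc [0, 1, 3, 1, 3, 6]

/-- the pattern of `K3:0,1,02` -/
def q2 : ℕ → ℕ → Bool := rc [0, 1, 3, 1, 2, 5]

/-- the pattern of `J_4` -/
def qJ : ℕ → ℕ → Bool := rc [0, 0, 1, 7, 7, 31, 31, 127, 127, 511, 511]

theorem spf0 {G : SimpleGraph V} (h : ¬ IMS (KA 4 2 ![{0}, {1}]) G Set.univ) : SPF G Set.univ 6 q0 := by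
  intro S hS
  apply h
  refine ims_of_sp hS (iK 4 2) ?_ ?_
  · rintro (i | i)
    · have := i.2; simp only [iK]; omega
    · have := i.2; simp only [iK]; omega
  · rintro (i | i) (j | j) hij <;> fin_cases i <;> fin_cases j <;>
      first
      | exact absurd rfl hij
      | (refine ⟨by decide, ?_⟩
         simp [KA, iK]; decide)

theorem spf1 {G : SimpleGraph V} (h : ¬ IMS (KA 3 3 ![{0}, {0, 1}, {1, 2}]) G Set.univ) :
    SPF G Set.univ 6 q1 := by
  intro S hS
  apply h
  refine ims_of_sp hS (iK 3 3) ?_ ?_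
  · rintro (i | i)
    · have := i.2; simp only [iK]; omega
    · have := i.2; simp only [iK]; omega
  · rintro (i | i) (j | j) hij <;> fin_cases i <;> fin_cases j <;>
      first
      | exact absurd rfl hij
      | (refine ⟨by decide, ?_⟩
         simp [KA, iK]; decide)

theorem spf2 {G : SimpleGraph V} (h : ¬ IMS (KA 3 3 ![{0}, {1}, {0, 2}]) G Set.univ) :
    SPF G Set.univ 6 q2 := by
  intro S hS
  apply h
  refine ims_of_sp hS (iK 3 3) ?_ ?_
  · rintro (i | i)
    · have := i.2; simp only [iK]; omega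
    · have := i.2; simp only [iK]; omega
  · rintro (i | i) (j | j) hij <;> fin_cases i <;> fin_cases j <;>
      first
      | exact absurd rfl hij
      | (refine ⟨by decide, ?_⟩
         simp [KA, iK]; decide)

/-- the number of a vertex of `J_4` -/
def iJ : Option A0.aPBAux.Lf ⊕ (Fin 4 × Bool) → ℕ
  | Sum.inl none => 1
  | Sum.inl (some y) => if y = A0.aPBAux.l1 then 0 else 2
  | Sum.inr (q, false) => 2 * q.val + 3
  | Sum.inr (q, true) => 2 * q.val + 4

theorem iJ_n : iJ (Sum.inl none) = 1 := rfl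

theorem iJ_l1 : iJ (Sum.inl (some A0.aPBAux.l1)) = 0 := by
  simp [iJ]

theorem iJ_l2 : iJ (Sum.inl (some A0.aPBAux.l2)) = 2 := by
  simp [iJ, Ne.symm A0.aPBAux.l12]

theorem spfJ {G : SimpleGraph V} (h : ¬ IMS (F9.JS ![0, 1, 1] 4) G Set.univ) :
    SPF G Set.univ 11 qJ := by
  intro S hS
  apply h
  refine ims_of_sp hS iJ ?_ ?_
  · refine A0.aPBAux.cas _ ?_ ?_ ?_ (fun q => ?_) (fun q => ?_)
    · rw [iJ_n]; omega
    · rw [iJ_l1]; omega
    · rw [iJ_l2]; omega
    · have := q.2; simp only [iJ]; omega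
    · have := q.2; simp only [iJ]; omega
  · have a1 : ¬ (F9.Spid ![0, 1, 1]).Adj (some A0.aPBAux.l1) (some A0.aPBAux.l2) := by
      intro h
      exact absurd h.1 (by decide)
    have a2 : ¬ (F9.Spid ![0, 1, 1]).Adj (some A0.aPBAux.l2) (some A0.aPBAux.l1) := by
      intro h
      exact absurd h.1 (by decide)
    have a3 : (F9.Spid ![0, 1, 1]).Adj none (some A0.aPBAux.l1) := rfl
    have a4 : (F9.Spid ![0, 1, 1]).Adj none (some A0.aPBAux.l2) := rfl
    have a5 : (F9.Spid ![0, 1, 1]).Adj (some A0.aPBAux.l1) none := rfl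
    have a6 : (F9.Spid ![0, 1, 1]).Adj (some A0.aPBAux.l2) none := rfl
    refine A0.aPBAux.cas _ (A0.aPBAux.cas _ ?_ ?_ ?_ (fun q => ?_) fun q => ?_)
      (A0.aPBAux.cas _ ?_ ?_ ?_ (fun q => ?_) fun q => ?_)
      (A0.aPBAux.cas _ ?_ ?_ ?_ (fun q => ?_) fun q => ?_)
      (fun r => A0.aPBAux.cas _ ?_ ?_ ?_ (fun q => ?_) fun q => ?_)
      (fun r => A0.aPBAux.cas _ ?_ ?_ ?_ (fun q => ?_) fun q => ?_) <;>
    intro hne <;>
    first
    | exact absurd rfl hne
    | (simp only [iJ_n, iJ_l1, iJ_l2, F9.JS, a1, a2, a3, a4, a5, a6, ne_eq, not_false_eq_true,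
        and_true, not_true_eq_false, and_false]
       decide)
    | (fin_cases q <;> simp only [iJ_n, iJ_l1, iJ_l2, F9.JS] <;> decide)
    | (fin_cases r <;> simp only [iJ_n, iJ_l1, iJ_l2, F9.JS] <;> decide)
    | (fin_cases q <;> fin_cases r <;>
        first
        | exact absurd rfl hne
        | (simp only [iJ, F9.JS]; decide))

/-! ### the pattern of homogeneous rails -/

/-- the relation of the vertices `x i (8 k + pos i)`, which have the numbers `L k + i` -/
def rP (L : ℕ) (pos : ℕ → ℕ) (E : ℕ → ℕ → Bool) (p q : ℕ) : Bool :=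
  bif Nat.blt (8 * (q / L) + pos (q % L)) (8 * (p / L) + pos (p % L)) then E (q % L) (p % L)
  else E (p % L) (q % L)

theorem sp_of_hom {G : SimpleGraph V} {L : ℕ} {x : ℕ → ℕ → V} {E : ℕ → ℕ → Bool}
    (h : Hom G L M0 x E) (hL : 0 < L) (pos : ℕ → ℕ) (hp : ∀ i < L, pos i < 8)
    (hinj : ∀ i < L, ∀ j < L, pos i = pos j → i = j) :
    SP G Set.univ (16 * L) (fun p => {x (p % L) (8 * (p / L) + pos (p % L))}) (rP L pos E) := by
  have hm : ∀ p, p % L < L := fun p => Nat.mod_lt p hL
  have hM : ∀ p < 16 * L, 8 * (p / L) + pos (p % L) < M0 := by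
    intro p hp'
    have h1 : p / L < 16 := Nat.div_lt_of_lt_mul (by rw [Nat.mul_comm]; exact hp')
    have h2 := hp _ (hm p)
    unfold M0
    omega
  have hne : ∀ p q, q < p → 8 * (q / L) + pos (q % L) ≠ 8 * (p / L) + pos (p % L) := by
    intro p q hqp he
    have h1 := hp _ (hm p)
    have h2 := hp _ (hm q)
    have h3 : q / L = p / L := by omega
    have h4 : q % L = p % L := hinj _ (hm q) _ (hm p) (by omega)
    have h5 := Nat.div_add_mod p L
    have h6 := Nat.div_add_mod q L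
    rw [h3, h4, h5] at h6
    omega
  refine ⟨fun _ _ => Set.subset_univ _, fun _ _ => Conn.singleton G _, fun p hp' q hq => ?_,
    fun p hp' q hq => ?_⟩
  · exact Set.disjoint_singleton.2 (h.dis _ (hm p) _ (hm q) _ (hM p hp') _ (hM q (by omega))
      (hne p q hq).symm)
  · have hM1 := hM p hp'
    have hM2 := hM q (by omega)
    rw [tch_single]
    unfold rP
    rcases lt_or_gt_of_ne (hne p q hq) with h1 | h1
    · have h2 : Nat.blt (8 * (q / L) + pos (q % L)) (8 * (p / L) + pos (p % L)) = true := by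
        rw [Nat.blt_eq]; exact h1
      rw [h2, cond_true, ← h.rel _ (hm q) _ (hm p) _ _ h1 hM1]
      exact ⟨fun h => h.symm, fun h => h.symm⟩
    · have h2 : Nat.blt (8 * (q / L) + pos (q % L)) (8 * (p / L) + pos (p % L)) = false := by
        rw [Bool.eq_false_iff]
        intro h3
        rw [Nat.blt_eq] at h3
        omega
      rw [h2, cond_false, ← h.rel _ (hm p) _ (hm q) _ _ h1 hM2]

/-- the relations given by the code `c` and the table `PM`: the hexadecimal digit `L i + j` of `PM` is `0` (the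
constant `false`), `1` (the constant `true`) or `k + 2` (the bit `k` of `c`) -/
def EC (L PM c i j : ℕ) : Bool := (4 * c + 2).testBit ((PM >>> (4 * (L * i + j))) % 16)

/-- the positions given by the octal digits of `PS` -/
def ps (PS i : ℕ) : ℕ := (PS >>> (3 * i)) % 8

/-- the check of one certificate -/
def chk (L PM PS : ℕ) (q : ℕ → ℕ → Bool) (c : ℕ) (C : List (List ℕ)) : Bool :=
  chkG (16 * L) 6 (rP L (ps PS) (EC L PM c)) q C || chkG (16 * L) 11 (rP L (ps PS) (EC L PM c)) qJ C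

theorem chk_false {G : SimpleGraph V} {L : ℕ} {x : ℕ → ℕ → V} {E : ℕ → ℕ → Bool} {q : ℕ → ℕ → Bool}
    (hq : SPF G Set.univ 6 q) (hJ : SPF G Set.univ 11 qJ) (h : Hom G L M0 x E) (hL : 0 < L)
    (PM PS c : ℕ) (hp : ∀ i < L, ps PS i < 8) (hinj : ∀ i < L, ∀ j < L, ps PS i = ps PS j → i = j)
    (hE : ∀ i < L, ∀ j < L, E i j = EC L PM c i j) {C : List (List ℕ)}
    (hc : chk L PM PS q c C = true) : False := by
  have h' : Hom G L M0 x (EC L PM c) :=
    ⟨h.dis, fun i hi j hj k l hkl hl => by rw [← hE i hi j hj]; exact h.rel i hi j hj k l hkl hl⟩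
  have hS := sp_of_hom h' hL (ps PS) hp hinj
  simp only [chk, Bool.or_eq_true] at hc
  rcases hc with hc | hc
  · exact hq _ (chkG_sp hS hc)
  · exact hJ _ (chkG_sp hS hc)

/-! ### codes -/

/-- every sequence of `n` bits has a code -/
theorem exists_code (f : ℕ → Bool) (n : ℕ) : ∃ c < 2 ^ n, ∀ k < n, c.testBit k = f k := by
  induction n with
  | zero => exact ⟨0, by simp, by simp⟩
  | succ n ih =>
    obtain ⟨c, hc, hf⟩ := ih
    rcases hb : f n with _ | _
    · refine ⟨c, hc.trans (Nat.pow_lt_pow_right (by omega) (by omega)), fun k hk => ?_⟩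
      rcases Nat.lt_succ_iff_lt_or_eq.1 hk with h1 | rfl
      · exact hf k h1
      · rw [hb]
        exact Nat.testBit_lt_two_pow hc
    · refine ⟨2 ^ n + c, by rw [pow_succ]; omega, fun k hk => ?_⟩
      rcases Nat.lt_succ_iff_lt_or_eq.1 hk with h1 | rfl
      · rw [Nat.testBit_two_pow_add_gt h1]
        exact hf k h1
      · rw [hb, Nat.testBit_two_pow_add_eq, Nat.testBit_lt_two_pow hc]
        rfl

theorem tb0 (c : ℕ) : (4 * c + 2).testBit 0 = false := by
  rw [Nat.testBit_zero]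
  simp only [decide_eq_false_iff_not]
  omega

theorem tb1 (c : ℕ) : (4 * c + 2).testBit 1 = true := by
  rw [show (1 : ℕ) = 0 + 1 from rfl, Nat.testBit_succ, Nat.testBit_zero]
  simp only [decide_eq_true_eq]
  omega

theorem tb2 (c k : ℕ) : (4 * c + 2).testBit (k + 2) = c.testBit k := by
  rw [Nat.testBit_succ, Nat.testBit_succ]
  congr 1
  omega

end Pool.Agent.MPd439b2.R3
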