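import Pool.Agent.Lib.MP_d439b2_co.R3.Chk

/-!
# MP_d439b2_co, R3: the finite facts for K4:0,1 (helper32)
-/

set_option autoImplicit false

namespace Pool.Agent.MPd439b2.R3

open Pool.Agent.MPd439b2
open Pool.Agent.MPd439b2.BU
open Pool.Agent.MPd439b2.HC

theorem c0_dg : ∃ C, chkG 48 6 rD q0 C = true :=
  ⟨[[10], [8, 7], [1], [4], [6], [9]], by decide +kernel⟩

/-- certificates -/
def k0_st : List (List (List ℕ)) := [
    [[5, 0], [9, 4], [2], [7], [3], [6]]]

/-- the numbers of the certificates -/
def i0_st : ℕ :=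
  0x0

theorem c0_st : ∃ cs ix, fam 2 16 1 q0 cs ix 1
    (fun _ => false) = true :=
  ⟨k0_st, i0_st, by decide +kernel⟩

/-- certificates -/
def k0_opK : List (List (List ℕ)) := [
    [[10], [4], [0], [7], [6], [8]],
    [[1], [10, 3], [4], [7], [5], [9]],
    [[1], [11], [7], [4], [5], [6]],
    [[8], [10, 0], [3], [7, 4], [2], [6]],
    [[10, 1], [11], [4], [7], [6], [9]],
    [[6], [7, 0], [3], [10], [8], [11]],
    [[3], [11, 4], [6], [0], [5, 1], [12], [13], [9], [14, 10], [17, 15], [16]],
    [[0], [1], [3, 2], [11, 9], [10], [8, 6], [7], [14, 12], [13], [17], [16]]]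

/-- the numbers of the certificates -/
def i0_opK : ℕ :=
  0x39ce7310a408c2208020

theorem c0_opK : ∃ cs ix, fam 3 12969903122 10 q0 cs ix 16
    (fun _ => false) = true :=
  ⟨k0_opK, i0_opK, by decide +kernel⟩

/-- certificates -/
def k0_opI : List (List (List ℕ)) := [
    [[10, 3], [14, 4], [0], [7], [6], [8]],
    [[10, 0], [11, 4], [7], [14], [12], [8]],
    [[0], [32], [3], [29, 7], [28, 6], [26, 10], [25, 9], [16], [19], [22, 12], [23, 13]],
    [[0], [11, 3], [4], [8], [5], [6]],
    [[14, 1], [3], [11, 4], [8], [5], [13]],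
    [[11, 0], [13], [10, 3], [6], [5], [9]],
    [[0], [6, 2], [7, 3], [10], [4], [9]],
    [[11], [6], [8, 1], [9], [7], [10]]]

/-- the numbers of the certificates -/
def i0_opI : ℕ :=
  0x398e611846f948310020

theorem c0_opI : ∃ cs ix, fam 3 12969837586 10 q0 cs ix 16
    (fun c =>
      c.testBit 0 && c.testBit 1 && c.testBit 2 && !c.testBit 3) = true :=
  ⟨k0_opI, i0_opI, by decide +kernel⟩

/-- certificates -/
def k0_sm : List (List (List ℕ)) := [
    [[7, 0], [13], [10, 3], [5], [4], [9]],
    [[0], [10], [3], [6], [4], [8]],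
    [[10, 2], [3], [5], [7], [4], [9]],
    [[7, 2], [10], [5], [6], [4], [8]],
    [[10, 0], [13, 5], [3], [7], [4], [9]],
    [[10, 2], [3], [5], [7], [4], [11]]]

/-- the numbers of the certificates -/
def i0_sm : ℕ :=
  0xf90a4090231004008020

theorem c0_sm : ∃ cs ix, fam 3 13237224466 129 q0 cs ix 16
    (fun c => c.testBit 2 && c.testBit 3) = true :=
  ⟨k0_sm, i0_sm, by decide +kernel⟩

/-- certificates -/
def k0_t4 : List (List (List ℕ)) := [
    [[0], [13, 6], [4], [8], [5], [11]],
    [[5, 0], [2], [9], [7], [8], [14]],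
    [[25, 16], [17], [21], [0], [27], [22, 4], [23, 5], [19, 9], [18, 8], [13, 11], [14]],
    [[15], [2], [6], [10], [12], [5]],
    [[8], [6], [10], [13], [7], [9]],
    [[3], [2, 9, 0], [8], [13], [1], [14]],
    [[13], [2], [5], [9], [8], [11]],
    [[13, 4], [10], [8], [14], [1], [15]],
    [[13], [2], [15], [7, 1], [8], [14]],
    [[0], [4], [39, 5], [21], [22], [35, 9], [34, 8], [30, 12], [31, 13], [26, 16], [27, 17]],
    [[8], [2], [10], [15], [3], [9]],
    [[9], [3], [0], [5], [6], [12]],
    [[17], [18], [13], [30, 0], [31, 1], [27, 5], [26, 4], [23, 9], [22, 8], [35], [39]],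
    [[7], [2], [9], [5], [8], [10]],
    [[13, 4], [2, 0], [8], [14], [1], [15]],
    [[9], [15], [2], [5], [4], [10]],
    [[9, 6], [15], [11], [4], [1], [10]],
    [[9, 6], [0], [15], [11], [1], [14]],
    [[11, 2], [10], [6], [0], [27], [19, 9], [18, 8], [23, 5], [22, 4], [13], [24, 14]],
    [[13], [7], [2], [9], [10], [12]],
    [[12], [6], [10], [14], [7], [9]],
    [[0], [39], [4], [27, 17], [26, 16], [21], [22], [35, 9], [34, 8], [31, 13], [30, 12]]]

/-- the numbers of the certificates -/
def i0_t4 : ℕ :=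
  0xffffffffffffffffffff6acbf9afff6acbffffffa509f8c7ff5289ffffff18c7f843ff18c7ffffffaa45f927ff6245ffffff0a03f7bfff0a03ffffff39c1f73bff39c1ffffff3181f31bff3181ffffff

theorem c0_t4 : ∃ cs ix, fam 4 5798406606843577874 836 q0 cs ix 128
    (fun c =>
      two 4 c || (c.testBit 4 && c.testBit 5 && c.testBit 6)) = true :=
  ⟨k0_t4, i0_t4, by decide +kernel⟩

/-- certificates -/
def k0_t6 : List (List (List ℕ)) := [
    [[4], [16, 7, 0], [10], [23], [11], [18]],
    [[16], [14], [18], [12], [7], [17]],
    [[8], [9, 7], [14], [5, 3], [4], [25], [19], [27], [34, 32], [35], [29]],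
    [[13, 10], [4], [16], [23], [6], [11]],
    [[10], [11, 9], [16], [0], [12], [15, 13], [14], [26, 18], [19], [27], [21]],
    [[15, 5], [16], [6, 3], [9, 1], [8], [21], [33], [23], [29], [25], [30, 26]],
    [[4], [5, 3], [10], [9, 7], [8], [15], [22, 20], [23], [17], [32, 18], [19]],
    [[10], [11, 3], [28], [25], [30, 26], [2], [8], [6], [18], [34, 32], [33]],
    [[10], [11, 3], [16], [9, 1], [8], [12], [24], [31], [35, 32], [21], [26, 22]],
    [[15], [13, 4], [11], [23], [18], [22]],
    [[3, 1], [8], [9, 2], [26, 5], [25], [6], [12], [27], [34, 32], [23, 21], [22]],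
    [[31], [32, 30], [25], [2], [20], [5, 3], [10], [12], [17], [28, 26], [27]],
    [[15], [32, 22], [21], [3, 1], [2], [4], [10], [19], [13], [24, 16], [17]],
    [[25], [32, 30], [31], [4], [16], [6], [18], [21], [22, 20], [15, 13], [14]],
    [[19], [32, 24], [25], [9, 1], [14], [4], [22], [35], [34, 30], [28, 26], [27]],
    [[8], [7, 3], [14], [17, 15], [16], [24, 20], [19], [29], [34, 30], [27], [32, 28]]]

/-- the numbers of the certificates -/
def i0_t6 : ℕ :=
  0x7bdff59fff791fffffff7359f5afffffffffffff3185f31bff3105ffffffffffffffffffffffffff4a53f4a7ff4a53ffffff4a53f4a7ffffffffffff3185f31bff2945ffffffffffffffffffffffffff0a03f09fff0903ffffff0b43f0abffffffffffff0a03f09fff0903ffffffffffffffffffffffffff4a53f4a7ff4a53ffffff4a53f4a7ffffffffffff00c1f00fff00c1ffffffffffffffffffffffffff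

theorem c0_t6 : ∃ cs ix, fam 6 9762552348003434981669898811452870835573010 90948 q0 cs ix 256
    (two 6) = true :=
  ⟨k0_t6, i0_t6, by decide +kernel⟩

/-- certificates -/
def k0_t7 : List (List (List ℕ)) := [
    [[16], [17], [32, 23], [29], [30, 26], [7], [11], [37, 21], [22, 13], [40, 14], [39, 15]],
    [[13, 1], [2], [6], [40], [41, 39], [20, 8], [19, 9], [18], [17], [34, 22], [30, 26]],
    [[27, 18], [19], [25, 20], [29], [37, 28], [21, 10], [11], [23], [41, 24], [32, 30], [31]],
    [[37, 14], [15], [21, 16], [0], [7], [27, 3], [9], [31], [32], [41, 39], [40]],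
    [[0], [4], [7, 5], [10, 1], [23], [34, 15], [14, 12], [31], [32, 30], [39, 22], [40]],
    [[33], [39, 8], [40], [0], [7], [15, 13], [35, 12], [2], [30], [5, 3], [4]],
    [[19, 13], [20], [6], [10, 7], [11], [23], [22], [39, 34], [26], [32, 30], [31]],
    [[25, 23], [24], [32], [0], [7], [8, 3], [16], [29], [37, 28], [40], [41, 39]],
    [[11], [18], [17, 12], [2], [16], [29], [35], [24], [32, 30], [41, 39], [40]],
    [[4], [39], [31], [0], [6], [34, 8], [33, 7], [22, 3], [23], [41, 15], [40, 21]],
    [[4], [18], [10, 5], [2], [20], [8], [36], [32, 30], [31], [41, 39], [40]],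
    [[27, 18], [19], [34], [5, 3], [11], [10, 8], [9], [22], [29], [24], [39, 30]],
    [[4], [18], [19, 11], [2], [13, 3], [36], [35], [27, 25], [26], [31], [39, 37]],
    [[17, 15], [23], [22, 10], [0], [13], [29], [35, 30], [26], [25], [31], [37, 32]],
    [[4], [5, 3], [11], [8], [22], [40], [41, 39], [13], [34], [17], [37, 25]],
    [[32], [10, 5], [39], [0], [6], [27, 8], [12, 7], [36, 31], [37], [34, 22], [35, 33]],
    [[2], [34, 3], [9], [40], [41, 39], [22], [35], [12, 10], [11], [38], [17]],
    [[41, 39], [19], [27, 25], [34, 3], [23], [10, 5], [11], [29], [35], [32, 30], [31]],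
    [[19, 13], [5], [40], [10, 8], [9], [17], [25, 23], [21], [27, 22], [37, 28], [29]],
    [[22], [35, 30], [29], [38], [39, 37], [17, 15], [16], [25], [32], [40], [41]],
    [[39, 30], [31], [38], [29], [37, 35], [28, 17], [18], [24, 22], [23], [27], [26]],
    [[30, 18], [17], [25, 23], [3, 0], [11], [2], [9], [29], [37, 28], [19], [41]],
    [[34], [26], [41], [10, 7], [18], [3, 1], [2], [30, 14], [15], [24], [39, 23]]]

/-- the numbers of the certificates -/
def i0_t7 : ℕ :=
  0x69d7f69fff69d7ffffff69d7f41fffffffffffff69d7f69fff69d7ffffffffffffffffffffffffff69d7f69fff69d7ffffff69d7f41fffffffffffffffffffffffffffffffffffffffffffffffffffffb597fad7ffa517ffffff9cd7f9cfffffffffffff9497f94bff9497ffffffffffffffffffffffffff318df31bff318dffffff318df31bffffffffffffffffffffffffffffffffffffffffffffffffffff7bdff797ff7bdfffffff4a53f497ffffffffffff7bdff7bfff7bdfffffffffffffffffffffffffff7bdff797ff7bdfffffff4a53f497ffffffffffffffffffffffffffffffffffffffffffffffffffff2109f213ff2109ffffff2109f213ffffffffffff2109f213ff2109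ffffffffffffffffffffffffff2109f213ff2109ffffff2109f213ffffffffffffffffffffffffffffffffffffffffffffffffffff88e3f88fff80e1ffffff60d5f40fffffffffffff88e3f88fff80e1ffffffffffffffffffffffffff88ddf88fff80ddffffff60d5f40fffffffffffffffffffffffffffffffffffffffffffffffffffff1085f10bff1085ffffff1085f10bffffffffffff1085f10bff1085ffffffffffffffffffffffffff1085f10bff1085ffffff1085f10bffffffffffffffffffffffffffffffffffffffffffffffffffff0843f087ff0843ffffff0843f087ffffffffffff0843f087ff0843ffffffffffffffffffffffffff0843f087ff0843ffffff0843f087ffffffffffffffffffffffffffffffffffffffffffffffffffff0001f003ff0001ffffff0001f003ffffffffffff0001f003ff0001ffffffffffffffffffffffffff0001f003ff0001ffffff0001f003ffffffffffffffffffffffffffffffffffffffffffffffffffff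

theorem c0_t7 : ∃ cs ix, fam 7 50636244752981687334866724453831405691610291835976180896018 1925956 q0 cs ix 1024
    (two 7) = true :=
  ⟨k0_t7, i0_t7, by decide +kernel⟩

/-- certificates -/
def k0_t8a : List (List (List ℕ)) := [
    [[10], [39, 16], [17], [0], [21], [29], [30, 28], [9, 5], [27], [33], [34, 32]],
    [[24], [25, 23], [17], [0], [4], [3, 1], [2], [30, 7], [8], [40], [41]],
    [[23], [22], [30, 28], [0], [14], [38], [39, 37], [40], [41], [31, 26], [32]],
    [[17, 14], [18], [35, 5], [24], [25, 23], [9, 7], [8], [33], [41, 32], [20], [27]],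
    [[14], [15], [21], [24], [25, 23], [4], [18], [33], [41, 39], [9], [13]],
    [[26], [41], [19], [3, 1], [9], [4], [11], [22], [28], [31], [32, 30]],
    [[12, 3], [18], [19, 10], [16], [27], [24], [39, 30], [29], [36], [34, 32], [33]],
    [[9], [10, 8], [16], [5, 3], [11], [38], [24], [35], [36], [40], [41]],
    [[30, 21], [22], [35, 23], [0], [7], [34, 1], [2], [10], [24], [33], [41, 39]],
    [[28], [22], [35], [9], [13], [12, 10], [18], [26], [34, 25], [24], [31]],
    [[41, 1], [16], [27, 10], [5, 3], [4], [22], [35], [19], [34, 32], [39, 30], [31]],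
    [[16], [15], [21], [26, 10], [25], [33], [41, 39], [13], [27], [31], [32, 30]],
    [[38, 32], [31], [39, 37], [24, 22], [23], [7], [11], [41], [19], [29], [36]],
    [[23, 21], [22], [37, 35], [17, 15], [16], [25], [28, 26], [31], [38], [41], [33]],
    [[37, 12], [20], [30, 19], [14], [25, 1], [3], [17], [22], [28, 23], [33], [40]],
    [[31], [39, 37], [24], [0], [11], [8], [30, 7], [16, 12], [13], [33], [40]],
    [[37, 32], [24], [30, 25], [15, 10], [16], [17, 12], [18], [26], [33], [35], [36]],
    [[22], [35, 30], [29], [7], [18, 8], [13, 10], [16], [34, 11], [12], [24], [25, 23]],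
    [[23], [30], [29, 24], [31, 19], [32], [40], [41], [35], [36], [39, 37], [38]],
    [[35, 30], [29], [36], [12, 3], [18], [24], [25, 23], [17, 15], [16], [41], [40]],
    [[32, 30], [31], [39, 37], [29], [28], [8, 3], [23], [24, 19], [25], [40], [41]]]

/-- the numbers of the certificates -/
def i0_t8a : ℕ :=
  0xa0a7f90bff388fffffff288bf28bffffffffffff80a1f80bff388fffffffffffffffffffffffffff5897f58bff388fffffff288bf28bffffffffffffffffffffffffffffffffffffffffffffffffffff0843f087ff6b59ffffff0843f087ffffffffffff0843f087ff6b59ffffffffffffffffffffffffff0843f087ff18c7ffffff0843f087ffffffffffffffffffffffffffffffffffffffffffffffffffff500df503ff4a0dffffff2009f203ffffffffffff500df503ff4a0dffffffffffffffffffffffffff500df503ff4a0dffffff2009f203ffffffffffffffffffffffffffffffffffffffffffffffffffff880df883ff8a0dffffff880df883ffffffffffff780df783ff720dffffffffffffffffffffffffff1807f183ff18c7ffffff1807f183ffffffffffffffffffffffffffffffffffffffffffffffffffff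

theorem c0_t8a : ∃ cs ix, fam 7 50636149346154601666817437341677250942264492713542273274130 1925956 q0 cs ix 512
    (two 7) = true :=
  ⟨k0_t8a, i0_t8a, by decide +kernel⟩

/-- certificates -/
def k0_t8b : List (List (List ℕ)) := [
    [[26], [36, 34], [33], [13, 8], [16, 12], [2], [3], [7], [35], [23, 19], [22, 20]],
    [[10], [39, 16], [17], [0], [21], [29], [30, 28], [9, 5], [27], [33], [34, 32]],
    [[17], [23], [10], [14], [25, 8], [36], [37, 35], [34], [41], [33, 21], [39, 22]],
    [[24], [25, 23], [17], [0], [4], [3, 1], [2], [30, 7], [8], [40], [41]],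
    [[17], [39, 37], [38], [14], [11], [34], [2], [36, 18], [35, 19], [41, 22], [40]],
    [[17, 14], [18], [35, 5], [24], [25, 23], [9, 7], [8], [33], [41, 32], [20], [27]],
    [[17, 11], [10], [24], [14], [4], [34], [2], [36, 18], [35, 19], [41, 22], [40]],
    [[37, 25], [10], [38], [0], [4], [3, 1], [2], [36, 18], [35, 19], [41], [40]],
    [[0], [39, 1], [21], [16], [20, 3], [5], [33], [37, 28], [29], [38], [31]],
    [[38, 32], [31], [39, 37], [24, 22], [23], [7], [11], [41], [19], [29], [36]],
    [[41, 3], [2], [6], [39, 8], [7], [12], [19], [25, 16], [17], [37, 35], [36]],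
    [[23, 21], [22], [37, 35], [17, 15], [16], [25], [28, 26], [31], [38], [41], [33]],
    [[28, 3], [4], [7], [29], [35, 30], [32, 22], [33, 21], [15, 11], [14, 12], [16], [23]],
    [[10], [37], [38], [3, 0], [4], [11, 1], [12, 7], [36, 25], [35, 26], [41], [40]],
    [[22], [35, 30], [29], [7], [18, 8], [13, 10], [16], [34, 11], [12], [24], [25, 23]],
    [[39, 8], [14], [11], [6], [2], [22], [37, 35], [24], [30, 25], [26], [41, 32]]]

/-- the numbers of the certificates -/
def i0_t8b : ℕ :=
  0x18c7f18fff5ad3ffffff18c7f18fffffffffffff18c7f18fff5ad3ffffffffffffffffffffffffff18c7f18fff294bffffff18c7f18fffffffffffffffffffffffffffffffffffffffffffffffffffff6b5bf633ff39cfffffff6b5bf633ffffffffffff6b5bf633ff39cfffffffffffffffffffffffffff1085f10bff39cfffffff1085f10bffffffffffffffffffffffffffffffffffffffffffffffffffff705ff707ff739fffffff705ff707ffffffffffff5055f507ff4291ffffffffffffffffffffffffff284bf287ff294bffffff284bf287ffffffffffffffffffffffffffffffffffffffffffffffffffff2009f203ff300dffffff2009f203ffffffffffff2109f213ff318dffffffffffffffffffffffffff2009f203ff300dffffff2009f203ffffffffffffffffffffffffffffffffffffffffffffffffffff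

theorem c0_t8b : ∃ cs ix, fam 7 50636149346154780072778978855990656414562019377767171232018 1925956 q0 cs ix 512
    (two 7) = true :=
  ⟨k0_t8b, i0_t8b, by decide +kernel⟩

/-- the checks for K4:0,1 -/
theorem chk_q0 : Chk q0 :=
  ⟨c0_dg, c0_st, c0_opK, c0_opI, c0_sm, c0_t4, c0_t6, c0_t7, c0_t8a, c0_t8b⟩

/-- **the finite facts for K4:0,1** -/
theorem facts0 {V : Type} {G : SimpleGraph V} (h : ¬ IMS (KA 4 2 ![{0}, {1}]) G Set.univ)
    (hJ : ¬ IMS (F9.JS ![0, 1, 1] 4) G Set.univ) : Facts G :=
  facts_of (spf0 h) (spfJ hJ) chk_q0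

end Pool.Agent.MPd439b2.R3
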