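import Pool.Agent.Lib.MP_d439b2_co.R3.Eng

/-!
# MP_d439b2_co, R3: the finite facts from checked families of certificates (helper32)
-/

set_option autoImplicit false

namespace Pool.Agent.MPd439b2.R3

open Pool.Agent.MPd439b2
open Pool.Agent.MPd439b2.BU
open Pool.Agent.MPd439b2.HC

variable {V : Type}

/-- the meaning of the digits of the table -/
def gF (f : ℕ → Bool) : ℕ → Bool
  | 0 => false
  | 1 => true
  | k + 2 => f k

theorem rep_of {E : ℕ → ℕ → Bool} {L PM n : ℕ} (f : ℕ → Bool)
    (hd : ∀ i < L, ∀ j < L, (PM >>> (4 * (L * i + j))) % 16 < n + 2)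
    (hE : ∀ i < L, ∀ j < L, E i j = gF f ((PM >>> (4 * (L * i + j))) % 16)) :
    ∃ c < 2 ^ n, (∀ k < n, c.testBit k = f k) ∧ ∀ i < L, ∀ j < L, E i j = EC L PM c i j := by
  obtain ⟨c, hc, hf⟩ := exists_code f n
  refine ⟨c, hc, hf, fun i hi j hj => ?_⟩
  have h1 := hd i hi j hj
  rw [hE i hi j hj]
  unfold EC
  generalize (PM >>> (4 * (L * i + j))) % 16 = d at h1 ⊢
  match d, h1 with
  | 0, _ => rw [tb0]; rfl
  | 1, _ => rw [tb1]; rfl
  | k + 2, h1 => rw [tb2, hf k (by omega)]; rfl

/-- the check of a family of codes -/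
def fam (L PM PS : ℕ) (q : ℕ → ℕ → Bool) (cs : List (List (List ℕ))) (ix N : ℕ) (flt : ℕ → Bool) : Bool :=
  (List.range N).all fun c => flt c || chk L PM PS q c (cs.getD ((ix >>> (5 * c)) % 32) [])

theorem fam_false {G : SimpleGraph V} {L : ℕ} {x : ℕ → ℕ → V} {E : ℕ → ℕ → Bool} {q : ℕ → ℕ → Bool}
    (hq : SPF G Set.univ 6 q) (hJ : SPF G Set.univ 11 qJ) (h : Hom G L M0 x E) (hL : 0 < L)
    {PM PS c : ℕ} (hp : ∀ i < L, ps PS i < 8) (hinj : ∀ i < L, ∀ j < L, ps PS i = ps PS j → i = j)
    (hE : ∀ i < L, ∀ j < L, E i j = EC L PM c i j) {cs : List (List (List ℕ))} {ix N : ℕ}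
    {flt : ℕ → Bool} (hf : fam L PM PS q cs ix N flt = true) (hc : c < N) (hfl : flt c = false) :
    False := by
  simp only [fam, List.all_eq_true, List.mem_range, Bool.or_eq_true] at hf
  rcases hf c hc with h1 | h1
  · rw [hfl] at h1
    exact Bool.false_ne_true h1
  · exact chk_false hq hJ h hL PM PS c hp hinj hE h1

/-- two consecutive zeros among the first `L` bits -/
def two (L c : ℕ) : Bool := (List.range (L - 1)).any fun i => !c.testBit i && !c.testBit (i + 1)

/-! ### two and three rails -/

/-- no half graph between two stable rails -/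
theorem f_st {G : SimpleGraph V} {q : ℕ → ℕ → Bool} (hq : SPF G Set.univ 6 q) (hJ : SPF G Set.univ 11 qJ)
    {cs : List (List (List ℕ))} {ix : ℕ} (hf : fam 2 16 1 q cs ix 1 (fun _ => false) = true)
    (x : ℕ → ℕ → V) (E : ℕ → ℕ → Bool) (h : Hom G 2 M0 x E) (h0 : E 0 0 = false) (h1 : E 1 1 = false)
    (h2 : E 0 1 = true) (h3 : E 1 0 = false) : False := by
  obtain ⟨c, hc, -, hE⟩ := rep_of (E := E) (L := 2) (PM := 16) (n := 0) (fun _ => false) (by decide) (by
    intro i hi j hj
    interval_cases i <;> interval_cases j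
    · exact h0
    · exact h2
    · exact h3
    · exact h1)
  exact fam_false hq hJ h (by omega) (by decide) (by decide) hE hf hc rfl

/-- no clique rail with two half graphs in opposite directions -/
theorem f_opK {G : SimpleGraph V} {q : ℕ → ℕ → Bool} (hq : SPF G Set.univ 6 q) (hJ : SPF G Set.univ 11 qJ)
    {cs : List (List (List ℕ))} {ix : ℕ} (hf : fam 3 12969903122 10 q cs ix 16 (fun _ => false) = true)
    (x : ℕ → ℕ → V) (E : ℕ → ℕ → Bool) (h : Hom G 3 M0 x E) (h11 : E 1 1 = true)
    (h01 : E 0 1 = true) (h10 : E 1 0 = false) (h12 : E 1 2 = true) (h21 : E 2 1 = false) : False := by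
  obtain ⟨c, hc, hb, hE⟩ := rep_of (E := E) (L := 3) (PM := 12969903122) (n := 4)
    (fun k => match k with | 0 => E 0 0 | 1 => E 2 2 | 2 => E 0 2 | _ => E 2 0) (by decide) (by
    intro i hi j hj
    interval_cases i <;> interval_cases j <;> first | rfl | assumption)
  have b0 : c.testBit 0 = E 0 0 := hb 0 (by omega)
  have b1 : c.testBit 1 = E 2 2 := hb 1 (by omega)
  have b2 : c.testBit 2 = E 0 2 := hb 2 (by omega)
  have b3 : c.testBit 3 = E 2 0 := hb 3 (by omega)
  exact fam_false hq hJ h (by omega) (by decide) (by decide) hE hf hc rfl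

/-- a stable rail with two half graphs in opposite directions -/
theorem f_opI {G : SimpleGraph V} {q : ℕ → ℕ → Bool} (hq : SPF G Set.univ 6 q) (hJ : SPF G Set.univ 11 qJ)
    {cs : List (List (List ℕ))} {ix : ℕ} (hf : fam 3 12969837586 10 q cs ix 16 (fun c =>
      c.testBit 0 && c.testBit 1 && c.testBit 2 && !c.testBit 3) = true)
    (x : ℕ → ℕ → V) (E : ℕ → ℕ → Bool) (h : Hom G 3 M0 x E) (h11 : E 1 1 = false)
    (h01 : E 0 1 = true) (h10 : E 1 0 = false) (h12 : E 1 2 = true) (h21 : E 2 1 = false) : 
    E 0 0 = true ∧ E 2 2 = true ∧ E 0 2 = true ∧ E 2 0 = false := by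
  obtain ⟨c, hc, hb, hE⟩ := rep_of (E := E) (L := 3) (PM := 12969837586) (n := 4)
    (fun k => match k with | 0 => E 0 0 | 1 => E 2 2 | 2 => E 0 2 | _ => E 2 0) (by decide) (by
    intro i hi j hj
    interval_cases i <;> interval_cases j <;> first | rfl | assumption)
  have b0 : c.testBit 0 = E 0 0 := hb 0 (by omega)
  have b1 : c.testBit 1 = E 2 2 := hb 1 (by omega)
  have b2 : c.testBit 2 = E 0 2 := hb 2 (by omega)
  have b3 : c.testBit 3 = E 2 0 := hb 3 (by omega)
  by_contra hcon
  refine fam_false hq hJ h (by omega) (by decide) (by decide) hE hf hc ?_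
  simp only [b0, b1, b2, b3]
  revert hcon
  cases E 0 0 <;> cases E 2 2 <;> cases E 0 2 <;> cases E 2 0 <;> simp

/-- a stable rail with two half graphs in the same direction -/
theorem f_sm {G : SimpleGraph V} {q : ℕ → ℕ → Bool} (hq : SPF G Set.univ 6 q) (hJ : SPF G Set.univ 11 qJ)
    {cs : List (List (List ℕ))} {ix : ℕ} (hf : fam 3 13237224466 129 q cs ix 16 (fun c => c.testBit 2 && c.testBit 3) = true)
    (x : ℕ → ℕ → V) (E : ℕ → ℕ → Bool) (h : Hom G 3 M0 x E) (h11 : E 1 1 = false)
    (h01 : E 0 1 = true) (h10 : E 1 0 = false) (h21 : E 2 1 = true) (h12 : E 1 2 = false) : 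
    E 0 2 = true ∧ E 2 0 = true := by
  obtain ⟨c, hc, hb, hE⟩ := rep_of (E := E) (L := 3) (PM := 13237224466) (n := 4)
    (fun k => match k with | 0 => E 0 0 | 1 => E 2 2 | 2 => E 0 2 | _ => E 2 0) (by decide) (by
    intro i hi j hj
    interval_cases i <;> interval_cases j <;> first | rfl | assumption)
  have b0 : c.testBit 0 = E 0 0 := hb 0 (by omega)
  have b1 : c.testBit 1 = E 2 2 := hb 1 (by omega)
  have b2 : c.testBit 2 = E 0 2 := hb 2 (by omega)
  have b3 : c.testBit 3 = E 2 0 := hb 3 (by omega)
  by_contra hcon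
  refine fam_false hq hJ h (by omega) (by decide) (by decide) hE hf hc ?_
  simp only [b2, b3]
  revert hcon
  cases E 0 2 <;> cases E 2 0 <;> simp

/-! ### tracks -/

/-- there are no two consecutive stable rails in a track -/
theorem trk_two {G : SimpleGraph V} {L : ℕ} {x : ℕ → ℕ → V} {E : ℕ → ℕ → Bool} (h : Trk G L M0 x E)
    (hst : ∀ x E, Hom G 2 M0 x E → E 0 0 = false → E 1 1 = false → E 0 1 = true → E 1 0 = false → False)
    {c : ℕ} (hc : ∀ i < L, c.testBit i = E i i) : two L c = false := by
  rw [Bool.eq_false_iff]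
  intro h1
  simp only [two, List.any_eq_true, List.mem_range, Bool.and_eq_true, Bool.not_eq_true'] at h1
  obtain ⟨i, hi, h2, h3⟩ := h1
  have h4 : i + 1 < L := by omega
  rw [hc i (by omega)] at h2
  rw [hc (i + 1) h4] at h3
  rcases Nat.mod_two_eq_zero_or_one i with h5 | h5
  · have h6 := h.su i h4 h5
    refine hst _ _ (h.hom.sub (L' := 2) (fun a => if a = 0 then i else i + 1) (fun a _ => ?_)) ?_ ?_ ?_ ?_
    · split_ifs <;> omega
    · simpa using h2
    · simpa using h3
    · simpa using h6.1
    · simpa using h6.2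
  · have h6 := h.sd i h4 h5
    refine hst _ _ (h.hom.sub (L' := 2) (fun a => if a = 0 then i + 1 else i) (fun a _ => ?_)) ?_ ?_ ?_ ?_
    · split_ifs <;> omega
    · simpa using h3
    · simpa using h2
    · simpa using h6.2
    · simpa using h6.1

/-- tracks with four rails -/
theorem f_t4 {G : SimpleGraph V} {q : ℕ → ℕ → Bool} (hq : SPF G Set.univ 6 q) (hJ : SPF G Set.univ 11 qJ)
    {cs : List (List (List ℕ))} {ix : ℕ}
    (hf : fam 4 5798406606843577874 836 q cs ix 128 (fun c =>
      two 4 c || (c.testBit 4 && c.testBit 5 && c.testBit 6)) = true)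
    (hst : ∀ x E, Hom G 2 M0 x E → E 0 0 = false → E 1 1 = false → E 0 1 = true → E 1 0 = false → False)
    (x : ℕ → ℕ → V) (E : ℕ → ℕ → Bool) (h : Trk G 4 M0 x E) :
    E 0 2 = true ∧ E 1 3 = true ∧ E 0 3 = true := by
  have s0 : E 0 1 = true ∧ E 1 0 = false := h.su 0 (by omega) (by omega)
  have s1 : E 1 2 = false ∧ E 2 1 = true := h.sd 1 (by omega) (by omega)
  have s2 : E 2 3 = true ∧ E 3 2 = false := h.su 2 (by omega) (by omega)
  obtain ⟨c, hc, hb, hE⟩ := rep_of (E := E) (L := 4) (PM := 5798406606843577874) (n := 7)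
    (fun k => match k with | 0 => E 0 0 | 1 => E 1 1 | 2 => E 2 2 | 3 => E 3 3 | 4 => E 0 2 | 5 => E 1 3 | _ => E 0 3) (by decide) (by
    intro i hi j hj
    interval_cases i <;> interval_cases j
    · exact rfl
    · exact s0.1
    · exact rfl
    · exact rfl
    · exact s0.2
    · exact rfl
    · exact s1.1
    · exact rfl
    · exact (h.non 0 2 (by omega) (by omega)).symm
    · exact s1.2
    · exact rfl
    · exact s2.1
    · exact (h.non 0 3 (by omega) (by omega)).symm
    · exact (h.non 1 3 (by omega) (by omega)).symm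
    · exact s2.2
    · exact rfl)
  have h2 : two 4 c = false := trk_two h hst (fun i hi => by
    rw [hb i (by omega)]
    interval_cases i <;> rfl)
  have b4 : c.testBit 4 = E 0 2 := hb 4 (by omega)
  have b5 : c.testBit 5 = E 1 3 := hb 5 (by omega)
  have b6 : c.testBit 6 = E 0 3 := hb 6 (by omega)
  by_contra hcon
  refine fam_false hq hJ h.hom (by omega) (by decide) (by decide) hE hf hc ?_
  simp only [h2, b4, b5, b6]
  revert hcon
  cases E 0 2 <;> cases E 1 3 <;> cases E 0 3 <;> simp

/-- tracks with six rails -/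
theorem f_t6 {G : SimpleGraph V} {q : ℕ → ℕ → Bool} (hq : SPF G Set.univ 6 q) (hJ : SPF G Set.univ 11 qJ)
    {cs : List (List (List ℕ))} {ix : ℕ}
    (hf : fam 6 9762552348003434981669898811452870835573010 90948 q cs ix 256 (two 6) = true)
    (hst : ∀ x E, Hom G 2 M0 x E → E 0 0 = false → E 1 1 = false → E 0 1 = true → E 1 0 = false → False)
    (x : ℕ → ℕ → V) (E : ℕ → ℕ → Bool) (h : Trk G 6 M0 x E)
    (c02 : E 0 2 = true) (c03 : E 0 3 = true) (c05 : E 0 5 = false) (c13 : E 1 3 = true) (c14 : E 1 4 = true)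
    (c24 : E 2 4 = true) (c25 : E 2 5 = true) (c35 : E 3 5 = true) :
    False := by
  have s0 : E 0 1 = true ∧ E 1 0 = false := h.su 0 (by omega) (by omega)
  have s1 : E 1 2 = false ∧ E 2 1 = true := h.sd 1 (by omega) (by omega)
  have s2 : E 2 3 = true ∧ E 3 2 = false := h.su 2 (by omega) (by omega)
  have s3 : E 3 4 = false ∧ E 4 3 = true := h.sd 3 (by omega) (by omega)
  have s4 : E 4 5 = true ∧ E 5 4 = false := h.su 4 (by omega) (by omega)
  obtain ⟨c, hc, hb, hE⟩ := rep_of (E := E) (L := 6) (PM := 9762552348003434981669898811452870835573010) (n := 8)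
    (fun k => match k with | 0 => E 0 0 | 1 => E 1 1 | 2 => E 2 2 | 3 => E 3 3 | 4 => E 4 4 | 5 => E 5 5 | 6 => E 0 4 | _ => E 1 5) (by decide) (by
    intro i hi j hj
    interval_cases i <;> interval_cases j
    · exact rfl
    · exact s0.1
    · exact c02
    · exact c03
    · exact rfl
    · exact c05
    · exact s0.2
    · exact rfl
    · exact s1.1
    · exact c13
    · exact c14
    · exact rfl
    · exact (h.non 0 2 (by omega) (by omega)).symm.trans c02
    · exact s1.2
    · exact rfl
    · exact s2.1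
    · exact c24
    · exact c25
    · exact (h.non 0 3 (by omega) (by omega)).symm.trans c03
    · exact (h.non 1 3 (by omega) (by omega)).symm.trans c13
    · exact s2.2
    · exact rfl
    · exact s3.1
    · exact c35
    · exact (h.non 0 4 (by omega) (by omega)).symm
    · exact (h.non 1 4 (by omega) (by omega)).symm.trans c14
    · exact (h.non 2 4 (by omega) (by omega)).symm.trans c24
    · exact s3.2
    · exact rfl
    · exact s4.1
    · exact (h.non 0 5 (by omega) (by omega)).symm.trans c05
    · exact (h.non 1 5 (by omega) (by omega)).symm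
    · exact (h.non 2 5 (by omega) (by omega)).symm.trans c25
    · exact (h.non 3 5 (by omega) (by omega)).symm.trans c35
    · exact s4.2
    · exact rfl)
  have h2 : two 6 c = false := trk_two h hst (fun i hi => by
    rw [hb i (by omega)]
    interval_cases i <;> rfl)
  exact fam_false hq hJ h.hom (by omega) (by decide) (by decide) hE hf hc h2

/-- tracks with seven rails -/
theorem f_t7 {G : SimpleGraph V} {q : ℕ → ℕ → Bool} (hq : SPF G Set.univ 6 q) (hJ : SPF G Set.univ 11 qJ)
    {cs : List (List (List ℕ))} {ix : ℕ}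
    (hf : fam 7 50636244752981687334866724453831405691610291835976180896018 1925956 q cs ix 1024 (two 7) = true)
    (hst : ∀ x E, Hom G 2 M0 x E → E 0 0 = false → E 1 1 = false → E 0 1 = true → E 1 0 = false → False)
    (x : ℕ → ℕ → V) (E : ℕ → ℕ → Bool) (h : Trk G 7 M0 x E)
    (c02 : E 0 2 = true) (c03 : E 0 3 = true) (c05 : E 0 5 = true) (c06 : E 0 6 = false) (c13 : E 1 3 = true)
    (c14 : E 1 4 = true) (c16 : E 1 6 = true) (c24 : E 2 4 = true) (c25 : E 2 5 = true) (c35 : E 3 5 = true)
    (c36 : E 3 6 = true) (c46 : E 4 6 = true) :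
    False := by
  have s0 : E 0 1 = true ∧ E 1 0 = false := h.su 0 (by omega) (by omega)
  have s1 : E 1 2 = false ∧ E 2 1 = true := h.sd 1 (by omega) (by omega)
  have s2 : E 2 3 = true ∧ E 3 2 = false := h.su 2 (by omega) (by omega)
  have s3 : E 3 4 = false ∧ E 4 3 = true := h.sd 3 (by omega) (by omega)
  have s4 : E 4 5 = true ∧ E 5 4 = false := h.su 4 (by omega) (by omega)
  have s5 : E 5 6 = false ∧ E 6 5 = true := h.sd 5 (by omega) (by omega)
  obtain ⟨c, hc, hb, hE⟩ := rep_of (E := E) (L := 7) (PM := 50636244752981687334866724453831405691610291835976180896018) (n := 10)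
    (fun k => match k with | 0 => E 0 0 | 1 => E 1 1 | 2 => E 2 2 | 3 => E 3 3 | 4 => E 4 4 | 5 => E 5 5 | 6 => E 6 6 | 7 => E 0 4 | 8 => E 1 5 | _ => E 2 6) (by decide) (by
    intro i hi j hj
    interval_cases i <;> interval_cases j
    · exact rfl
    · exact s0.1
    · exact c02
    · exact c03
    · exact rfl
    · exact c05
    · exact c06
    · exact s0.2
    · exact rfl
    · exact s1.1
    · exact c13
    · exact c14
    · exact rfl
    · exact c16
    · exact (h.non 0 2 (by omega) (by omega)).symm.trans c02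
    · exact s1.2
    · exact rfl
    · exact s2.1
    · exact c24
    · exact c25
    · exact rfl
    · exact (h.non 0 3 (by omega) (by omega)).symm.trans c03
    · exact (h.non 1 3 (by omega) (by omega)).symm.trans c13
    · exact s2.2
    · exact rfl
    · exact s3.1
    · exact c35
    · exact c36
    · exact (h.non 0 4 (by omega) (by omega)).symm
    · exact (h.non 1 4 (by omega) (by omega)).symm.trans c14
    · exact (h.non 2 4 (by omega) (by omega)).symm.trans c24
    · exact s3.2
    · exact rfl
    · exact s4.1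
    · exact c46
    · exact (h.non 0 5 (by omega) (by omega)).symm.trans c05
    · exact (h.non 1 5 (by omega) (by omega)).symm
    · exact (h.non 2 5 (by omega) (by omega)).symm.trans c25
    · exact (h.non 3 5 (by omega) (by omega)).symm.trans c35
    · exact s4.2
    · exact rfl
    · exact s5.1
    · exact (h.non 0 6 (by omega) (by omega)).symm.trans c06
    · exact (h.non 1 6 (by omega) (by omega)).symm.trans c16
    · exact (h.non 2 6 (by omega) (by omega)).symm
    · exact (h.non 3 6 (by omega) (by omega)).symm.trans c36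
    · exact (h.non 4 6 (by omega) (by omega)).symm.trans c46
    · exact s5.2
    · exact rfl)
  have h2 : two 7 c = false := trk_two h hst (fun i hi => by
    rw [hb i (by omega)]
    interval_cases i <;> rfl)
  exact fam_false hq hJ h.hom (by omega) (by decide) (by decide) hE hf hc h2

/-- tracks with seven rails, `E 1 5 = true` -/
theorem f_t8a {G : SimpleGraph V} {q : ℕ → ℕ → Bool} (hq : SPF G Set.univ 6 q) (hJ : SPF G Set.univ 11 qJ)
    {cs : List (List (List ℕ))} {ix : ℕ}
    (hf : fam 7 50636149346154601666817437341677250942264492713542273274130 1925956 q cs ix 512 (two 7) = true)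
    (hst : ∀ x E, Hom G 2 M0 x E → E 0 0 = false → E 1 1 = false → E 0 1 = true → E 1 0 = false → False)
    (x : ℕ → ℕ → V) (E : ℕ → ℕ → Bool) (h : Trk G 7 M0 x E)
    (c02 : E 0 2 = true) (c03 : E 0 3 = true) (c05 : E 0 5 = true) (c06 : E 0 6 = true) (c13 : E 1 3 = true)
    (c14 : E 1 4 = true) (c15 : E 1 5 = true) (c16 : E 1 6 = true) (c24 : E 2 4 = true) (c25 : E 2 5 = true)
    (c35 : E 3 5 = true) (c36 : E 3 6 = true) (c46 : E 4 6 = true) :
    False := by
  have s0 : E 0 1 = true ∧ E 1 0 = false := h.su 0 (by omega) (by omega)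
  have s1 : E 1 2 = false ∧ E 2 1 = true := h.sd 1 (by omega) (by omega)
  have s2 : E 2 3 = true ∧ E 3 2 = false := h.su 2 (by omega) (by omega)
  have s3 : E 3 4 = false ∧ E 4 3 = true := h.sd 3 (by omega) (by omega)
  have s4 : E 4 5 = true ∧ E 5 4 = false := h.su 4 (by omega) (by omega)
  have s5 : E 5 6 = false ∧ E 6 5 = true := h.sd 5 (by omega) (by omega)
  obtain ⟨c, hc, hb, hE⟩ := rep_of (E := E) (L := 7) (PM := 50636149346154601666817437341677250942264492713542273274130) (n := 9)
    (fun k => match k with | 0 => E 0 0 | 1 => E 1 1 | 2 => E 2 2 | 3 => E 3 3 | 4 => E 4 4 | 5 => E 5 5 | 6 => E 6 6 | 7 => E 0 4 | _ => E 2 6) (by decide) (by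
    intro i hi j hj
    interval_cases i <;> interval_cases j
    · exact rfl
    · exact s0.1
    · exact c02
    · exact c03
    · exact rfl
    · exact c05
    · exact c06
    · exact s0.2
    · exact rfl
    · exact s1.1
    · exact c13
    · exact c14
    · exact c15
    · exact c16
    · exact (h.non 0 2 (by omega) (by omega)).symm.trans c02
    · exact s1.2
    · exact rfl
    · exact s2.1
    · exact c24
    · exact c25
    · exact rfl
    · exact (h.non 0 3 (by omega) (by omega)).symm.trans c03
    · exact (h.non 1 3 (by omega) (by omega)).symm.trans c13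
    · exact s2.2
    · exact rfl
    · exact s3.1
    · exact c35
    · exact c36
    · exact (h.non 0 4 (by omega) (by omega)).symm
    · exact (h.non 1 4 (by omega) (by omega)).symm.trans c14
    · exact (h.non 2 4 (by omega) (by omega)).symm.trans c24
    · exact s3.2
    · exact rfl
    · exact s4.1
    · exact c46
    · exact (h.non 0 5 (by omega) (by omega)).symm.trans c05
    · exact (h.non 1 5 (by omega) (by omega)).symm.trans c15
    · exact (h.non 2 5 (by omega) (by omega)).symm.trans c25
    · exact (h.non 3 5 (by omega) (by omega)).symm.trans c35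
    · exact s4.2
    · exact rfl
    · exact s5.1
    · exact (h.non 0 6 (by omega) (by omega)).symm.trans c06
    · exact (h.non 1 6 (by omega) (by omega)).symm.trans c16
    · exact (h.non 2 6 (by omega) (by omega)).symm
    · exact (h.non 3 6 (by omega) (by omega)).symm.trans c36
    · exact (h.non 4 6 (by omega) (by omega)).symm.trans c46
    · exact s5.2
    · exact rfl)
  have h2 : two 7 c = false := trk_two h hst (fun i hi => by
    rw [hb i (by omega)]
    interval_cases i <;> rfl)
  exact fam_false hq hJ h.hom (by omega) (by decide) (by decide) hE hf hc h2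

/-- tracks with seven rails, `E 0 4 = false` -/
theorem f_t8b {G : SimpleGraph V} {q : ℕ → ℕ → Bool} (hq : SPF G Set.univ 6 q) (hJ : SPF G Set.univ 11 qJ)
    {cs : List (List (List ℕ))} {ix : ℕ}
    (hf : fam 7 50636149346154780072778978855990656414562019377767171232018 1925956 q cs ix 512 (two 7) = true)
    (hst : ∀ x E, Hom G 2 M0 x E → E 0 0 = false → E 1 1 = false → E 0 1 = true → E 1 0 = false → False)
    (x : ℕ → ℕ → V) (E : ℕ → ℕ → Bool) (h : Trk G 7 M0 x E)
    (c02 : E 0 2 = true) (c03 : E 0 3 = true) (c04 : E 0 4 = false) (c05 : E 0 5 = true) (c06 : E 0 6 = true)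
    (c13 : E 1 3 = true) (c14 : E 1 4 = true) (c16 : E 1 6 = true) (c24 : E 2 4 = true) (c25 : E 2 5 = true)
    (c35 : E 3 5 = true) (c36 : E 3 6 = true) (c46 : E 4 6 = true) :
    False := by
  have s0 : E 0 1 = true ∧ E 1 0 = false := h.su 0 (by omega) (by omega)
  have s1 : E 1 2 = false ∧ E 2 1 = true := h.sd 1 (by omega) (by omega)
  have s2 : E 2 3 = true ∧ E 3 2 = false := h.su 2 (by omega) (by omega)
  have s3 : E 3 4 = false ∧ E 4 3 = true := h.sd 3 (by omega) (by omega)
  have s4 : E 4 5 = true ∧ E 5 4 = false := h.su 4 (by omega) (by omega)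
  have s5 : E 5 6 = false ∧ E 6 5 = true := h.sd 5 (by omega) (by omega)
  obtain ⟨c, hc, hb, hE⟩ := rep_of (E := E) (L := 7) (PM := 50636149346154780072778978855990656414562019377767171232018) (n := 9)
    (fun k => match k with | 0 => E 0 0 | 1 => E 1 1 | 2 => E 2 2 | 3 => E 3 3 | 4 => E 4 4 | 5 => E 5 5 | 6 => E 6 6 | 7 => E 1 5 | _ => E 2 6) (by decide) (by
    intro i hi j hj
    interval_cases i <;> interval_cases j
    · exact rfl
    · exact s0.1
    · exact c02
    · exact c03
    · exact c04
    · exact c05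
    · exact c06
    · exact s0.2
    · exact rfl
    · exact s1.1
    · exact c13
    · exact c14
    · exact rfl
    · exact c16
    · exact (h.non 0 2 (by omega) (by omega)).symm.trans c02
    · exact s1.2
    · exact rfl
    · exact s2.1
    · exact c24
    · exact c25
    · exact rfl
    · exact (h.non 0 3 (by omega) (by omega)).symm.trans c03
    · exact (h.non 1 3 (by omega) (by omega)).symm.trans c13
    · exact s2.2
    · exact rfl
    · exact s3.1
    · exact c35
    · exact c36
    · exact (h.non 0 4 (by omega) (by omega)).symm.trans c04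
    · exact (h.non 1 4 (by omega) (by omega)).symm.trans c14
    · exact (h.non 2 4 (by omega) (by omega)).symm.trans c24
    · exact s3.2
    · exact rfl
    · exact s4.1
    · exact c46
    · exact (h.non 0 5 (by omega) (by omega)).symm.trans c05
    · exact (h.non 1 5 (by omega) (by omega)).symm
    · exact (h.non 2 5 (by omega) (by omega)).symm.trans c25
    · exact (h.non 3 5 (by omega) (by omega)).symm.trans c35
    · exact s4.2
    · exact rfl
    · exact s5.1
    · exact (h.non 0 6 (by omega) (by omega)).symm.trans c06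
    · exact (h.non 1 6 (by omega) (by omega)).symm.trans c16
    · exact (h.non 2 6 (by omega) (by omega)).symm
    · exact (h.non 3 6 (by omega) (by omega)).symm.trans c36
    · exact (h.non 4 6 (by omega) (by omega)).symm.trans c46
    · exact s5.2
    · exact rfl)
  have h2 : two 7 c = false := trk_two h hst (fun i hi => by
    rw [hb i (by omega)]
    interval_cases i <;> rfl)
  exact fam_false hq hJ h.hom (by omega) (by decide) (by decide) hE hf hc h2

end Pool.Agent.MPd439b2.R3
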