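import Pool.Agent.Lib.MP_d439b2_co.R3.SpecA

/-!
# MP_d439b2_co, R3, Three: three equivalence relations
-/

set_option autoImplicit false

namespace Pool.Agent.MPd439b2.R3

open Pool.Agent.MPd439b2 Pool.Agent.MPd439b2.W Pool.Agent.MPd439b2.X2

private theorem three_aux {V : Type} {Y : Set V} {f g h : V → ℕ}
    (hyp : ∀ x ∈ Y, ∀ y ∈ Y, f x = f y ∨ g x = g y ∨ h x = h y) {x₁ x₂ x₃ : V} (m₁ : x₁ ∈ Y)
    (m₂ : x₂ ∈ Y) (m₃ : x₃ ∈ Y) (f12 : f x₁ ≠ f x₂) (f13 : f x₁ ≠ f x₃) (f23 : f x₂ ≠ f x₃)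
    (g12 : g x₁ = g x₂) (g13 : g x₁ = g x₃) :
    ∃ P : Set V, (∀ x ∈ Y ∩ P, ∀ y ∈ Y ∩ P, g x = g y) ∧ ∀ x ∈ Y \ P, ∀ y ∈ Y \ P, h x = h y := by
  refine ⟨{x | g x = g x₁}, fun x hx y hy => hx.2.trans hy.2.symm, ?_⟩
  have two : ∀ y ∈ Y, g y ≠ g x₁ → (h y = h x₁ ∧ h y = h x₂) ∨ (h y = h x₁ ∧ h y = h x₃) ∨
      (h y = h x₂ ∧ h y = h x₃) := by
    intro y hy hg
    have k1 : f y ≠ f x₁ → h y = h x₁ := by
      intro hf
      rcases hyp y hy x₁ m₁ with h1 | h1 | h1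
      · exact absurd h1 hf
      · exact absurd h1 hg
      · exact h1
    have k2 : f y ≠ f x₂ → h y = h x₂ := by
      intro hf
      rcases hyp y hy x₂ m₂ with h1 | h1 | h1
      · exact absurd h1 hf
      · exact absurd (h1.trans g12.symm) hg
      · exact h1
    have k3 : f y ≠ f x₃ → h y = h x₃ := by
      intro hf
      rcases hyp y hy x₃ m₃ with h1 | h1 | h1
      · exact absurd h1 hf
      · exact absurd (h1.trans g13.symm) hg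
      · exact h1
    by_cases c1 : f y = f x₁
    · exact Or.inr (Or.inr ⟨k2 (fun h2 => f12 (c1.symm.trans h2)),
        k3 (fun h2 => f13 (c1.symm.trans h2))⟩)
    · by_cases c2 : f y = f x₂
      · exact Or.inr (Or.inl ⟨k1 c1, k3 (fun h2 => f23 (c2.symm.trans h2))⟩)
      · exact Or.inl ⟨k1 c1, k2 c2⟩
  intro y hy y' hy'
  rcases two y hy.1 hy.2 with ⟨h1, h2⟩ | ⟨h1, h2⟩ | ⟨h1, h2⟩ <;>
    rcases two y' hy'.1 hy'.2 with ⟨h3, h4⟩ | ⟨h3, h4⟩ | ⟨h3, h4⟩ <;>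
    first
      | exact h1.trans h3.symm
      | exact h1.trans h4.symm
      | exact h2.trans h3.symm
      | exact h2.trans h4.symm

theorem three : S_Three := by
  intro V Y f g h hyp
  by_cases h3 : ∃ x₁ ∈ Y, ∃ x₂ ∈ Y, ∃ x₃ ∈ Y, f x₁ ≠ f x₂ ∧ f x₁ ≠ f x₃ ∧ f x₂ ≠ f x₃
  · obtain ⟨x₁, m₁, x₂, m₂, x₃, m₃, f12, f13, f23⟩ := h3
    have hyp' : ∀ x ∈ Y, ∀ y ∈ Y, f x = f y ∨ h x = h y ∨ g x = g y := by
      intro x hx y hy
      rcases hyp x hx y hy with h1 | h1 | h1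
      · exact Or.inl h1
      · exact Or.inr (Or.inr h1)
      · exact Or.inr (Or.inl h1)
    have key : (g x₁ = g x₂ ∧ g x₁ = g x₃) ∨ (h x₁ = h x₂ ∧ h x₁ = h x₃) := by
      have a1 : g x₁ = g x₂ ∨ h x₁ = h x₂ := (hyp x₁ m₁ x₂ m₂).resolve_left f12
      have a2 : g x₁ = g x₃ ∨ h x₁ = h x₃ := (hyp x₁ m₁ x₃ m₃).resolve_left f13
      have a3 : g x₂ = g x₃ ∨ h x₂ = h x₃ := (hyp x₂ m₂ x₃ m₃).resolve_left f23
      rcases a1 with a1 | a1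
      · rcases a2 with a2 | a2
        · exact Or.inl ⟨a1, a2⟩
        · rcases a3 with a3 | a3
          · exact Or.inl ⟨a1, a1.trans a3⟩
          · exact Or.inr ⟨a2.trans a3.symm, a2⟩
      · rcases a2 with a2 | a2
        · rcases a3 with a3 | a3
          · exact Or.inl ⟨a2.trans a3.symm, a2⟩
          · exact Or.inr ⟨a1, a1.trans a3⟩
        · exact Or.inr ⟨a1, a2⟩
    rcases key with ⟨g12, g13⟩ | ⟨g12, g13⟩
    · obtain ⟨P, hP, hP'⟩ := three_aux hyp m₁ m₂ m₃ f12 f13 f23 g12 g13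
      exact ⟨P, Or.inr (Or.inl hP), Or.inr (Or.inr hP')⟩
    · obtain ⟨P, hP, hP'⟩ := three_aux hyp' m₁ m₂ m₃ f12 f13 f23 g12 g13
      exact ⟨P, Or.inr (Or.inr hP), Or.inr (Or.inl hP')⟩
  · rcases Y.eq_empty_or_nonempty with rfl | ⟨x₀, hx₀⟩
    · exact ⟨∅, Or.inl (fun x hx => absurd hx.1 (Set.notMem_empty x)),
        Or.inl (fun x hx => absurd hx.1 (Set.notMem_empty x))⟩
    · refine ⟨{x | f x = f x₀}, Or.inl (fun x hx y hy => hx.2.trans hy.2.symm), Or.inl ?_⟩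
      intro y hy y' hy'
      by_contra hne
      exact h3 ⟨x₀, hx₀, y, hy.1, y', hy'.1, fun h => hy.2 h.symm, fun h => hy'.2 h.symm, hne⟩

end Pool.Agent.MPd439b2.R3
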